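import Pool.Agent.NH25.PK.Sum

set_option autoImplicit false
set_option linter.unusedSectionVars false
set_option linter.unusedVariables false

/-!
# Orthogonal Lie algebras are not linked to Lie algebras with small representations
-/

open Module TensorProduct Matrix

noncomputable section

namespace Pool.Agent.NH25.PK

open Pool.Agent.Y102.SP Pool.Agent.R918.Sp

/-- The dimension of an orthogonal Lie algebra is at least fifteen. -/
theorem so_dim {U : Type} [AddCommGroup U] [Module ℂ U] [FiniteDimensional ℂ U] [Nontrivial U]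
    {r : ℕ} (hr : 6 ≤ r) {E : Fin r → Module.End ℂ U} (hE : CE E) :
    15 ≤ finrank ℂ (soE E) := by
  classical
  let ι : Type := {p : Fin 6 × Fin 6 // p.1 < p.2}
  let e : Fin 6 → Fin r := Fin.castLE hr
  have he : Function.Injective e := Fin.castLE_injective hr
  let v : ι → soE E := fun p => ⟨E (e p.1.1) * E (e p.1.2),
    Submodule.subset_span ⟨e p.1.1, e p.1.2, fun h => absurd (he h) (ne_of_lt p.2), rfl⟩⟩
  have hli : LinearIndependent ℂ v := by
    rw [Fintype.linearIndependent_iff]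
    intro c hc p
    have h1 : ∑ p : ι, c p • (E (e p.1.1) * E (e p.1.2)) = 0 := by
      have h2 := congrArg Subtype.val hc
      rw [Submodule.coe_sum] at h2
      exact h2
    let M : Matrix (Fin r) (Fin r) ℂ := ∑ p : ι, c p • gg (e p.1.1) (e p.1.2)
    have hM : Mᵀ = -M := by
      change (∑ p : ι, c p • gg (e p.1.1) (e p.1.2))ᵀ = -∑ p : ι, c p • gg (e p.1.1) (e p.1.2)
      rw [Matrix.transpose_sum, ← Finset.sum_neg_distrib]
      refine Finset.sum_congr rfl fun q _ => ?_
      rw [Matrix.transpose_smul, gg_skew, smul_neg]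
    have hrc : rc E M = 0 := by
      change rc E (∑ p : ι, c p • gg (e p.1.1) (e p.1.2)) = 0
      rw [map_sum, ← h1]
      refine Finset.sum_congr rfl fun q _ => ?_
      rw [map_smul, rc_gg hE fun h => absurd (he h) (ne_of_lt q.2)]
    have h3 := rc_inj hE hM hrc
    have h4 := congrFun (congrFun h3 (e p.1.1)) (e p.1.2)
    change (∑ p : ι, c p • gg (e p.1.1) (e p.1.2)) (e p.1.1) (e p.1.2) = 0 at h4
    rw [Matrix.sum_apply, Finset.sum_eq_single p] at h4
    · rw [Matrix.smul_apply, gg_self_apply, if_neg fun h => absurd (he h) (ne_of_lt p.2), sub_zero,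
        smul_eq_mul, mul_one] at h4
      exact h4
    · intro q _ hq
      rw [Matrix.smul_apply]
      unfold gg
      rw [Matrix.sub_apply, Matrix.single_apply, Matrix.single_apply, if_neg, if_neg, sub_zero,
        smul_zero]
      · rintro ⟨h5, h6⟩
        have h7 := he h5
        have h8 := he h6
        have h9 := p.2
        have h10 := q.2
        rw [← h7, ← h8] at h9
        exact absurd h9 (not_lt.2 h10.le)
      · rintro ⟨h5, h6⟩
        exact hq (Subtype.ext (Prod.ext (he h5) (he h6)))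
    · intro h; exact absurd (Finset.mem_univ _) h
  have h1 := hli.fintype_card_le_finrank
  have h2 : Fintype.card ι = 15 := by decide
  omega

variable {m : ℕ} {H : Type} [AddCommGroup H] [Module ℂ H] {U : Fin m → Type}
  [∀ i, AddCommGroup (U i)] [∀ i, Module ℂ (U i)] {P : ∀ i, H →ₗ[ℂ] U i} {Q : ∀ i, U i →ₗ[ℂ] H}
  {r : Fin m → ℕ} {E : ∀ i, Fin (r i) → Module.End ℂ (U i)}
  [∀ i, FiniteDimensional ℂ (U i)] [∀ i, Nontrivial (U i)]
  {VB : Type} [AddCommGroup VB] [Module ℂ VB] [FiniteDimensional ℂ VB]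

/-- A Lie algebra `𝔐` which acts on a sum of spaces of dimension at most three and on a sum of
spin representations, and which is mapped onto the sum of the orthogonal Lie algebras, contains the
sum of the orthogonal Lie algebras. -/
theorem big (D : Dec P Q) (hE : ∀ i, CE (E i)) (hr : ∀ i, 6 ≤ r i) {n : ℕ}
    {V : Fin n → Submodule ℂ VB} (hdim : ∀ k, finrank ℂ (V k) ≤ 3) (htop : ⨆ k, V k = ⊤)
    {𝔐 : Submodule ℂ (Module.End ℂ VB × Module.End ℂ H)}
    (hbr : ∀ z ∈ 𝔐, ∀ w ∈ 𝔐, ((z.1 * w.1 - w.1 * z.1, z.2 * w.2 - w.2 * z.2) :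
      Module.End ℂ VB × Module.End ℂ H) ∈ 𝔐)
    (hst : ∀ z ∈ 𝔐, ∀ k, ∀ v ∈ V k, z.1 v ∈ V k) (h2 : ∀ z ∈ 𝔐, z.2 ∈ soB P Q E)
    (hsurj : ∀ y ∈ soB P Q E, ∃ x, (x, y) ∈ 𝔐) : ∀ y ∈ soB P Q E, ((0 : Module.End ℂ VB), y) ∈ 𝔐 := by
  classical
  have hdiag : ∀ z ∈ 𝔐, Diag P Q z.2 := fun z hz => (soB_prop D (h2 z hz)).1
  have hpb : ∀ z ∈ 𝔐, ∀ i, pb P Q i z.2 ∈ soE (E i) := fun z hz => (soB_prop D (h2 z hz)).2
  have hpbr : ∀ z ∈ 𝔐, ∀ w ∈ 𝔐, ∀ i, pb P Q i (z.2 * w.2 - w.2 * z.2) =
      pb P Q i z.2 * pb P Q i w.2 - pb P Q i w.2 * pb P Q i z.2 := fun z hz w hw i => by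
    rw [map_sub, (diag_mul D (hdiag z hz) (hdiag w hw)).2,
      (diag_mul D (hdiag w hw) (hdiag z hz)).2]
  -- the elements which vanish on some of the subspaces
  let K : Finset (Fin n) → Submodule ℂ (Module.End ℂ VB × Module.End ℂ H) := fun S =>
    { carrier := {z | z ∈ 𝔐 ∧ ∀ k ∈ S, ∀ v ∈ V k, z.1 v = 0}
      zero_mem' := ⟨𝔐.zero_mem, fun k _ v _ => rfl⟩
      add_mem' := fun {a b} ha hb => ⟨𝔐.add_mem ha.1 hb.1, fun k hk v hv => by
        rw [Prod.fst_add, LinearMap.add_apply, ha.2 k hk v hv, hb.2 k hk v hv, add_zero]⟩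
      smul_mem' := fun c a ha => ⟨𝔐.smul_mem c ha.1, fun k hk v hv => by
        rw [Prod.smul_fst, LinearMap.smul_apply, ha.2 k hk v hv, smul_zero]⟩ }
  have hK : ∀ S z, z ∈ K S ↔ z ∈ 𝔐 ∧ ∀ k ∈ S, ∀ v ∈ V k, z.1 v = 0 := fun S z => Iff.rfl
  have hKbr : ∀ S, ∀ w ∈ 𝔐, ∀ z ∈ K S, ((w.1 * z.1 - z.1 * w.1, w.2 * z.2 - z.2 * w.2) :
      Module.End ℂ VB × Module.End ℂ H) ∈ K S := by
    intro S w hw z hz
    refine ⟨hbr w hw z hz.1, fun k hk v hv => ?_⟩
    change w.1 (z.1 v) - z.1 (w.1 v) = 0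
    rw [hz.2 k hk v hv, map_zero, hz.2 k hk _ (hst w hw k v hv), sub_zero]
  have claim : ∀ i (S : Finset (Fin n)), ∀ y ∈ soE (E i), ∃ z ∈ K S, pb P Q i z.2 = y := by
    intro i S
    induction S using Finset.induction_on with
    | empty =>
      intro y hy
      obtain ⟨x, hx⟩ := hsurj _ (ib_mem_soB (P := P) (Q := Q) i hy)
      exact ⟨_, ⟨hx, fun k hk => absurd hk (Finset.notMem_empty k)⟩, pb_ib D i y⟩
    | insert k S hkS ih =>
      let γ : (Module.End ℂ VB × Module.End ℂ H) →ₗ[ℂ] Module.End ℂ (U i) :=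
        pb P Q i ∘ₗ LinearMap.snd ℂ _ _
      have hγ : ∀ z, γ z = pb P Q i z.2 := fun z => rfl
      have hle : (K (insert k S)).map γ ≤ soE (E i) := by
        rintro _ ⟨z, hz, rfl⟩
        exact hpb z hz.1 i
      have hid : ∀ x ∈ soE (E i), ∀ y ∈ (K (insert k S)).map γ,
          x * y - y * x ∈ (K (insert k S)).map γ := by
        rintro x hx _ ⟨z, hz, rfl⟩
        obtain ⟨w, hw, hwx⟩ := ih x hx
        refine ⟨_, hKbr _ w hw.1 z hz, ?_⟩
        rw [hγ, hpbr w hw.1 z hz.1, hwx]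
        rfl
      rcases so_simple (by have := hr i; omega) (hE i) _ hle hid with h3 | h3
      swap
      · intro y hy
        rw [← h3] at hy
        exact Submodule.mem_map.1 hy
      exfalso
      -- the restriction to the subspace
      let ρ : K S →ₗ[ℂ] (V k →ₗ[ℂ] VB) :=
        { toFun := fun z => z.1.1 ∘ₗ (V k).subtype
          map_add' := fun z w => rfl
          map_smul' := fun c z => rfl }
      let ρ' : K S →ₗ[ℂ] Module.End ℂ (V k) :=
        { toFun := fun z => z.1.1.restrict (hst z.1 z.2.1 k)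
          map_add' := fun z w => rfl
          map_smul' := fun c z => rfl }
      let γ' : K S →ₗ[ℂ] soE (E i) :=
        { toFun := fun z => ⟨pb P Q i z.1.2, hpb z.1 z.2.1 i⟩
          map_add' := fun z w => Subtype.ext (map_add _ _ _)
          map_smul' := fun c z => Subtype.ext (map_smul _ _ _) }
      have hker : LinearMap.ker ρ' ≤ LinearMap.ker γ' := by
        intro z hz
        rw [LinearMap.mem_ker] at hz ⊢
        have h4 : z.1 ∈ K (insert k S) := by
          refine ⟨z.2.1, fun l hl v hv => ?_⟩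
          rcases Finset.mem_insert.1 hl with rfl | hl
          · exact congrArg Subtype.val
              (congrArg (fun F : Module.End ℂ (V l) => F ⟨v, hv⟩) hz)
          · exact z.2.2 l hl v hv
        have h5 : γ z.1 ∈ (K (insert k S)).map γ := Submodule.mem_map_of_mem h4
        rw [h3] at h5
        exact Subtype.ext ((Submodule.mem_bot ℂ).1 h5)
      have hsur : Function.Surjective γ' := by
        rintro ⟨y, hy⟩
        obtain ⟨z, hz, hzy⟩ := ih y hy
        exact ⟨⟨z, hz⟩, Subtype.ext hzy⟩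
      obtain ⟨δ, hδ⟩ : ∃ δ : LinearMap.range ρ' →ₗ[ℂ] soE (E i), Function.Surjective δ := by
        let q := (ρ'.quotKerEquivRange).symm
        let t : (K S ⧸ LinearMap.ker ρ') →ₗ[ℂ] soE (E i) := (LinearMap.ker ρ').liftQ γ' hker
        refine ⟨t ∘ₗ q.toLinearMap, ?_⟩
        intro y
        obtain ⟨z, hz⟩ := hsur y
        refine ⟨q.symm (Submodule.Quotient.mk z), ?_⟩
        change t (q (q.symm _)) = y
        rw [LinearEquiv.apply_symm_apply]
        exact hz
      have h4 : finrank ℂ (soE (E i)) ≤ finrank ℂ (LinearMap.range ρ') :=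
        LinearMap.finrank_le_finrank_of_surjective hδ
      have h5 : finrank ℂ (LinearMap.range ρ') ≤ finrank ℂ (Module.End ℂ (V k)) :=
        Submodule.finrank_le _
      have h6 : finrank ℂ (Module.End ℂ (V k)) = finrank ℂ (V k) * finrank ℂ (V k) :=
        Module.finrank_linearMap _ _ _ _
      have h7 := so_dim (hr i) (hE i)
      have h8 := hdim k
      have h9 : finrank ℂ (V k) * finrank ℂ (V k) ≤ 3 * 3 := Nat.mul_le_mul h8 h8
      omega
  have hzero : ∀ z ∈ K Finset.univ, z.1 = 0 := by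
    intro z hz
    have h3 : (⊤ : Submodule ℂ VB) ≤ LinearMap.ker z.1 := by
      rw [← htop]
      refine iSup_le fun k v hv => ?_
      exact hz.2 k (Finset.mem_univ _) v hv
    refine LinearMap.ext fun v => ?_
    exact LinearMap.mem_ker.1 (h3 Submodule.mem_top)
  have hblk : ∀ i, ∀ y ∈ soE (E i), ((0 : Module.End ℂ VB), ib P Q i y) ∈ 𝔐 := by
    intro i
    let N : Submodule ℂ (Module.End ℂ (U i)) :=
      𝔐.comap ((LinearMap.inr ℂ (Module.End ℂ VB) (Module.End ℂ H)) ∘ₗ ib P Q i)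
    have hN : ∀ y, y ∈ N ↔ ((0 : Module.End ℂ VB), ib P Q i y) ∈ 𝔐 := fun y => Iff.rfl
    have h3 : Submodule.span ℂ {z | ∃ x ∈ soE (E i), ∃ y ∈ soE (E i), z = x * y - y * x} ≤ N := by
      refine Submodule.span_le.2 ?_
      rintro _ ⟨x, hx, y, hy, rfl⟩
      obtain ⟨z, hz, hzx⟩ := claim i Finset.univ x hx
      obtain ⟨x', hx'⟩ := hsurj _ (ib_mem_soB (P := P) (Q := Q) i hy)
      have h4 := hbr z hz.1 _ hx'
      rw [hzero z hz] at h4
      simp only [zero_mul, mul_zero, sub_zero] at h4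
      change ((0 : Module.End ℂ VB), ib P Q i (x * y - y * x)) ∈ 𝔐
      have h5 : z.2 * ib P Q i y - ib P Q i y * z.2 = ib P Q i (x * y - y * x) := by
        have e1 : z.2 * ib P Q i y = ib P Q i (x * y) := by
          refine LinearMap.ext fun v => ?_
          rw [Module.End.mul_apply, ib_apply, ib_apply, hdiag z hz.1, hzx, Module.End.mul_apply]
        have e2 : ib P Q i y * z.2 = ib P Q i (y * x) := by
          refine LinearMap.ext fun v => ?_
          rw [Module.End.mul_apply, ib_apply, ib_apply, diag_P D (hdiag z hz.1), hzx,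
            Module.End.mul_apply]
        rw [e1, e2, map_sub]
      rwa [h5] at h4
    intro y hy
    exact h3 (so_perfect (by have := hr i; omega) (hE i) hy)
  intro y hy
  unfold soB at hy
  induction hy using Submodule.span_induction with
  | mem y hy =>
    obtain ⟨i, a, b, hab, rfl⟩ := hy
    exact hblk i _ (Submodule.subset_span ⟨a, b, hab, rfl⟩)
  | zero => exact 𝔐.zero_mem
  | add x y _ _ hx hy =>
    have h3 := 𝔐.add_mem hx hy
    rwa [Prod.mk_add_mk, add_zero] at h3
  | smul c x _ hx =>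
    have h3 := 𝔐.smul_mem c hx
    rwa [Prod.smul_mk, smul_zero] at h3

end Pool.Agent.NH25.PK

end
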