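import Pool.Agent.NH25.PK.Hdg

set_option autoImplicit false
set_option linter.unusedSectionVars false
set_option linter.unusedVariables false

/-!
# Comparison of the Betti realization and the `ℓ`-adic realization
-/

open Module TensorProduct

noncomputable section

namespace Pool.Agent.NH25.PK

open Pool.Agent.Y114.RM Pool.Agent.Y114.TF Pool.Agent.R918.Ell Pool.Agent

section ext

variable {ι : Type} [Fintype ι] [DecidableEq ι] (n : ι → ℕ) (K : Type) [Field K] [Algebra ℚ K]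

/-- The standard basis. -/
def bs : Basis (Σ i, Fin (n i)) K (∀ i, Fin (n i) → K) := Pi.basis fun i => Pi.basisFun K (Fin (n i))

variable {n}

/-- The endomorphism with the same matrix. -/
def ex (X : End ℚ (∀ i, Fin (n i) → ℚ)) : End K (∀ i, Fin (n i) → K) :=
  Matrix.toLin (bs n K) (bs n K) ((LinearMap.toMatrix (bs n ℚ) (bs n ℚ) X).map (algebraMap ℚ K))

theorem ex_bs (X : End ℚ (∀ i, Fin (n i) → ℚ)) (j : Σ i, Fin (n i)) :
    ex K X (bs n K j) = ∑ i, algebraMap ℚ K (LinearMap.toMatrix (bs n ℚ) (bs n ℚ) X i j) •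
      bs n K i := by
  unfold ex
  rw [Matrix.toLin_self]
  rfl

theorem bs_sum (X : End ℚ (∀ i, Fin (n i) → ℚ)) (j : Σ i, Fin (n i)) :
    X (bs n ℚ j) = ∑ i, LinearMap.toMatrix (bs n ℚ) (bs n ℚ) X i j • bs n ℚ i := by
  conv_lhs => rw [← Matrix.toLin_toMatrix (bs n ℚ) (bs n ℚ) X]
  rw [Matrix.toLin_self]

variable [Algebra K ℂ]

/-- The comparison isomorphism over the complex numbers. -/
def th : (ℂ ⊗[K] (∀ i, Fin (n i) → K)) ≃ₗ[ℂ] (ℂ ⊗[ℚ] (∀ i, Fin (n i) → ℚ)) :=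
  ((bs n K).baseChange ℂ).equiv ((bs n ℚ).baseChange ℂ) (Equiv.refl _)

theorem th_bs (j : Σ i, Fin (n i)) :
    th K ((1 : ℂ) ⊗ₜ[K] bs n K j) = (1 : ℂ) ⊗ₜ[ℚ] bs n ℚ j := by
  have h1 := ((bs n K).baseChange ℂ).equiv_apply j ((bs n ℚ).baseChange ℂ) (Equiv.refl _)
  rw [Basis.baseChange_apply, Equiv.refl_apply, Basis.baseChange_apply] at h1
  exact h1

theorem th_ex (X : End ℚ (∀ i, Fin (n i) → ℚ)) (x : ℂ ⊗[K] (∀ i, Fin (n i) → K)) :
    th K ((ex K X).baseChange ℂ x) = X.baseChange ℂ (th K x) := by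
  have h1 : (th K).toLinearMap ∘ₗ (ex K X).baseChange ℂ = X.baseChange ℂ ∘ₗ (th K).toLinearMap := by
    refine ((bs n K).baseChange ℂ).ext fun j => ?_
    rw [Basis.baseChange_apply, LinearMap.comp_apply, LinearMap.comp_apply, LinearMap.baseChange_tmul,
      ex_bs]
    change th K _ = X.baseChange ℂ (th K _)
    rw [th_bs, LinearMap.baseChange_tmul, bs_sum, TensorProduct.tmul_sum, TensorProduct.tmul_sum,
      map_sum]
    refine Finset.sum_congr rfl fun i _ => ?_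
    obtain ⟨q, hq⟩ : ∃ q : ℚ, q = LinearMap.toMatrix (bs n ℚ) (bs n ℚ) X i j := ⟨_, rfl⟩
    rw [← hq]
    have e1 : (1 : ℂ) ⊗ₜ[K] (algebraMap ℚ K q • bs n K i) = (q : ℂ) • ((1 : ℂ) ⊗ₜ[K] bs n K i) := by
      rw [TensorProduct.tmul_smul, TensorProduct.smul_tmul', TensorProduct.smul_tmul']
      congr 1
      rw [Algebra.smul_def, mul_one, smul_eq_mul, mul_one, eq_ratCast, map_ratCast]
    have e2 : (1 : ℂ) ⊗ₜ[ℚ] (q • bs n ℚ i) = (q : ℂ) • ((1 : ℂ) ⊗ₜ[ℚ] bs n ℚ i) := by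
      rw [TensorProduct.tmul_smul, TensorProduct.smul_tmul', TensorProduct.smul_tmul',
        Algebra.smul_def, mul_one, smul_eq_mul, mul_one, eq_ratCast]
    rw [e1, e2, map_smul, th_bs]
  exact LinearMap.congr_fun h1 x

/-- The base change of a space of endomorphisms. -/
def adic (𝔤 : Submodule ℚ (End ℚ (∀ i, Fin (n i) → ℚ))) :
    Submodule K (End K (∀ i, Fin (n i) → K)) := Submodule.span K (ex K '' (𝔤 : Set _))

theorem bcS_adic (𝔤 : Submodule ℚ (End ℚ (∀ i, Fin (n i) → ℚ))) :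
    bcS ℂ (adic K 𝔤) = (bcS ℂ 𝔤).map ((th K).symm.conj).toLinearMap := by
  have hc : ∀ X : End ℚ (∀ i, Fin (n i) → ℚ),
      (th K).symm.conj (X.baseChange ℂ) = (ex K X).baseChange ℂ := by
    intro X
    refine LinearMap.ext fun x => ?_
    rw [LinearEquiv.conj_apply_apply, LinearEquiv.symm_symm, ← th_ex, LinearEquiv.symm_apply_apply]
  unfold bcS adic
  rw [Submodule.map_span]
  refine le_antisymm (Submodule.span_le.2 ?_) (Submodule.span_le.2 ?_)
  · rintro _ ⟨Y, hY, rfl⟩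
    change Y.baseChange ℂ ∈ Submodule.span ℂ _
    induction hY using Submodule.span_induction with
    | mem Y hY =>
      obtain ⟨X, hX, rfl⟩ := hY
      exact Submodule.subset_span ⟨X.baseChange ℂ, ⟨X, hX, rfl⟩, hc X⟩
    | zero => rw [LinearMap.baseChange_zero]; exact Submodule.zero_mem _
    | add a b _ _ ha hb => rw [LinearMap.baseChange_add]; exact Submodule.add_mem _ ha hb
    | smul c a _ ha =>
      have e1 : (c • a).baseChange ℂ = (algebraMap K ℂ c) • a.baseChange ℂ := by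
        rw [LinearMap.baseChange_smul, algebraMap_smul]
      rw [e1]
      exact Submodule.smul_mem _ _ ha
  · rintro _ ⟨_, ⟨X, hX, rfl⟩, rfl⟩
    refine Submodule.subset_span ⟨ex K X, Submodule.subset_span ⟨X, hX, rfl⟩, ?_⟩
    exact (hc X).symm

end ext

section type

variable {H H' : Type} [AddCommGroup H] [Module ℂ H] [AddCommGroup H'] [Module ℂ H']

/-- The type: a sum of spin representations, on the images of projectors. -/
def Typ (𝔩 : Submodule ℂ (End ℂ H)) (w : ℤ) : Prop :=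
  ∃ (m : ℕ) (r : Fin m → ℕ) (e : Fin m → End ℂ H) (F : ∀ i, Fin (r i) → End ℂ H),
    (∀ i, r i = 3 ∨ 6 ≤ r i) ∧ Prj e F ∧
    𝔩 = Submodule.span ℂ {Y | ∃ i a b, a ≠ b ∧ Y = F i a * F i b} ⊔
      if w = 0 then ⊥ else Submodule.span ℂ {1}

theorem Typ.conj {𝔩 : Submodule ℂ (End ℂ H)} {w : ℤ} (h : Typ 𝔩 w) (Θ : H ≃ₗ[ℂ] H') :
    Typ (𝔩.map Θ.conj.toLinearMap) w := by
  obtain ⟨m, r, e, F, hr, hP, rfl⟩ := h
  have hmul : ∀ x y : End ℂ H, Θ.conj (x * y) = Θ.conj x * Θ.conj y := fun x y =>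
    LinearEquiv.conj_comp Θ y x
  have hone : Θ.conj (1 : End ℂ H) = 1 := LinearEquiv.conj_id Θ
  refine ⟨m, r, fun i => Θ.conj (e i), fun i a => Θ.conj (F i a), hr, ?_, ?_⟩
  · exact
      { ne := fun i h0 => hP.ne i (Θ.conj.map_eq_zero_iff.1 h0)
        orth := fun i j hij => by rw [← hmul, hP.orth i j hij, map_zero]
        sum := by rw [← map_sum, hP.sum, hone]
        sq := fun i a => by rw [← hmul, hP.sq]
        fe := fun i a => by rw [← hmul, hP.fe]
        anti := fun i a b hab => by rw [← hmul, hP.anti i a b hab, map_neg, hmul] }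
  · rw [Submodule.map_sup, Submodule.map_span]
    congr 1
    · congr 1
      ext Y
      constructor
      · rintro ⟨_, ⟨i, a, b, hab, rfl⟩, rfl⟩
        exact ⟨i, a, b, hab, hmul _ _⟩
      · rintro ⟨i, a, b, hab, rfl⟩
        exact ⟨_, ⟨i, a, b, hab, rfl⟩, hmul _ _⟩
    · split_ifs
      · exact Submodule.map_bot _
      · rw [Submodule.map_span, Set.image_singleton]
        congr 2

theorem Typ.adic {ι : Type} [Fintype ι] [DecidableEq ι] {n : ι → ℕ} {K : Type} [Field K]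
    [Algebra ℚ K] [Algebra K ℂ] {𝔤 : Submodule ℚ (End ℚ (∀ i, Fin (n i) → ℚ))} {w : ℤ}
    (h : Typ (bcS ℂ 𝔤) w) : Typ (bcS ℂ (adic K 𝔤)) w := by
  rw [bcS_adic]
  exact h.conj (th K).symm

end type

end Pool.Agent.NH25.PK

end
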