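import Pool.Agent.NH25.PK.Trn

set_option autoImplicit false
set_option linter.unusedSectionVars false
set_option linter.unusedVariables false

/-!
# Products of determined abelian varieties with small blocks and abelian varieties of spin type are
determined
-/

open Module Function TensorProduct Matrix

noncomputable section

namespace Pool.Agent.NH25.PK

open Pool.Agent.Y102 Pool.Agent.W516.DR Pool.Agent.H204R3.GP Pool.Agent.W516.KC
  Pool.Agent.H204R3.SP Pool.Agent.TH119.MX Pool.Agent.R917.OM Pool.Agent.Y102.AbVar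
  Pool.Agent.R917.EC Pool.Agent.R917.DT Pool.Agent.R918.Sp

open Pool.Agent.Y102.SP (CE soE)

variable {g g₁ g₂ : ℕ} {A : AbVar g} {B : AbVar g₁} {C : AbVar g₂}
  {𝔥 : Submodule ℚ (Module.End ℚ A.H1)}

theorem rm_rq' (X : Module.End ℚ A.H1) : rm X = rq (a := 2 * g) (b := 2 * g) X := by
  rw [rm_eq, toC_eq]
  rfl

section poly

variable {a b : ℕ} {M : Matrix (Fin b) (Fin b) ℂ} {F : Matrix (Fin b) (Fin a) ℂ}
  {P : Matrix (Fin a) (Fin b) ℂ}

/-- Polynomials without constant term in a block. -/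
theorem aeval_blk (hFP : F * P = 1) {R : Polynomial ℂ} (hR : R.eval 0 = 0) :
    Polynomial.aeval (P * M * F) R = P * Polynomial.aeval M R * F := by
  obtain ⟨R1, rfl⟩ : ∃ R1, R = R1 * Polynomial.X := by
    obtain ⟨R1, h1⟩ := Polynomial.X_dvd_iff.2
      (by rw [Polynomial.coeff_zero_eq_eval_zero]; exact hR : R.coeff 0 = 0)
    exact ⟨R1, by rw [h1, mul_comm]⟩
  have h1 : P * M * F * P = P * M := by rw [Matrix.mul_assoc, hFP, Matrix.mul_one]
  rw [map_mul, map_mul, Polynomial.aeval_X, Polynomial.aeval_X, ← Matrix.mul_assoc,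
    ← Matrix.mul_assoc, aeval_inter h1 R1, Matrix.mul_assoc P]

end poly

/-- The image is closed under replicas. -/
theorem im_RC {f : B.H1 →ₗ[ℚ] A.H1} {p : A.H1 →ₗ[ℚ] B.H1} (h : Fac B A f p) (hRC : RC 𝔥)
    (hin : ∀ X ∈ 𝔥.map (rs f p), f.comp (X.comp p) ∈ 𝔥) : RC (𝔥.map (rs f p)) := by
  classical
  intro X hX s hs σ Q hQ lam X' hX'
  have hFP : rq f * rq p = 1 := h.rq_one
  have hblk : ∀ Z : Module.End ℚ B.H1, rm (f.comp (Z.comp p)) = rq p * rm Z * rq f := by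
    intro Z
    rw [rm_rq', rm_rq', ← rq_comp, ← rq_comp]
  obtain ⟨s', hs'⟩ : ∃ s' : Finset ℂ, s' = insert 0 s := ⟨_, rfl⟩
  have h0 : (0 : ℂ) ∈ s' := by rw [hs']; exact Finset.mem_insert_self _ _
  have hss : ∀ a ∈ s, a ∈ s' := fun a ha => by rw [hs']; exact Finset.mem_insert_of_mem ha
  obtain ⟨Q', hQ'⟩ : ∃ Q' : Polynomial ℂ, ∀ a ∈ s', Q'.eval a = σ a :=
    ⟨Lagrange.interpolate s' id (fun x => σ x), fun x hx =>
      Lagrange.eval_interpolate_at_node (fun x => σ x) (Function.injective_id.injOn) hx⟩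
  have hdvd : ∀ R : Polynomial ℂ, (∀ a ∈ s, R.eval a = 0) →
      Polynomial.aeval (rm X) R = 0 := by
    intro R hR
    obtain ⟨T, rfl⟩ := nodal_dvd hR
    rw [map_mul, hs, zero_mul]
  have hQQ : Polynomial.aeval (rm X) Q' = Polynomial.aeval (rm X) Q := by
    have h1 := hdvd (Q' - Q) (fun a ha => by
      rw [Polynomial.eval_sub, hQ a ha, hQ' a (hss a ha), sub_self])
    rwa [map_sub, sub_eq_zero] at h1
  refine ⟨f.comp (X'.comp p), ?_, ?_⟩
  · refine hRC _ (hin X hX) s' ?_ σ Q' hQ' lam _ ?_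
    · rw [hblk, aeval_blk hFP (Lagrange.eval_nodal_at_node (v := id) h0),
        hdvd _ (fun a ha => Lagrange.eval_nodal_at_node (v := id) (hss a ha)), Matrix.mul_zero,
        Matrix.zero_mul]
    · rw [hblk, hblk, aeval_blk hFP (by rw [hQ' 0 h0, map_zero]), hQQ, rq_map_right, rq_map_left,
        hX']
  · refine LinearMap.ext fun w => ?_
    change p (f (X' (p (f w)))) = X' w
    rw [h.pf, h.pf]

variable {f : B.H1 →ₗ[ℚ] A.H1} {p : A.H1 →ₗ[ℚ] B.H1} {f' : C.H1 →ₗ[ℚ] A.H1}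
  {p' : A.H1 →ₗ[ℚ] C.H1}

/-- The decomposition of the elements of the Lie algebra. -/
theorem prd_dec (h : Prd A B C f p f' p') {X : Module.End ℚ A.H1} (hX : X ∈ A.NA) :
    X = f.comp ((rs f p X).comp p) + f'.comp ((rs f' p' X).comp p') := by
  have h1 : ∀ w, p (X w) = rs f p X (p w) := by
    intro w
    have h4 := congrArg (fun T : Module.End ℚ A.H1 => p (T w)) (A.NA_comm hX h.b.mem_EA)
    change p (X (f (p w))) = p (f (p (X w))) at h4
    rw [h.b.pf] at h4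
    exact h4.symm
  have h2 : ∀ w, p' (X w) = rs f' p' X (p' w) := by
    intro w
    have h4 := congrArg (fun T : Module.End ℚ A.H1 => p' (T w)) (A.NA_comm hX h.c.mem_EA)
    change p' (X (f' (p' w))) = p' (f' (p' (X w))) at h4
    rw [h.c.pf] at h4
    exact h4.symm
  refine LinearMap.ext fun w => ?_
  change X w = f (rs f p X (p w)) + f' (rs f' p' X (p' w))
  rw [← h1, ← h2, h.sum]

variable {m : ℕ} {d r : Fin m → ℕ} {P : ∀ i, Matrix (Fin (d i)) (Fin (2 * g₂)) ℂ}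
    {Q : ∀ i, Matrix (Fin (2 * g₂)) (Fin (d i)) ℂ}
    {E : ∀ i, Fin (r i) → Matrix (Fin (d i)) (Fin (d i)) ℂ}

/-- **Theorem.** Products are determined. -/
theorem det_prd (h : Prd A B C f p f' p') (hD : Det B) (hS : Small B) (hB : Blk P Q E)
    (hr : ∀ i, 6 ≤ r i) (hl : cx C.NA = soB (Pm P) (Qm Q) (Em E)) : Det A := by
  intro 𝔥 hF hRC
  have h1 : ∀ X ∈ A.NA, f'.comp ((rs f' p' X).comp p') ∈ 𝔥 := fun X hX =>
    mem_spin h hF hS hB hr hl (h.c.rs_NA hX)
  have hin : ∀ X ∈ 𝔥.map (rs f p), f.comp (X.comp p) ∈ 𝔥 := by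
    rintro _ ⟨Z, hZ, rfl⟩
    have h2 := prd_dec h (hF.le hZ)
    have h3 := 𝔥.sub_mem hZ (h1 Z (hF.le hZ))
    have h4 : Z - f'.comp ((rs f' p' Z).comp p') = f.comp ((rs f p Z).comp p) :=
      sub_eq_iff_eq_add.2 h2
    rwa [h4] at h3
  have h2 := hD _ (im_full h.b hF) (im_RC h.b hRC hin)
  intro X hX
  rw [prd_dec h hX]
  exact 𝔥.add_mem (hin _ (h2 (h.b.rs_NA hX))) (h1 X hX)

end Pool.Agent.NH25.PK

end
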