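import Pool.Agent.NH25.PK.Mot

set_option autoImplicit false
set_option linter.unusedSectionVars false
set_option linter.unusedVariables false

/-!
# Polarized Hodge structures and the Lie algebra of the Mumford-Tate group
-/

open Module TensorProduct

noncomputable section

namespace Pool.Agent.NH25.PK

open Pool.Agent.Y114.RM Pool.Agent.Y114.TF Pool.Agent.R918.Ell Pool.Agent

section hodge

variable {H : Type} [AddCommGroup H] [Module ℚ H]

/-- Complex conjugation on `ℂ ⊗ H`. -/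
def cj : (ℂ ⊗[ℚ] H) →ₗ[ℚ] (ℂ ⊗[ℚ] H) :=
  LinearMap.rTensor H (Complex.conjAe.toLinearMap.restrictScalars ℚ)

theorem cj_tmul (z : ℂ) (v : H) : cj (z ⊗ₜ[ℚ] v) = (starRingEnd ℂ z) ⊗ₜ[ℚ] v := rfl

theorem cj_smul (z : ℂ) (x : ℂ ⊗[ℚ] H) : cj (z • x) = (starRingEnd ℂ z) • cj x := by
  induction x using TensorProduct.induction_on with
  | zero => rw [smul_zero, map_zero, smul_zero]
  | tmul c v => rw [TensorProduct.smul_tmul', cj_tmul, cj_tmul, TensorProduct.smul_tmul',
      smul_eq_mul, map_mul, smul_eq_mul]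
  | add x y hx hy => rw [smul_add, map_add, map_add, smul_add, hx, hy]

/-- A Hodge structure of weight `w` on `H`, given by the operator `D` which acts by `p - q` on the
part of type `(p, q)`, with a polarization `ψ`. -/
structure Pol (w : ℤ) (D : End ℂ (ℂ ⊗[ℚ] H)) (ψ : LinearMap.BilinForm ℚ H) : Prop where
  diag : ⨆ p : ℤ, End.eigenspace D (p : ℂ) = ⊤
  parity : ∀ p : ℤ, End.eigenspace D (p : ℂ) ≠ ⊥ → Even (p - w)
  real : ∀ x, D (cj x) = -cj (D x)
  symm : ∀ u v, ψ u v = if Even w then ψ v u else -ψ v u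
  skew : ∀ x y, ψ.baseChange ℂ (D x) y = -ψ.baseChange ℂ x (D y)
  pos : ∀ (p : ℤ), ∀ x ∈ End.eigenspace D (p : ℂ), x ≠ 0 →
    0 < (Complex.I ^ p * ψ.baseChange ℂ x (cj x)).re

/-- The rational component. -/
abbrev cmp (π : ℂ →ₗ[ℚ] ℚ) (D : End ℂ (ℂ ⊗[ℚ] H)) : End ℚ H := pM π D

variable {w : ℤ} {D : End ℂ (ℂ ⊗[ℚ] H)} {ψ : LinearMap.BilinForm ℚ H}

theorem pv_form (π : ℂ →ₗ[ℚ] ℚ) (z : ℂ ⊗[ℚ] H) (v : H) :
    π (ψ.baseChange ℂ z (1 ⊗ₜ[ℚ] v)) = ψ (pv π z) v := by
  induction z using TensorProduct.induction_on with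
  | zero => rw [map_zero, LinearMap.zero_apply, map_zero, map_zero, map_zero, LinearMap.zero_apply]
  | tmul c u =>
    rw [LinearMap.BilinForm.baseChange_tmul, pv_tmul, map_smul, mul_one, map_smul,
      LinearMap.smul_apply, smul_eq_mul, smul_eq_mul, mul_comm]
  | add x y hx hy => rw [map_add, LinearMap.add_apply, map_add, hx, hy, map_add, map_add,
      LinearMap.add_apply]

theorem pv_form' (π : ℂ →ₗ[ℚ] ℚ) (z : ℂ ⊗[ℚ] H) (v : H) :
    π (ψ.baseChange ℂ (1 ⊗ₜ[ℚ] v) z) = ψ v (pv π z) := by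
  induction z using TensorProduct.induction_on with
  | zero => rw [map_zero, map_zero, map_zero, map_zero]
  | tmul c u =>
    rw [LinearMap.BilinForm.baseChange_tmul, pv_tmul, map_smul, one_mul, map_smul, smul_eq_mul,
      smul_eq_mul, mul_comm]
  | add x y hx hy => rw [map_add, map_add, hx, hy, map_add, map_add]

/-- The components are skew. -/
theorem Pol.cmp_skew (h : Pol w D ψ) (π : ℂ →ₗ[ℚ] ℚ) (u v : H) :
    ψ (cmp π D u) v = -ψ u (cmp π D v) := by
  have h1 := congrArg π (h.skew (1 ⊗ₜ[ℚ] u) (1 ⊗ₜ[ℚ] v))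
  rw [map_neg, pv_form, pv_form'] at h1
  exact h1

/-- The Lie algebra generated by the components. -/
def hLie (D : End ℂ (ℂ ⊗[ℚ] H)) : Submodule ℚ (End ℚ H) :=
  sInf {S | IsLie S ∧ ∀ π, cmp π D ∈ S}

/-- A subspace closed under brackets which contains the components. -/
theorem hLie_le {S : Submodule ℚ (End ℚ H)} (hS : IsLie S)
    (h : ∀ π, cmp π D ∈ S) {X : End ℚ H} (hX : X ∈ hLie D) : X ∈ S :=
  (Submodule.mem_sInf.1 hX) S ⟨hS, h⟩

theorem cmp_mem (π : ℂ →ₗ[ℚ] ℚ) : cmp π D ∈ hLie D :=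
  Submodule.mem_sInf.2 fun _ hS => hS.2 π

theorem hLie_br : IsLie (hLie D) := fun X hX Y hY =>
  Submodule.mem_sInf.2 fun S hS =>
    hS.1 X ((Submodule.mem_sInf.1 hX) S hS) Y ((Submodule.mem_sInf.1 hY) S hS)

theorem Pol.hLie_skew (h : Pol w D ψ) {X : End ℚ H} (hX : X ∈ hLie D) (u v : H) :
    ψ (X u) v = -ψ u (X v) := by
  let S : Submodule ℚ (End ℚ H) :=
    { carrier := {X | ∀ u v, ψ (X u) v = -ψ u (X v)}
      zero_mem' := fun u v => by simp
      add_mem' := fun {a b} ha hb u v => by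
        rw [LinearMap.add_apply, LinearMap.add_apply, map_add, LinearMap.add_apply, ha, hb, map_add,
          neg_add]
      smul_mem' := fun c a ha u v => by
        rw [LinearMap.smul_apply, LinearMap.smul_apply, map_smul, LinearMap.smul_apply, ha,
          map_smul, smul_neg] }
  refine hLie_le (S := S) (fun X hX Y hY u v => ?_) (fun π => h.cmp_skew π) hX u v
  have e1 : ψ ((X * Y - Y * X) u) v = ψ (X (Y u)) v - ψ (Y (X u)) v := by
    rw [LinearMap.sub_apply, map_sub, LinearMap.sub_apply]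
    rfl
  have e2 : ψ u ((X * Y - Y * X) v) = ψ u (X (Y v)) - ψ u (Y (X v)) := by
    rw [LinearMap.sub_apply, map_sub]
    rfl
  rw [e1, e2, hX (Y u) v, hY u (X v), hY (X u) v, hX u (Y v)]
  ring

theorem Pol.refl (h : Pol w D ψ) : ψ.IsRefl := by
  intro u v huv
  rw [h.symm]
  split_ifs
  · exact huv
  · rw [huv, neg_zero]

/-- the operator is in the complexification -/
theorem D_mem [FiniteDimensional ℚ H] : D ∈ bcS ℂ (hLie D) :=
  (Y809.RM.BC.mem_bcS _ _).2 fun π => cmp_mem π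

variable [FiniteDimensional ℚ H]

/-- The polarization is definite on the rational subspaces stable under the components. -/
theorem Pol.def (h : Pol w D ψ) {U : Submodule ℚ H} (hU : ∀ X ∈ hLie D, ∀ u ∈ U, X u ∈ U) {u : H}
    (hu : u ∈ U) (h0 : ∀ v ∈ U, ψ u v = 0) : u = 0 := by
  let UC : Submodule ℂ (ℂ ⊗[ℚ] H) := U.baseChange ℂ
  have hUC : UC = Submodule.span ℂ ((fun v => (1 : ℂ) ⊗ₜ[ℚ] v) '' (U : Set H)) := by
    have h1 := Submodule.baseChange_span (A := ℂ) (U : Set H) (R := ℚ)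
    rw [Submodule.span_eq] at h1
    exact h1
  have hDU : ∀ Y ∈ bcS ℂ (hLie D), ∀ x ∈ UC, Y x ∈ UC := by
    intro Y hY
    induction hY using Submodule.span_induction with
    | mem Y hY =>
      obtain ⟨X, hX, rfl⟩ := hY
      intro x hx
      rw [hUC] at hx
      induction hx using Submodule.span_induction with
      | mem x hx =>
        obtain ⟨v, hv, rfl⟩ := hx
        rw [hUC]
        exact Submodule.subset_span ⟨X v, hU X hX v hv, rfl⟩
      | zero => rw [map_zero]; exact UC.zero_mem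
      | add a b _ _ ha hb => rw [map_add]; exact UC.add_mem ha hb
      | smul c a _ ha => rw [map_smul]; exact UC.smul_mem c ha
    | zero => intro x _; exact UC.zero_mem
    | add a b _ _ ha hb => intro x hx; exact UC.add_mem (ha x hx) (hb x hx)
    | smul c a _ ha => intro x hx; exact UC.smul_mem c (ha x hx)
  have hcU : ∀ x ∈ UC, cj x ∈ UC := by
    intro x hx
    rw [hUC] at hx
    induction hx using Submodule.span_induction with
    | mem x hx =>
      obtain ⟨v, hv, rfl⟩ := hx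
      rw [hUC]
      refine Submodule.subset_span ⟨v, hv, ?_⟩
      rw [cj_tmul, map_one]
    | zero => rw [map_zero]; exact UC.zero_mem
    | add a b _ _ ha hb => rw [map_add]; exact UC.add_mem ha hb
    | smul c a _ ha => rw [cj_smul]; exact UC.smul_mem _ ha
  let K : Submodule ℂ (ℂ ⊗[ℚ] H) :=
    { carrier := {x | x ∈ UC ∧ ∀ y ∈ UC, ψ.baseChange ℂ x y = 0}
      zero_mem' := ⟨UC.zero_mem, fun y _ => by rw [map_zero, LinearMap.zero_apply]⟩
      add_mem' := fun {a b} ha hb => ⟨UC.add_mem ha.1 hb.1, fun y hy => by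
        rw [map_add, LinearMap.add_apply, ha.2 y hy, hb.2 y hy, add_zero]⟩
      smul_mem' := fun c a ha => ⟨UC.smul_mem c ha.1, fun y hy => by
        rw [map_smul, LinearMap.smul_apply, ha.2 y hy, smul_zero]⟩ }
  have hDK : ∀ x ∈ K, D x ∈ K := fun x hx => ⟨hDU D D_mem x hx.1, fun y hy => by
    rw [h.skew, hx.2 _ (hDU D D_mem y hy), neg_zero]⟩
  have hes : ∀ μ : ℂ, K ⊓ End.genEigenspace D μ 1 = ⊥ := by
    intro μ
    rw [eq_bot_iff]
    rintro x ⟨hxK, hx⟩
    by_contra hx0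
    have hx0 : x ≠ 0 := hx0
    have hxe : x ∈ End.eigenspace D μ := hx
    obtain ⟨p, hp⟩ : ∃ p : ℤ, μ = p := by
      by_contra hcon
      push Not at hcon
      have h1 := (End.eigenspaces_iSupIndep D) μ
      have h2 : (⊤ : Submodule ℂ (ℂ ⊗[ℚ] H)) ≤ ⨆ ν, ⨆ (_ : ν ≠ μ), End.eigenspace D ν := by
        rw [← h.diag]
        refine iSup_le fun p => ?_
        exact le_iSup_of_le (p : ℂ) (le_iSup_of_le (Ne.symm (hcon p)) le_rfl)
      have h3 := Submodule.disjoint_def.1 h1 x hxe (h2 Submodule.mem_top)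
      exact hx0 h3
    subst hp
    have h1 := h.pos p x hxe hx0
    rw [hxK.2 _ (hcU x hxK.1), mul_zero, Complex.zero_re] at h1
    exact lt_irrefl _ h1
  have htop : ⨆ μ, End.genEigenspace D μ 1 = ⊤ := by
    rw [eq_top_iff, ← h.diag]
    exact iSup_le fun p => le_iSup_of_le (p : ℂ) le_rfl
  have hK : K = ⊥ := by
    have h1 := Submodule.inf_iSup_genEigenspace (p := K) (f := D) hDK 1
    rw [htop, inf_top_eq] at h1
    rw [h1]
    exact iSup_eq_bot.2 hes
  have huK : (1 : ℂ) ⊗ₜ[ℚ] u ∈ K := by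
    refine ⟨by rw [hUC]; exact Submodule.subset_span ⟨u, hu, rfl⟩, fun y hy => ?_⟩
    rw [hUC] at hy
    induction hy using Submodule.span_induction with
    | mem y hy =>
      obtain ⟨v, hv, rfl⟩ := hy
      rw [LinearMap.BilinForm.baseChange_tmul, h0 v hv, zero_smul]
    | zero => rw [map_zero]
    | add a b _ _ ha hb => rw [map_add, ha, hb, add_zero]
    | smul c a _ ha => rw [map_smul, ha, smul_zero]
  rw [hK, Submodule.mem_bot] at huK
  obtain ⟨π, hπ⟩ := exists_pi ℚ ℂ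
  have h1 := congrArg (pv π) huK
  rw [pv_tmul, hπ, one_smul, map_zero] at h1
  exact h1

/-- The Lie algebra acts semisimply. -/
theorem Pol.semi (h : Pol w D ψ) (U : Submodule ℚ H) (hU : ∀ X ∈ (hLie D), ∀ u ∈ U, X u ∈ U) :
    ∃ U' : Submodule ℚ H, (∀ X ∈ (hLie D), ∀ u ∈ U', X u ∈ U') ∧ IsCompl U U' := by
  refine ⟨ψ.orthogonal U, fun X hX u hu => ?_, ?_⟩
  · rw [LinearMap.BilinForm.mem_orthogonal_iff] at hu ⊢
    intro v hv
    have h1 := hu (X v) (hU X hX v hv)
    rw [h.hLie_skew hX] at h1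
    exact neg_eq_zero.1 h1
  · refine LinearMap.BilinForm.isCompl_orthogonal_of_restrict_nondegenerate h.refl ?_
    rw [LinearMap.BilinForm.nondegenerate_iff_ker_eq_bot, LinearMap.ker_eq_bot']
    rintro ⟨u, hu⟩ h1
    refine Subtype.ext (h.def hU hu fun v hv => ?_)
    exact congrArg (fun T : U →ₗ[ℚ] ℚ => T ⟨v, hv⟩) h1

/-- The endomorphisms which kill a tensor. -/
def kil {k V : Type} [Field k] [AddCommGroup V] [Module k V] {m : ℕ} (φ : Tensor k V m) :
    Submodule k (End k V) where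
  carrier := {X | KillsTensor X φ}
  zero_mem' := by
    intro v
    refine Finset.sum_eq_zero fun l _ => ?_
    rw [Y41.RM.lie_zero, LinearMap.zero_apply]
    exact φ.map_coord_zero l (Function.update_self _ _ _)
  add_mem' := by
    intro X Y e1 e2 v
    have e3 := congrArg₂ (fun x y : k => x + y) (e1 v) (e2 v)
    simp only [add_zero] at e3
    rw [← e3, ← Finset.sum_add_distrib]
    refine Finset.sum_congr rfl fun l _ => ?_
    rw [Y41.RM.lie_add, LinearMap.add_apply, MultilinearMap.map_update_add]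
  smul_mem' := by
    intro c X e1 v
    rw [← mul_zero c, ← e1 v, Finset.mul_sum]
    refine Finset.sum_congr rfl fun l _ => ?_
    rw [Y41.RM.lie_smul, LinearMap.smul_apply, MultilinearMap.map_update_smul, smul_eq_mul]

theorem kil_lie {k V : Type} [Field k] [AddCommGroup V] [Module k V] {m : ℕ} (φ : Tensor k V m) :
    IsLie (kil φ) := by
  intro X e1 Y e2
  have e3 := Pool.Agent.H204R3.SP.kills_bracket (X := lie X) (Y := lie Y) (φ := φ) e1 e2
  rw [← Y41.RM.lie_bracket] at e3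
  exact e3

/-- `φ` is a Hodge tensor: it is killed by the operator and, if the weight is not zero, by the
scalars. -/
def HTensor (w : ℤ) (D : End ℂ (ℂ ⊗[ℚ] H)) {m : ℕ} (φ : Tensor ℚ H m) : Prop :=
  (∀ π, KillsTensor (cmp π D) φ) ∧ (w ≠ 0 → KillsTensor (1 : End ℚ H) φ)

theorem HTensor.kills {m : ℕ} {φ : Tensor ℚ H m} (hφ : HTensor w D φ) {X : End ℚ H}
    (hX : X ∈ hLie D) : KillsTensor X φ := hLie_le (S := kil φ) (kil_lie φ) hφ.1 hX

/-- An endomorphism which commutes with the components is a Hodge endomorphism. -/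
theorem comm_D {P : End ℚ H} (hP : ∀ π, P * cmp π D = cmp π D * P) :
    P.baseChange ℂ * D = D * P.baseChange ℂ := by
  refine Y809.RM.BC.eq_of_pM _ _ fun π => ?_
  rw [Y809.RM.BC.pM_bc_mul, Y809.RM.BC.pM_mul_bc]
  exact hP π

theorem comm_cmp {P : End ℚ H} (hP : P.baseChange ℂ * D = D * P.baseChange ℂ) (π : ℂ →ₗ[ℚ] ℚ) :
    P * cmp π D = cmp π D * P := by
  have h1 := congrArg (pM π) hP
  rwa [Y809.RM.BC.pM_bc_mul, Y809.RM.BC.pM_mul_bc] at h1

/-- The Hodge endomorphisms commute with `𝔤`. -/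
def HEnd (D : End ℂ (ℂ ⊗[ℚ] H)) (𝔤 : Submodule ℚ (End ℚ H)) : Prop :=
  ∀ P : End ℚ H, P.baseChange ℂ * D = D * P.baseChange ℂ → ∀ X ∈ 𝔤, X * P = P * X

theorem Pol.adjoin (h : Pol w D ψ) {𝔤 : Submodule ℚ (End ℚ H)} (hE : HEnd D 𝔤) {X : End ℚ H}
    (hX : X ∈ 𝔤) : X ∈ Algebra.adjoin ℚ (hLie D : Set (End ℚ H)) := by
  refine mem_adjoin_of_comm h.semi fun P hP => ?_
  exact hE P (comm_D fun π => (hP _ (cmp_mem π)).symm) X hX

theorem adjoin_bc {S : Submodule ℚ (End ℚ H)} {X : End ℚ H}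
    (hX : X ∈ Algebra.adjoin ℚ (S : Set (End ℚ H))) :
    X.baseChange ℂ ∈ Algebra.adjoin ℂ (bcS ℂ S : Set (End ℂ (ℂ ⊗[ℚ] H))) := by
  induction hX using Algebra.adjoin_induction with
  | mem X hX => exact Algebra.subset_adjoin (Submodule.subset_span ⟨X, hX, rfl⟩)
  | algebraMap c =>
    have h1 : (algebraMap ℚ (End ℚ H) c).baseChange ℂ = (c : ℂ) • (1 : End ℂ (ℂ ⊗[ℚ] H)) := by
      refine TensorProduct.AlgebraTensorModule.ext fun z v => ?_
      rw [Algebra.algebraMap_eq_smul_one, LinearMap.baseChange_tmul, LinearMap.smul_apply,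
        LinearMap.smul_apply, Module.End.one_apply, Module.End.one_apply, TensorProduct.smul_tmul',
        TensorProduct.tmul_smul, TensorProduct.smul_tmul', Rat.smul_def, smul_eq_mul]
    rw [h1]
    exact Subalgebra.smul_mem _ (Subalgebra.one_mem _) _
  | add X Y _ _ hX hY =>
    rw [LinearMap.baseChange_add]
    exact Subalgebra.add_mem _ hX hY
  | mul X Y _ _ hX hY =>
    have h1 : (X * Y).baseChange ℂ = X.baseChange ℂ * Y.baseChange ℂ :=
      LinearMap.baseChange_comp _ _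
    rw [h1]
    exact Subalgebra.mul_mem _ hX hY

theorem bcS_adjoin {S 𝔤 : Submodule ℚ (End ℚ H)}
    (h : ∀ X ∈ 𝔤, X ∈ Algebra.adjoin ℚ (S : Set (End ℚ H))) {x : End ℂ (ℂ ⊗[ℚ] H)}
    (hx : x ∈ bcS ℂ 𝔤) : x ∈ Algebra.adjoin ℂ (bcS ℂ S : Set (End ℂ (ℂ ⊗[ℚ] H))) := by
  induction hx using Submodule.span_induction with
  | mem x hx =>
    obtain ⟨X, hX, rfl⟩ := hx
    exact adjoin_bc (h X hX)
  | zero => exact Subalgebra.zero_mem _
  | add x y _ _ hx hy => exact Subalgebra.add_mem _ hx hy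
  | smul c x _ hx => exact Subalgebra.smul_mem _ hx c

theorem lie_sup_one {S : Submodule ℚ (End ℚ H)} (hS : IsLie S) :
    IsLie (S ⊔ Submodule.span ℚ {1}) := by
  intro X hX Y hY
  obtain ⟨x, hx, a, ha, rfl⟩ := Submodule.mem_sup.1 hX
  obtain ⟨y, hy, b, hb, rfl⟩ := Submodule.mem_sup.1 hY
  obtain ⟨a, rfl⟩ := Submodule.mem_span_singleton.1 ha
  obtain ⟨b, rfl⟩ := Submodule.mem_span_singleton.1 hb
  have h1 : (x + a • (1 : End ℚ H)) * (y + b • 1) - (y + b • 1) * (x + a • 1) = x * y - y * x := by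
    simp only [add_mul, mul_add, mul_smul_comm, smul_mul_assoc, mul_one, one_mul]
    module
  rw [h1]
  exact Submodule.mem_sup_left (hS x hx y hy)

theorem le_of_bcS {S T : Submodule ℚ (End ℚ H)} (h : bcS ℂ S ≤ bcS ℂ T) : S ≤ T := by
  intro X hX
  obtain ⟨π, hπ⟩ := exists_pi ℚ ℂ
  have h1 := (Y809.RM.BC.mem_bcS _ _).1 (h (Submodule.subset_span ⟨X, hX, rfl⟩)) π
  rwa [Y809.RM.BC.pM_bc, hπ, one_smul] at h1

/-- **The Lie algebra of the Mumford-Tate group is everything.** -/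
theorem Pol.main (h : Pol w D ψ) {𝔤 : Submodule ℚ (End ℚ H)} (hlie : IsLie 𝔤)
    (hcmp : ∀ π, cmp π D ∈ 𝔤) (hE : HEnd D 𝔤) {𝔰 : Submodule ℂ (End ℂ (ℂ ⊗[ℚ] H))} (hs : Rig 𝔰)
    (hg : bcS ℂ 𝔤 = 𝔰 ⊔ if w = 0 then ⊥ else Submodule.span ℂ {1}) :
    𝔤 ≤ hLie D ⊔ if w = 0 then ⊥ else Submodule.span ℚ {1} := by
  have hle : hLie D ≤ 𝔤 := fun X hX => hLie_le hlie hcmp hX
  have hbc : ∀ {S : Submodule ℚ (End ℚ H)}, IsLie S → IsLie (bcS ℂ S) := fun {S} hS =>
    (Y809.RM.BC.bc ℚ ℂ H S).2.1 hS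
  have hmono : ∀ {S T : Submodule ℚ (End ℚ H)}, S ≤ T → bcS ℂ S ≤ bcS ℂ T := fun {S T} hST =>
    Submodule.span_mono (Set.image_mono hST)
  by_cases hw : w = 0
  · rw [if_pos hw, sup_bot_eq] at hg ⊢
    refine le_of_bcS ?_
    rw [hg]
    refine hs.all _ ?_ (hbc hLie_br) fun x hx => ?_
    · rw [← hg]
      exact hmono hle
    · rw [← hg] at hx
      exact bcS_adjoin (fun X hX => h.adjoin hE hX) hx
  · rw [if_neg hw] at hg ⊢
    have h1 : (1 : End ℂ (ℂ ⊗[ℚ] H)) ∈ bcS ℂ (Submodule.span ℚ {(1 : End ℚ H)}) := by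
      refine Submodule.subset_span ⟨1, Submodule.mem_span_singleton_self _, ?_⟩
      exact LinearMap.baseChange_id
    have h1' : (1 : End ℚ H) ∈ 𝔤 := by
      have h2 : Submodule.span ℚ {(1 : End ℚ H)} ≤ 𝔤 := by
        refine le_of_bcS ?_
        refine Submodule.span_le.2 ?_
        rintro _ ⟨X, hX, rfl⟩
        obtain ⟨c, rfl⟩ := Submodule.mem_span_singleton.1 hX
        have h3 : (c • (1 : End ℚ H)).baseChange ℂ = (c : ℂ) • (1 : End ℂ (ℂ ⊗[ℚ] H)) := by
          rw [LinearMap.baseChange_smul]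
          have h4 : (1 : End ℚ H).baseChange ℂ = 1 := LinearMap.baseChange_id
          rw [h4]
          exact (Rat.cast_smul_eq_qsmul ℂ c _).symm
        rw [h3, hg]
        exact Submodule.smul_mem _ _ (Submodule.mem_sup_right (Submodule.mem_span_singleton_self _))
      exact h2 (Submodule.mem_span_singleton_self _)
    refine le_of_bcS ?_
    refine hs.weight (hbc (lie_sup_one hLie_br)) (hmono ?_) hg (hmono le_sup_right h1) fun x hx => ?_
    · refine sup_le hle (Submodule.span_le.2 ?_)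
      rintro _ rfl
      exact h1'
    · refine Algebra.adjoin_mono (hmono le_sup_left) ?_
      exact bcS_adjoin (fun X hX => h.adjoin hE hX) hx

theorem Pol.tensor (h : Pol w D ψ) {𝔤 : Submodule ℚ (End ℚ H)} (hlie : IsLie 𝔤)
    (hcmp : ∀ π, cmp π D ∈ 𝔤) (hE : HEnd D 𝔤) {𝔰 : Submodule ℂ (End ℂ (ℂ ⊗[ℚ] H))} (hs : Rig 𝔰)
    (hg : bcS ℂ 𝔤 = 𝔰 ⊔ if w = 0 then ⊥ else Submodule.span ℂ {1}) {m : ℕ} {φ : Tensor ℚ H m}
    (hφ : HTensor w D φ) : ∀ X ∈ 𝔤, KillsTensor X φ := by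
  intro X hX
  have h1 : hLie D ⊔ (if w = 0 then ⊥ else Submodule.span ℚ {1}) ≤ kil φ := by
    refine sup_le (fun Y hY => hφ.kills hY) ?_
    split_ifs with hw
    · exact bot_le
    · refine Submodule.span_le.2 ?_
      rintro _ rfl
      exact hφ.2 hw
  exact h1 (h.main hlie hcmp hE hs hg hX)

/-- The converse: the endomorphisms are tensors. -/
theorem hend_of {𝔤 : Submodule ℚ (End ℚ H)}
    (h : ∀ (m : ℕ) (φ : Tensor ℚ H m), HTensor w D φ → ∀ X ∈ 𝔤, KillsTensor X φ) : HEnd D 𝔤 := by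
  intro P hP X hX
  let ω : (H × Dual ℚ H) →ₗ[ℚ] (H × Dual ℚ H) →ₗ[ℚ] ℚ :=
    LinearMap.mk₂ ℚ (fun a b => b.2 (P a.1))
      (fun a a' b => by rw [Prod.fst_add, map_add, map_add])
      (fun c a b => by rw [Prod.smul_fst, map_smul, map_smul])
      (fun a b b' => by rw [Prod.snd_add, LinearMap.add_apply])
      (fun c a b => by rw [Prod.smul_snd, LinearMap.smul_apply])
  let φ : Tensor ℚ H 2 := Pool.Agent.H204R3.SP.bil2 ω
  have hφ : ∀ v, φ v = (v 1).2 (P (v 0).1) := fun v => rfl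
  have key : ∀ Y : End ℚ H, (∀ v, ∑ l, φ (Function.update v l (lie Y (v l))) =
      (v 1).2 (P (Y (v 0).1)) - (v 1).2 (Y (P (v 0).1))) := by
    intro Y v
    rw [Fin.sum_univ_two, hφ, hφ, Function.update_self, Function.update_self,
      Function.update_of_ne Fin.zero_ne_one.symm, Function.update_of_ne Fin.zero_ne_one]
    change (v 1).2 (P (Y (v 0).1)) + -((v 1).2 (Y (P (v 0).1))) = _
    rw [sub_eq_add_neg]
  have hT : HTensor w D φ := by
    refine ⟨fun π v => ?_, fun _ v => ?_⟩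
    · rw [key, sub_eq_zero]
      have h1 := LinearMap.congr_fun (comm_cmp hP π) (v 0).1
      exact congrArg (v 1).2 h1
    · rw [key, sub_eq_zero]
      rfl
  have h1 := h 2 φ hT X hX
  refine LinearMap.ext fun x => ?_
  rw [← sub_eq_zero, ← Module.forall_dual_apply_eq_zero_iff ℚ]
  intro ξ
  have h2 := h1 ![(x, 0), (0, ξ)]
  rw [key] at h2
  change ξ (P (X x)) - ξ (X (P x)) = 0 at h2
  rw [map_sub, Module.End.mul_apply, Module.End.mul_apply, sub_eq_zero]
  linear_combination -h2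

end hodge

end Pool.Agent.NH25.PK

end
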