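import Pool.Agent.NH25.PK.Det
import Pool.Agent.Results.MP_5d33ca_ag.OneMotivesMumfordTate

set_option autoImplicit false

/-!
# Period torsors of products of elliptic curves and Kuga-Satake varieties

Let `A` be an abelian variety over the field `ℚ̄` of algebraic numbers. By the theorem of André the
group `G_mod` for `H^1(A)` is the Mumford-Tate group `MT(A)`. The conjecture of Grothendieck
`trdeg ℚ̄(β) = dim MT(A)` implies that the comparison isomorphism `β` is the generic point of its
torsor under `MT(A)`; in particular, if an algebraic group `G` over `ℚ` has a torsor over `ℚ̄` which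
contains `β`, then `G` contains `MT(A)` (in the terminology of André: `Ω^And = Ω^dRB`). We prove this
consequence for products of abelian varieties of two kinds, in particular for

* arbitrary products of elliptic curves and of Kuga-Satake varieties `KS(X_i)`, where the `X_i` are K3
  surfaces over `ℚ̄` (or hyperkähler varieties, cubic fourfolds, ...) whose transcendental parts
  `T_i` have no endomorphisms (`End(T_i) = ℚ`) and rank at least six; the rank five is the only rank which
  has to be excluded, since the Kuga-Satake varieties for the ranks two, three and four are isogenous to products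
  of elliptic curves and of abelian surfaces with real or quaternion multiplication, which can be
  included in the first factor;

and for all 1-motives over the factors of these products. The motives `h^2(X_i)` are in the category
generated by the Kuga-Satake varieties, so the same is true for the motives `h^*` of all products of
these K3 surfaces and elliptic curves. This is the de Rham-Betti analogue of the theorem of Commelin on
the Mumford-Tate conjecture for products of K3 surfaces.

**Theorem.** Let `B` be an abelian variety over `ℚ̄` which is determined by its endomorphisms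
(`Determined`, see OneMotivesMumfordTate: the Lie algebra of the Hodge group has no proper algebraic
subalgebra which acts semisimply with the same commutant) and whose homology `H_1(B, ℂ)` is a sum of
subspaces of dimension at most three, stable under this Lie algebra (`HasSmallBlocks`). Let `C` be
an abelian variety whose homology `H_1(C, ℂ)` is a direct sum of spaces `U_i` such that the Lie
algebra of the Hodge group is the sum of orthogonal Lie algebras `so(r_i)`, `r_i ≥ 6`, the summand
`so(r_i)` acting on `U_i` by a sum of spin representations (`TypeSpinSum`). Let `A` be isogenous to `B × C`.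
Then `A` is determined by its endomorphisms. If `M` is any 1-motive over a factor `A'` of `A` (for
example `M = h_1(A)`) and `G` is an algebraic group over `ℚ` with a torsor over `ℚ̄` which
contains the comparison isomorphism of `M`, then `G` contains the Mumford-Tate group of `M`.

The group `G` is not assumed to be connected or reductive. Examples for `B`: the abelian varieties whose
homology is a sum of planes (`small_of_planes`, proved below): products of elliptic curves, with or without complex
multiplication, of abelian varieties with real multiplication by a field of maximal degree and of abelian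
surfaces with quaternion multiplication. Examples for `C`: products of Kuga-Satake varieties
of Hodge structures of K3 type `T_1, …, T_m`, of ranks `r_i ≥ 6`, with `End(T_i) = ℚ`, and their powers. They may have equal
ranks, and there may be isomorphisms between the Lie algebras `so(T_i) ⊗ ℂ`, also the triality
isomorphisms for the rank eight.

The theorem OneMotivesMumfordTate (MP_5d33ca_ag) contains the case of one Kuga-Satake variety and the case of
products of elliptic curves. The starting file `Pool/Agent/R918/SpG.lean` has a theorem on the torsors for `C` under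
the condition that at most one of the ranks is eight.

## Proof

Let `𝔥` be an algebraic subalgebra of the Lie algebra `𝔤` of the Hodge group of `A`, which acts
semisimply with the same commutant. Its images in the Lie algebras of the factors have the same
properties (`im_full`). So the image in `so(r_i)` is everything. If the image of `𝔥` in
`so(r_i) ⊕ so(r_j)` is the graph of an isomorphism `φ`, then `r_i = r_j = r`. We show that there is a
nonzero map `T : U_i → U_j` with `T x = φ(x) T`, so that the commutant of `𝔥` is larger than that of
`𝔤`, a contradiction (`exists_inter'`). Let `E_a` be the generators of the Clifford algebra and `f` the skew matrix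
of `φ(E_a E_b)`. Since `ad(f)^3 = - ad(f)` on the skew matrices, the contraction of this identity
with powers of `f` shows: either `f` has rank two, as for inner automorphisms, or `r = 8` and
`4 f^2 = -1` (`dich`). In the second case (triality) there is an orthonormal basis of the form `v_k, 2 f v_k`,
and `φ(E_a E_b) = (p_1 + p_2 + p_3 + p_4) / 2` with commuting complex structures `p_k` with the product
`p_1 p_2 p_3 p_4 = ± ω`, the chirality. So `φ(E_a E_b) ^ 2 = -1` on one of the half-spin spaces `W`
(`chir`), and since `W` is stable under `so(8)`, the same is true for all `a, b` (`prop`). The operators `φ(E_a E_b)` on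
`W` satisfy the relations of the Clifford algebra, and so there is a nonzero map from `U_i` to `W`. (In
other words: of the two half-spin representations and their images under triality two are always equal.)

By the lemma of Goursat, Kolchin and Ribet the image of `𝔥` in the Lie algebra `𝔠` of the Hodge group
of `C` is `𝔠 = ⊕ so(r_i)`. The elements of `𝔥` which act by zero on some of the small blocks of `B`
form an ideal; its image in `so(r_i)` is zero or everything, and by counting dimensions
(`3 ^ 2 < 15`) it stays everything if one more block is added. So `0 ⊕ 𝔠` is contained in `𝔥`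
(`big`, `mem_spin`). Then the image of `𝔥` in the Lie algebra of the Hodge group of `B` is an
algebraic Lie algebra again (`im_RC`), and it is everything since `B` is determined.
-/

open Module Matrix Pool.Agent.Y102 Pool.Agent.R917.OM Pool.Agent.R917.DT
  Pool.Agent.Results.MP_5d33ca_ag.OneMotivesMumfordTate

noncomputable section

namespace Pool.Agent.Results.MP_caab05_ag.KugaSatakeProducts

/-! ### The hypotheses -/

/-- The homology `H_1(B, ℂ)` is a sum of subspaces of dimension at most three which are stable under
the Lie algebra of the Hodge group of `B`. -/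
def HasSmallBlocks {g : ℕ} (B : AbVar g) : Prop :=
  ∃ (n : ℕ) (V : Fin n → Submodule ℂ (Fin (2 * g) → ℂ)),
    (∀ k, finrank ℂ (V k) ≤ 3) ∧ ⨆ k, V k = ⊤ ∧
      ∀ X : Mat g, InLie B X → ∀ k, ∀ v ∈ V k, cplx X *ᵥ v ∈ V k

/-- The homology `H_1(C, ℂ)` is a direct sum of spaces `U_i = ℂ^(d i)`, with projections `P i` and
inclusions `Q i`, and the complex Lie algebra of the Hodge group of `C` is the sum of orthogonal Lie
algebras `so(r i)`, with `r i ≥ 6`, the summand `so(r i)` acting on `U_i` by a sum of spin
representations: the `E i a` are the generators of a Clifford algebra acting on `U_i`, and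
`so(r i)` is spanned by the products of two different generators. -/
def TypeSpinSum {g : ℕ} (C : AbVar g) : Prop :=
  ∃ (m : ℕ) (d r : Fin m → ℕ) (P : ∀ i, Matrix (Fin (d i)) (Fin (2 * g)) ℂ)
    (Q : ∀ i, Matrix (Fin (2 * g)) (Fin (d i)) ℂ)
    (E : ∀ i, Fin (r i) → Matrix (Fin (d i)) (Fin (d i)) ℂ),
    (∀ i, 0 < d i ∧ 6 ≤ r i) ∧
    (∀ i, P i * Q i = 1) ∧ (∀ i j, i ≠ j → P i * Q j = 0) ∧ ∑ i, Q i * P i = 1 ∧
    (∀ i a, E i a * E i a = 1) ∧ (∀ i a b, a ≠ b → E i a * E i b = -(E i b * E i a)) ∧
    lieC C = Submodule.span ℂ {Y | ∃ i a b, a ≠ b ∧ Y = Q i * (E i a * E i b) * P i}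

/-- `A` is isogenous to the product of `B` and `C`, by the inclusions `f`, `f'` and the projections
`p`, `p'`. -/
def IsProduct {g g₁ g₂ : ℕ} (A : AbVar g) (B : AbVar g₁) (C : AbVar g₂) : Prop :=
  ∃ (f : B.H1 →ₗ[ℚ] A.H1) (p : A.H1 →ₗ[ℚ] B.H1) (f' : C.H1 →ₗ[ℚ] A.H1) (p' : A.H1 →ₗ[ℚ] C.H1),
    IsHomomorphism B A f ∧ IsHomomorphism A B p ∧ IsHomomorphism C A f' ∧
    IsHomomorphism A C p' ∧ (∀ w, p (f w) = w) ∧ (∀ w, p' (f' w) = w) ∧
    ∀ w, f (p w) + f' (p' w) = w

/-! ### Proofs -/

section prf

open Pool.Agent.NH25.PK Pool.Agent.R918 Pool.Agent.R918.Sp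

theorem small_of {g : ℕ} {B : AbVar g} (h : HasSmallBlocks B) : Small B := by
  obtain ⟨n, V, h1, h2, h3⟩ := h
  refine ⟨n, fun k => (V k).map (eqv (2 * g)).toLinearMap, fun k => ?_, ?_, ?_⟩
  · exact (Submodule.finrank_map_le _ _).trans (h1 k)
  · rw [← Submodule.map_iSup, h2, Submodule.map_top, LinearEquiv.range]
  · rintro X hX k _ ⟨v, hv, rfl⟩
    refine ⟨cplx (mat B X) *ᵥ v, h3 _ ((inLie_mat B).2 hX) k v hv, ?_⟩
    change eqv (2 * g) (cplx (mat B X) *ᵥ v) = _
    rw [← matE_eqv, cplx_mat, matE_toC]
    rfl

/-- Products are determined. -/
theorem determined_of_product {g g₁ g₂ : ℕ} (A : AbVar g) (B : AbVar g₁) (C : AbVar g₂)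
    (hB : Determined B) (hS : HasSmallBlocks B) (hC : TypeSpinSum C) (hA : IsProduct A B C) :
    Determined A := by
  obtain ⟨m, d, r, P, Q, E, h1, h2, h3, h4, h5, h6, h7⟩ := hC
  obtain ⟨f, p, f', p', a1, a2, a3, a4, a5, a6, a7⟩ := hA
  have hblk : Blk P Q E := ⟨fun i => (h1 i).1, h2, h3, h4, h5, h6⟩
  rw [lieC_eq] at h7
  have hl : cx C.NA = soB (Pm P) (Qm Q) (Em E) := by
    rw [← map_lie, h7, soB_eq]
  have hdet : Det A := det_prd (f := f) (p := p) (f' := f') (p' := p')
    ⟨⟨⟨a1.1, a1.2⟩, ⟨a2.1, a2.2⟩, a5⟩, ⟨⟨a3.1, a3.2⟩, ⟨a4.1, a4.2⟩, a6⟩, a7⟩
    (det_of_determined B hB) (small_of hS) hblk (fun i => (h1 i).2) hl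
  exact determined_of_det A hdet

open Planes in
/-- The homology of the products of elliptic curves and of abelian varieties with real or quaternion
multiplication is a sum of planes, and these planes are stable. -/
theorem small_of_planes {g : ℕ} {B : AbVar g} (h : Planes.IsSumOfPlanes B) : HasSmallBlocks B := by
  obtain ⟨P, hP⟩ := h
  refine ⟨g, fun i => LinearMap.range (P i).mulVecLin, fun i => ?_, ?_, ?_⟩
  · have h1 : IsIdempotentElem (P i).mulVecLin := by
      change (P i).mulVecLin * (P i).mulVecLin = (P i).mulVecLin
      rw [Module.End.mul_eq_comp, ← Matrix.mulVecLin_mul, hP.projector]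
    have h2 := (LinearMap.IsIdempotentElem.isProj_range _ h1).trace
    have h3 : LinearMap.trace ℂ _ (P i).mulVecLin = (P i).trace := by
      have h4 := Matrix.trace_toLin'_eq (P i)
      exact h4
    rw [h3, hP.plane] at h2
    have h5 : finrank ℂ (LinearMap.range (P i).mulVecLin) = 2 := by
      have h6 : ((finrank ℂ (LinearMap.range (P i).mulVecLin) : ℕ) : ℂ) = ((2 : ℕ) : ℂ) := by
        rw [← h2]; norm_num
      exact_mod_cast h6
    rw [h5]; norm_num
  · rw [eq_top_iff]
    intro v _
    have h1 : v = ∑ i, (P i) *ᵥ v := by
      rw [← Matrix.sum_mulVec, hP.sum, Matrix.one_mulVec]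
    rw [h1]
    exact Submodule.sum_mem _ fun i _ => Submodule.mem_iSup_of_mem i ⟨v, rfl⟩
  · rintro X hX i _ ⟨v, rfl⟩
    obtain ⟨X, rfl⟩ := mat_surj B X
    have hXN := (inLie_mat B).1 hX
    have h1 : ∀ M ∈ Submodule.span ℂ {M | ∃ T, IsAlgebraicEnd B T ∧ M = Planes.mat T},
        toC X * M = M * toC X := by
      intro M hM
      induction hM using Submodule.span_induction with
      | mem M hM =>
        obtain ⟨T, hT, rfl⟩ := hM
        rw [Planes.mat_eq, ← Pool.Agent.R917.toC_mul, ← Pool.Agent.R917.toC_mul, B.NA_comm hXN (B.mem_EA.2 hT)]
      | zero => rw [Matrix.mul_zero, Matrix.zero_mul]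
      | add M M' _ _ h h' => rw [Matrix.mul_add, Matrix.add_mul, h, h']
      | smul z M _ h => rw [Matrix.mul_smul, Matrix.smul_mul, h]
    refine ⟨cplx (mat B X) *ᵥ v, ?_⟩
    change P i *ᵥ (cplx (mat B X) *ᵥ v) = cplx (mat B X) *ᵥ (P i *ᵥ v)
    rw [Matrix.mulVec_mulVec, Matrix.mulVec_mulVec, cplx_mat, h1 _ (hP.algebraic i)]

end prf

/-- **Theorem.** Let `B` be an abelian variety over `ℚ̄` which is determined by its endomorphisms and
has small blocks (for example a product of elliptic curves), and let `C` be of the type of a product of
Kuga-Satake varieties. Then every abelian variety `A` isogenous to `B × C` is determined by its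
endomorphisms, and every algebraic group over `ℚ` with a torsor over `ℚ̄` which contains the
comparison isomorphism of a 1-motive over a factor of `A` contains the Mumford-Tate group of the
1-motive. -/
theorem result {g g₁ g₂ : ℕ} (A : AbVar g) (B : AbVar g₁) (C : AbVar g₂)
    (hB : Determined B) (hS : HasSmallBlocks B) (hC : TypeSpinSum C) (hA : IsProduct A B C) :
    Determined A ∧
    ∀ (g' n s : ℕ) (A' : AbVarG g'), IsFactor A'.toAbVar A → ∀ (u : Fin n → Fin g' → ℂ)
      (v : Fin s → Fin g' → ℂ) (ℓ : Fin n → Fin s → ℂ), IsOneMotive A' u v ℓ →
      ∀ G : Subgroup (GL (Betti g' n s) ℂ), IsAlgebraicSubgroup G → ContainsPeriods A' u v ℓ G →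
        mumfordTate A' u v ℓ ≤ G := by
  have h := determined_of_product A B C hB hS hC hA
  exact ⟨h, fun g' n s A' hA' u v ℓ hM G hG hP =>
    Pool.Agent.Results.MP_5d33ca_ag.OneMotivesMumfordTate.result g A h g' n s A' hA' u v ℓ hM G
      hG hP⟩

end Pool.Agent.Results.MP_caab05_ag.KugaSatakeProducts
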