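import Pool.Agent.NH25.PK.Sum2
import Pool.Agent.R918.Ell3

set_option autoImplicit false
set_option linter.unusedSectionVars false
set_option linter.unusedVariables false

/-!
# Rigidity of sums of spin representations, in terms of projectors
-/

open Module TensorProduct

noncomputable section

namespace Pool.Agent.NH25.PK

open Pool.Agent.Y102.SP Pool.Agent.R918.Sp Pool.Agent.R918.Ell

section rig

variable {m : ℕ} {H : Type} [AddCommGroup H] [Module ℂ H] {U : Fin m → Type}
  [∀ i, AddCommGroup (U i)] [∀ i, Module ℂ (U i)] {P : ∀ i, H →ₗ[ℂ] U i} {Q : ∀ i, U i →ₗ[ℂ] H}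
  {r : Fin m → ℕ} {E : ∀ i, Fin (r i) → Module.End ℂ (U i)}

/-- sums of spin representations -/
theorem rig_sum2 [∀ i, FiniteDimensional ℂ (U i)] [∀ i, Nontrivial (U i)]
    (D : Dec P Q) (hE : ∀ i, CE (E i)) (hr : ∀ i, r i = 3 ∨ 6 ≤ r i) : Rig (soB P Q E) where
  br := soB_br D hE
  all 𝔥 hle hbr hadj := by
    have h : SpHyp P Q E 𝔥 :=
      { dec := D
        ce := hE
        le := hle
        br := hbr
        gen := fun i a b hab => hadj _ (Submodule.subset_span ⟨i, a, b, hab, rfl⟩) }
    exact all2 h hr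

end rig

section proj

variable {H : Type} [AddCommGroup H] [Module ℂ H] {m : ℕ} {r : Fin m → ℕ}
  {e : Fin m → Module.End ℂ H} {F : ∀ i, Fin (r i) → Module.End ℂ H}

/-- Spin representations on the images of orthogonal projectors. -/
structure Prj (e : Fin m → Module.End ℂ H) (F : ∀ i, Fin (r i) → Module.End ℂ H) : Prop where
  ne : ∀ i, e i ≠ 0
  orth : ∀ i j, i ≠ j → e i * e j = 0
  sum : ∑ i, e i = 1
  sq : ∀ i a, F i a * F i a = e i
  fe : ∀ i a, F i a * e i = F i a
  anti : ∀ i a b, a ≠ b → F i a * F i b = -(F i b * F i a)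

namespace Prj

variable (h : Prj e F)
include h

theorem idem (i : Fin m) : e i * e i = e i := by
  have h1 : e i * ∑ j, e j = e i := by rw [h.sum, mul_one]
  rw [Finset.mul_sum, Finset.sum_eq_single i (fun j _ hj => h.orth i j (Ne.symm hj))
    (fun h => absurd (Finset.mem_univ _) h)] at h1
  exact h1

theorem ef (i : Fin m) (a : Fin (r i)) : e i * F i a = F i a := by
  rw [← h.sq i a, mul_assoc, h.sq, h.fe]

theorem e_of_mem {i : Fin m} {u : H} (hu : u ∈ LinearMap.range (e i)) : e i u = u := by
  obtain ⟨v, rfl⟩ := hu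
  rw [← Module.End.mul_apply, h.idem]

theorem f_mem (i : Fin m) (a : Fin (r i)) (u : H) : F i a u ∈ LinearMap.range (e i) :=
  ⟨F i a u, by rw [← Module.End.mul_apply, h.ef]⟩

theorem rig [FiniteDimensional ℂ H] (hr : ∀ i, r i = 3 ∨ 6 ≤ r i) :
    Rig (Submodule.span ℂ {Y | ∃ i a b, a ≠ b ∧ Y = F i a * F i b}) := by
  let U : Fin m → Type := fun i => LinearMap.range (e i)
  let P : ∀ i, H →ₗ[ℂ] U i := fun i => (e i).rangeRestrict
  let Q : ∀ i, U i →ₗ[ℂ] H := fun i => (LinearMap.range (e i)).subtype
  let E : ∀ i, Fin (r i) → Module.End ℂ (U i) := fun i a =>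
    (F i a).restrict (p := LinearMap.range (e i)) (q := LinearMap.range (e i))
      (fun u _ => h.f_mem i a u)
  have hP : ∀ i (v : H), ((P i v : LinearMap.range (e i)) : H) = e i v := fun i v => rfl
  have hQ : ∀ i (u : LinearMap.range (e i)), Q i u = (u : H) := fun i u => rfl
  have hEa : ∀ i a (u : LinearMap.range (e i)), ((E i a u : LinearMap.range (e i)) : H) =
    F i a (u : H) := fun i a u => rfl
  have D : Dec P Q :=
    { same := fun i u => Subtype.ext (h.e_of_mem u.2)
      diff := fun i j hij u => Subtype.ext (by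
        change e i (u : H) = 0
        rw [← h.e_of_mem u.2, ← Module.End.mul_apply, h.orth i j hij, LinearMap.zero_apply])
      sum := fun x => by
        change ∑ i, e i x = x
        rw [← LinearMap.sum_apply, h.sum, Module.End.one_apply] }
  have hE : ∀ i, CE (E i) := fun i =>
    { sq := fun a => LinearMap.ext fun u => Subtype.ext (by
        change F i a (F i a (u : H)) = u
        rw [← Module.End.mul_apply, h.sq, h.e_of_mem u.2])
      anti := fun a b hab => LinearMap.ext fun u => Subtype.ext (by
        change F i a (F i b (u : H)) = -(F i b (F i a (u : H)))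
        rw [← Module.End.mul_apply, h.anti i a b hab, LinearMap.neg_apply, Module.End.mul_apply]) }
  have hib : ∀ i (a b : Fin (r i)), ib P Q i (E i a * E i b) = F i a * F i b := by
    intro i a b
    refine LinearMap.ext fun v => ?_
    change F i a (F i b (e i v)) = F i a (F i b v)
    rw [← Module.End.mul_apply (F i b) (e i), h.fe]
  have hnt : ∀ i, Nontrivial (U i) := fun i => by
    refine Submodule.nontrivial_iff_ne_bot.2 fun h0 => h.ne i ?_
    exact LinearMap.range_eq_bot.1 h0
  have hfd : ∀ i, FiniteDimensional ℂ (U i) := fun i =>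
    inferInstanceAs (FiniteDimensional ℂ (LinearMap.range (e i)))
  have key : Submodule.span ℂ {Y | ∃ i a b, a ≠ b ∧ Y = F i a * F i b} = soB P Q E := by
    unfold soB
    congr 1
    ext Y
    constructor
    · rintro ⟨i, a, b, hab, rfl⟩
      exact ⟨i, a, b, hab, (hib i a b).symm⟩
    · rintro ⟨i, a, b, hab, rfl⟩
      exact ⟨i, a, b, hab, hib i a b⟩
  rw [key]
  exact rig_sum2 D hE hr

end Prj

end proj

end Pool.Agent.NH25.PK

end
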