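import Pool.Agent.NH25.PK.Tri2

set_option autoImplicit false
set_option linter.unusedSectionVars false
set_option linter.unusedVariables false

/-!
# Triality: the chirality operator of a complex structure
-/

open Module Matrix

noncomputable section

namespace Pool.Agent.NH25.PK

open Pool.Agent.Y102.SP Pool.Agent.R918.Sp

section ring

variable {R : Type} [Ring R]

theorem com2 {a b x : R} (h1 : b * x = -(x * b)) (h2 : a * x = -(x * a)) :
    b * a * x = x * (b * a) := by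
  rw [mul_assoc, h2, mul_neg, ← mul_assoc, h1, neg_mul, neg_neg, mul_assoc]

theorem sgn4 {p0 p1 p2 p3 x : R} (h0 : p0 * x = -(x * p0)) (h1 : p1 * x = x * p1)
    (h2 : p2 * x = x * p2) (h3 : p3 * x = x * p3) :
    p0 * p1 * p2 * p3 * x = -(x * (p0 * p1 * p2 * p3)) := by
  calc p0 * p1 * p2 * p3 * x = p0 * p1 * p2 * (p3 * x) := by rw [mul_assoc]
    _ = p0 * p1 * (p2 * x) * p3 := by rw [h3]; simp only [mul_assoc]
    _ = p0 * (p1 * x) * p2 * p3 := by rw [h2]; simp only [mul_assoc]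
    _ = (p0 * x) * p1 * p2 * p3 := by rw [h1]; simp only [mul_assoc]
    _ = _ := by rw [h0]; simp only [neg_mul, mul_assoc]

end ring

variable {U : Type} [AddCommGroup U] [Module ℂ U] {E : Fin 8 → Module.End ℂ U}

/-- **The chirality operator.** -/
theorem chir (hE : CE E) {f : Matrix (Fin 8) (Fin 8) ℂ} (hf : fᵀ = -f)
    (hff : (4 : ℂ) • (f * f) = -1) :
    ∃ ω : Module.End ℂ U, ω * ω = 1 ∧ (∀ i, ω * E i = -(E i * ω)) ∧
      ∀ u, ω u = -u → rc E f (rc E f u) = -u := by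
  obtain ⟨G, hGd⟩ : ∃ G : Matrix (Fin 8) (Fin 8) ℂ, G = (2 : ℂ) • f := ⟨_, rfl⟩
  have hG : Gᵀ = -G := by rw [hGd, Matrix.transpose_smul, hf, smul_neg]
  have hGG : G * G = -1 := by
    rw [hGd, Matrix.smul_mul, Matrix.mul_smul, smul_smul, ← hff]
    norm_num
  obtain ⟨v, hv1, hv2⟩ := exists_fr hG hGG 4 le_rfl
  have hv3 : ∀ i j, (G *ᵥ v i) ⬝ᵥ v j = 0 := fun i j => by rw [dotProduct_comm, hv2]
  have hv4 : ∀ i j, (G *ᵥ v i) ⬝ᵥ (G *ᵥ v j) = if i = j then 1 else 0 := fun i j => by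
    rw [dot_GG hG hGG, hv1]
  -- the orthogonal matrix
  let O : Matrix (Fin 4 ⊕ Fin 4) (Fin 8) ℂ := Matrix.of (Sum.elim v fun k => G *ᵥ v k)
  have hO : O * Oᵀ = 1 := by
    ext r t
    have h1 : (O * Oᵀ) r t = O r ⬝ᵥ O t := rfl
    rw [h1]
    rcases r with r | r <;> rcases t with t | t
    · change v r ⬝ᵥ v t = _
      rw [hv1, Matrix.one_apply]
      by_cases h : r = t
      · rw [if_pos h, if_pos (by rw [h])]
      · rw [if_neg h, if_neg (fun h' => h (Sum.inl_injective h'))]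
    · change v r ⬝ᵥ (G *ᵥ v t) = _
      rw [hv2, Matrix.one_apply_ne (by simp)]
    · change (G *ᵥ v r) ⬝ᵥ v t = _
      rw [hv3, Matrix.one_apply_ne (by simp)]
    · change (G *ᵥ v r) ⬝ᵥ (G *ᵥ v t) = _
      rw [hv4, Matrix.one_apply]
      by_cases h : r = t
      · rw [if_pos h, if_pos (by rw [h])]
      · rw [if_neg h, if_neg (fun h' => h (Sum.inr_injective h'))]
  have hO' : Oᵀ * O = 1 := (Matrix.mul_eq_one_comm_of_card_eq (Fin 4 ⊕ Fin 4) (Fin 8) ℂ (by simp)).1 hO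
  -- the operators
  obtain ⟨a, ha⟩ : ∃ a : Fin 4 → Module.End ℂ U, ∀ k, a k = cv E (v k) := ⟨_, fun _ => rfl⟩
  obtain ⟨b, hb⟩ : ∃ b : Fin 4 → Module.End ℂ U, ∀ k, b k = cv E (G *ᵥ v k) :=
    ⟨_, fun _ => rfl⟩
  have aa : ∀ k, a k * a k = 1 := fun k => by rw [ha]; exact cv_sq hE (by rw [hv1, if_pos rfl])
  have bb : ∀ k, b k * b k = 1 := fun k => by rw [hb]; exact cv_sq hE (by rw [hv4, if_pos rfl])
  have ab : ∀ k l, a k * b l = -(b l * a k) := fun k l => by
    rw [ha, hb]; exact cv_perp hE (hv2 k l)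
  have ba : ∀ k l, b k * a l = -(a l * b k) := fun k l => by
    rw [ha, hb]; exact cv_perp hE (hv3 k l)
  have aan : ∀ k l, k ≠ l → a k * a l = -(a l * a k) := fun k l h => by
    rw [ha, ha]; exact cv_perp hE (by rw [hv1, if_neg h])
  have bbn : ∀ k l, k ≠ l → b k * b l = -(b l * b k) := fun k l h => by
    rw [hb, hb]; exact cv_perp hE (by rw [hv4, if_neg h])
  obtain ⟨p, hp⟩ : ∃ p : Fin 4 → Module.End ℂ U, ∀ k, p k = b k * a k := ⟨_, fun _ => rfl⟩
  have pp : ∀ k, p k * p k = -1 := by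
    intro k
    rw [hp, mul_assoc, ← mul_assoc (a k), ab, neg_mul, mul_assoc, aa, mul_one, mul_neg, bb]
  have pa : ∀ k l, k ≠ l → p k * a l = a l * p k := fun k l h => by
    rw [hp]; exact com2 (ba k l) (aan k l h)
  have pb : ∀ k l, k ≠ l → p k * b l = b l * p k := fun k l h => by
    rw [hp]; exact com2 (bbn k l h) (ab k l)
  have pa' : ∀ k, p k * a k = -(a k * p k) := by
    intro k
    rw [hp, mul_assoc, aa, mul_one, ← mul_assoc, ab, neg_mul, mul_assoc, aa, mul_one, neg_neg]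
  have pb' : ∀ k, p k * b k = -(b k * p k) := by
    intro k
    rw [hp, mul_assoc, ab, mul_neg, ← mul_assoc, bb, one_mul]
  have pc : ∀ k l, k ≠ l → p k * p l = p l * p k := by
    intro k l h
    rw [hp l, ← mul_assoc, pb k l h, mul_assoc, pa k l h, ← mul_assoc]
  have h01 : (0 : Fin 4) ≠ 1 := by decide
  have h02 : (0 : Fin 4) ≠ 2 := by decide
  have h03 : (0 : Fin 4) ≠ 3 := by decide
  have h12 : (1 : Fin 4) ≠ 2 := by decide
  have h13 : (1 : Fin 4) ≠ 3 := by decide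
  have h23 : (2 : Fin 4) ≠ 3 := by decide
  obtain ⟨ω, hω⟩ : ∃ ω, ω = p 0 * p 1 * p 2 * p 3 := ⟨_, rfl⟩
  have hω1 : ω = p 1 * p 0 * p 2 * p 3 := by rw [hω, pc 0 1 h01]
  have hω2 : ω = p 2 * p 0 * p 1 * p 3 := by
    rw [hω, mul_assoc (p 0) (p 1) (p 2), pc 1 2 h12, ← mul_assoc, pc 0 2 h02]
  have hω3 : ω = p 3 * p 0 * p 1 * p 2 := by
    rw [hω, mul_assoc (p 0 * p 1) (p 2) (p 3), pc 2 3 h23, ← mul_assoc,
      mul_assoc (p 0) (p 1) (p 3), pc 1 3 h13, ← mul_assoc, pc 0 3 h03]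
  have anti : ∀ x : Fin 4 → Module.End ℂ U, (∀ k, p k * x k = -(x k * p k)) →
      (∀ k l, k ≠ l → p k * x l = x l * p k) → ∀ k, ω * x k = -(x k * ω) := by
    intro x hx1 hx2 k
    fin_cases k
    · change ω * x 0 = -(x 0 * ω)
      rw [hω]
      exact sgn4 (hx1 0) (hx2 1 0 h01.symm) (hx2 2 0 h02.symm) (hx2 3 0 h03.symm)
    · change ω * x 1 = -(x 1 * ω)
      rw [hω1]
      exact sgn4 (hx1 1) (hx2 0 1 h01) (hx2 2 1 h12.symm) (hx2 3 1 h13.symm)
    · change ω * x 2 = -(x 2 * ω)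
      rw [hω2]
      exact sgn4 (hx1 2) (hx2 0 2 h02) (hx2 1 2 h12) (hx2 3 2 h23.symm)
    · change ω * x 3 = -(x 3 * ω)
      rw [hω3]
      exact sgn4 (hx1 3) (hx2 0 3 h03) (hx2 1 3 h13) (hx2 2 3 h23)
  have hcv : ∀ r, ω * cv E (O r) = -(cv E (O r) * ω) := by
    rintro (k | k)
    · have h1 := anti a pa' pa k
      rwa [ha] at h1
    · have h1 := anti b pb' pb k
      rwa [hb] at h1
  have hEi : ∀ i, E i = ∑ r, O r i • cv E (O r) := by
    intro i
    have h1 : ∑ r, O r i • cv E (O r) = ∑ j, (Oᵀ * O) i j • E j := by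
      unfold cv
      simp only [Finset.smul_sum, smul_smul]
      rw [Finset.sum_comm]
      refine Finset.sum_congr rfl fun j _ => ?_
      rw [← Finset.sum_smul, Matrix.mul_apply]
      rfl
    rw [h1, hO', Finset.sum_eq_single i]
    · rw [Matrix.one_apply_eq, one_smul]
    · intro j _ hj
      rw [Matrix.one_apply_ne (Ne.symm hj), zero_smul]
    · intro h; exact absurd (Finset.mem_univ _) h
  -- the element
  have hGpq : ∀ s t, G s t = ∑ k, ((G *ᵥ v k) s * v k t - v k s * (G *ᵥ v k) t) := by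
    intro s t
    have h1 : G s t = (G * (Oᵀ * O)) s t := by rw [hO', Matrix.mul_one]
    rw [h1, ← Matrix.mul_assoc, Matrix.mul_apply, Fintype.sum_sum_type,
      ← Finset.sum_add_distrib]
    refine Finset.sum_congr rfl fun k _ => ?_
    have e1 : (G * Oᵀ) s (Sum.inl k) = (G *ᵥ v k) s := rfl
    have e2 : (G * Oᵀ) s (Sum.inr k) = (G *ᵥ (G *ᵥ v k)) s := rfl
    rw [e1, e2, Matrix.mulVec_mulVec, hGG, Matrix.neg_mulVec, Matrix.one_mulVec, Pi.neg_apply,
      neg_mul, ← sub_eq_add_neg]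
    rfl
  have hrc : rc E f = (2⁻¹ : ℂ) • ∑ k, p k := by
    have h1 : ∑ s, ∑ t, G s t • (E s * E t) = ∑ k, (2 : ℂ) • p k := by
      have h2 : ∀ k, (2 : ℂ) • p k = b k * a k - a k * b k := by
        intro k
        rw [ab, sub_neg_eq_add, two_smul, hp]
      have h3 : ∀ k, b k * a k - a k * b k =
          ∑ s, ∑ t, ((G *ᵥ v k) s * v k t - v k s * (G *ᵥ v k) t) • (E s * E t) := by
        intro k
        rw [ha, hb, cv_mul, cv_mul, ← Finset.sum_sub_distrib]
        refine Finset.sum_congr rfl fun s _ => ?_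
        rw [← Finset.sum_sub_distrib]
        refine Finset.sum_congr rfl fun t _ => ?_
        rw [sub_smul]
      simp only [h2, h3]
      symm
      rw [Finset.sum_comm]
      refine Finset.sum_congr rfl fun s _ => ?_
      rw [Finset.sum_comm]
      refine Finset.sum_congr rfl fun t _ => ?_
      rw [hGpq, Finset.sum_smul]
    have h4 : f = (2⁻¹ : ℂ) • G := by
      rw [hGd, smul_smul, inv_mul_cancel₀ two_ne_zero, one_smul]
    rw [h4, map_smul, rc_apply, h1, ← Finset.smul_sum, smul_smul (2⁻¹ : ℂ) (2 : ℂ),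
      inv_mul_cancel₀ two_ne_zero, one_smul]
  refine ⟨ω, ?_, fun i => ?_, fun u hu => ?_⟩
  · have e1 : ω * p 0 = p 0 * ω := by
      rw [hω]
      simp only [mul_assoc]
      rw [← pc 0 3 h03, ← mul_assoc (p 2), ← pc 0 2 h02, mul_assoc (p 0) (p 2) (p 3),
        ← mul_assoc (p 1) (p 0), ← pc 0 1 h01]
      simp only [mul_assoc]
    have e2 : ω * p 1 = p 1 * ω := by
      rw [hω1]
      simp only [mul_assoc]
      rw [← pc 1 3 h13, ← mul_assoc (p 2), ← pc 1 2 h12, mul_assoc (p 1) (p 2) (p 3),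
        ← mul_assoc (p 0) (p 1), pc 0 1 h01]
      simp only [mul_assoc]
    calc ω * ω = ω * (p 0 * p 1 * p 2 * p 3) := by rw [← hω]
      _ = p 0 * (p 1 * (ω * (p 2 * p 3))) := by
        simp only [mul_assoc]
        rw [← mul_assoc ω (p 0), e1, mul_assoc, ← mul_assoc ω (p 1), e2, mul_assoc]
      _ = p 0 * (p 1 * (p 0 * p 1 * (p 2 * p 3 * (p 2 * p 3)))) := by
        rw [hω]
        simp only [mul_assoc]
      _ = (p 0 * p 0) * (p 1 * p 1) * ((p 2 * p 2) * (p 3 * p 3)) := by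
        have e3 : p 2 * p 3 * (p 2 * p 3) = (p 2 * p 2) * (p 3 * p 3) := by
          rw [mul_assoc, ← mul_assoc (p 3), ← pc 2 3 h23]
          simp only [mul_assoc]
        have e4 : p 0 * (p 1 * (p 0 * p 1 * ((p 2 * p 2) * (p 3 * p 3)))) =
            p 0 * ((p 1 * p 0) * p 1 * ((p 2 * p 2) * (p 3 * p 3))) := by
          simp only [mul_assoc]
        rw [e3, e4, ← pc 0 1 h01]
        simp only [mul_assoc]
      _ = 1 := by
        simp only [pp]
        simp
  · rw [hEi i, Finset.mul_sum, Finset.sum_mul, ← Finset.sum_neg_distrib]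
    refine Finset.sum_congr rfl fun r _ => ?_
    rw [mul_smul_comm, hcv, smul_neg, smul_mul_assoc]
  · have hpp : ∀ k w, p k (p k w) = -w := fun k w =>
      congrArg (fun T : Module.End ℂ U => T w) (pp k)
    have hpc : ∀ k l, k ≠ l → ∀ w, p k (p l w) = p l (p k w) := fun k l h w =>
      congrArg (fun T : Module.End ℂ U => T w) (pc k l h)
    have hu0 : p 0 (p 1 (p 2 (p 3 u))) = -u := by
      rw [← hu, hω]
      rfl
    have hu1 : p 1 (p 2 (p 3 u)) = p 0 u := by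
      have h1 := congrArg (p 0) hu0
      rw [hpp, map_neg] at h1
      exact neg_injective h1
    have hu2 : p 2 (p 3 u) = -p 0 (p 1 u) := by
      have h1 := congrArg (p 1) hu1
      rw [hpp, ← hpc 0 1 h01] at h1
      rw [← h1, neg_neg]
    have hu3 : p 1 (p 3 u) = -p 0 (p 2 u) := by
      have h1 := congrArg (p 2) hu1
      rw [← hpc 1 2 h12, hpp, map_neg, ← hpc 0 2 h02] at h1
      rw [← h1, neg_neg]
    have hu4 : p 1 (p 2 u) = -p 0 (p 3 u) := by
      have h1 := congrArg (p 3) hu1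
      rw [hpc 2 3 h23, ← hpc 1 3 h13, hpp, map_neg, ← hpc 0 3 h03] at h1
      rw [← h1, neg_neg]
    rw [hrc]
    simp only [LinearMap.smul_apply, map_smul, Fin.sum_univ_four, LinearMap.add_apply, map_add]
    rw [hpp, hpp, hpp, hpp, ← hpc 0 1 h01, ← hpc 0 2 h02, ← hpc 0 3 h03, ← hpc 1 2 h12,
      ← hpc 1 3 h13, ← hpc 2 3 h23, hu2, hu3, hu4]
    module

end Pool.Agent.NH25.PK

end
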