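import Pool.Agent.NH25.PK.Tri1
import Pool.Agent.NH25.PK.Tri3

set_option autoImplicit false
set_option linter.unusedSectionVars false
set_option linter.unusedVariables false

/-!
# Isomorphisms between orthogonal Lie algebras and spin representations, with triality
-/

open Module Matrix

noncomputable section

namespace Pool.Agent.NH25.PK

open Pool.Agent.Y102.SP Pool.Agent.R918.Sp

variable {r s : ℕ} {U₁ U₂ : Type} [AddCommGroup U₁] [Module ℂ U₁] [AddCommGroup U₂] [Module ℂ U₂]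
  {E : Fin r → Module.End ℂ U₁} {E' : Fin s → Module.End ℂ U₂}
  {L : Submodule ℂ (Module.End ℂ U₁ × Module.End ℂ U₂)}

/-- Propagation of the relations. -/
theorem prop {y z y' : Module.End ℂ U₂} (h1 : y * z - z * y = (2 : ℂ) • y')
    (h2 : y' * z - z * y' = -((2 : ℂ) • y)) {W : Submodule ℂ U₂} (hy : ∀ w ∈ W, y w ∈ W)
    (hz : ∀ w ∈ W, z w ∈ W) (hy' : ∀ w ∈ W, y' w ∈ W) (hsq : ∀ w ∈ W, y (y w) = -w) :
    (∀ w ∈ W, y (y' w) = -y' (y w)) ∧ ∀ w ∈ W, y' (y' w) = -w := by
  have e1 : ∀ w, y (z w) - z (y w) = (2 : ℂ) • y' w := fun w =>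
    congrArg (fun T : Module.End ℂ U₂ => T w) h1
  have e2 : ∀ w, y' (z w) - z (y' w) = -((2 : ℂ) • y w) := fun w =>
    congrArg (fun T : Module.End ℂ U₂ => T w) h2
  have a1 : ∀ w ∈ W, y (y' w) = -y' (y w) := by
    intro w hw
    have h3 := hsq _ (hz w hw)
    have h4 := congrArg z (hsq w hw)
    rw [map_neg] at h4
    have h5 : y (z w) = z (y w) + (2 : ℂ) • y' w := by rw [← e1 w]; abel
    have h6 : y (z (y w)) = z (y (y w)) + (2 : ℂ) • y' (y w) := by rw [← e1 (y w)]; abel
    rw [h5, map_add, map_smul, h6, h4] at h3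
    have h7 : (2 : ℂ) • (y' (y w) + y (y' w)) = 0 := by
      have h8 : (2 : ℂ) • (y' (y w) + y (y' w)) =
          -z w + (2 : ℂ) • y' (y w) + (2 : ℂ) • y (y' w) + z w := by module
      rw [h8, h3, neg_add_cancel]
    have h9 := (smul_eq_zero.1 h7).resolve_left two_ne_zero
    exact eq_neg_of_add_eq_zero_right h9
  refine ⟨a1, fun w hw => ?_⟩
  have h3 := a1 _ (hz w hw)
  have h4 := congrArg z (a1 w hw)
  have h5 : ∀ w, y (z w) = z (y w) + (2 : ℂ) • y' w := fun w => by rw [← e1 w]; abel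
  have h6 : ∀ w, y' (z w) = z (y' w) - (2 : ℂ) • y w := fun w => by
    rw [sub_eq_add_neg]
    exact sub_eq_iff_eq_add'.1 (e2 w)
  rw [map_neg] at h4
  rw [h6, h5, map_sub, map_add, map_smul, map_smul, h5, h6, h4, hsq w hw] at h3
  have h7 : (4 : ℂ) • (y' (y' w) + w) = 0 := by
    have h8 : (4 : ℂ) • (y' (y' w) + w) = (-z (y' (y w)) + (2 : ℂ) • y' (y' w) - (2 : ℂ) • -w) -
        -(z (y' (y w)) - (2 : ℂ) • y (y w) + (2 : ℂ) • y' (y' w)) := by
      rw [hsq w hw]
      module
    rw [h8, h3, hsq w hw]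
    module
  have h9 := (smul_eq_zero.1 h7).resolve_left (by norm_num)
  exact eq_neg_of_add_eq_zero_left h9

section lnk

variable (h : Lnk E E' L) (hE : CE E) (hE' : CE E') [Nontrivial U₂]
include h hE hE'

/-- The cubic identity. -/
theorem cub {x : Module.End ℂ U₁} (hx : x * x = -1) {f : Matrix (Fin s) (Fin s) ℂ}
    (hf : fᵀ = -f) (hxf : (x, rc E' f) ∈ L) : ∀ A : Matrix (Fin s) (Fin s) ℂ, Aᵀ = -A →
      f * f * f * A - (3 : ℂ) • (f * f * A * f) + (3 : ℂ) • (f * A * (f * f)) - A * (f * f * f) =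
        -(f * A - A * f) := by
  intro A hA
  obtain ⟨w, hw⟩ := h.s2 _ (rc_mem hE' hA)
  have s1 := h.skew_br hE hE' hf hA
  have s2 := h.skew_br hE hE' hf s1
  have s3 := h.skew_br hE hE' hf s2
  have b1 := h.rc_brL hE hE' hf hA hxf hw
  have b2 := h.rc_brL hE hE' hf s1 hxf b1
  have b3 := h.rc_brL hE hE' hf s2 hxf b2
  have e1 : (2⁻¹ : ℂ) • (x * ((2⁻¹ : ℂ) • (x * ((2⁻¹ : ℂ) • (x * w - w * x)) -
      (2⁻¹ : ℂ) • (x * w - w * x) * x)) - (2⁻¹ : ℂ) • (x * ((2⁻¹ : ℂ) • (x * w - w * x)) -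
        (2⁻¹ : ℂ) • (x * w - w * x) * x) * x) = -((2⁻¹ : ℂ) • (x * w - w * x)) := by
    simp only [mul_smul_comm, smul_mul_assoc, ← smul_sub, smul_smul]
    have e2 : x * (x * (x * w - w * x) - (x * w - w * x) * x) -
        (x * (x * w - w * x) - (x * w - w * x) * x) * x =
          (x * x) * x * w - x * x * w * x - x * x * w * x - x * x * w * x +
            x * w * (x * x) + x * w * (x * x) + x * w * (x * x) - w * (x * x) * x := by
      noncomm_ring
    rw [e2, hx]
    have e3 : (-1 : Module.End ℂ U₁) * x * w - -1 * w * x - -1 * w * x - -1 * w * x +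
        x * w * -1 + x * w * -1 + x * w * -1 - w * -1 * x = -((4 : ℂ) • (x * w - w * x)) := by
      have e4 : (4 : ℂ) • (x * w - w * x) = (4 : ℕ) • (x * w - w * x) := by
        rw [← Nat.cast_smul_eq_nsmul ℂ]
        norm_num
      rw [e4]
      noncomm_ring
    rw [e3, smul_neg, smul_smul]
    norm_num
  rw [e1] at b3
  have b4 := L.neg_mem b1
  rw [Prod.neg_mk, ← map_neg] at b4
  have h5 := h.eq_of hE hE' s3 (by rw [Matrix.transpose_neg, s1]) b3 b4
  rw [← h5]
  have e5 : (3 : ℂ) • (f * f * A * f) = (3 : ℕ) • (f * f * A * f) := by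
    rw [← Nat.cast_smul_eq_nsmul ℂ]
    norm_num
  have e6 : (3 : ℂ) • (f * A * (f * f)) = (3 : ℕ) • (f * A * (f * f)) := by
    rw [← Nat.cast_smul_eq_nsmul ℂ]
    norm_num
  rw [e5, e6]
  noncomm_ring

/-- The map, when a subrepresentation with the relations of the spin representation is given. -/
theorem inter_of_W [Nontrivial U₁] {f : Fin r → Fin r → Matrix (Fin s) (Fin s) ℂ}
    (h1 : ∀ a b, a ≠ b → (E a * E b, rc E' (f a b)) ∈ L) (h2 : ∀ a b, (f a b)ᵀ = -f a b)
    (h3 : ∀ a, f a a = 0) (W : Submodule ℂ U₂) (hW : W ≠ ⊥)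
    (hst : ∀ y ∈ soE E', ∀ w ∈ W, y w ∈ W) {o a₁ : Fin r} (hoa : a₁ ≠ o)
    (hsq : ∀ w ∈ W, rc E' (f o a₁) (rc E' (f o a₁) w) = -w) :
    ∃ T : U₁ →ₗ[ℂ] U₂, T ≠ 0 ∧ ∀ x y, (x, y) ∈ L → ∀ u, y (T u) = T (x u) := by
  have ha := h.aut hE hE' h1 h2 h3
  have hst' : ∀ a b, ∀ w ∈ W, rc E' (f a b) w ∈ W := fun a b w hw =>
    hst _ (rc_mem hE' (h2 a b)) w hw
  -- the commutators
  have hcom : ∀ a b, a ≠ o → b ≠ o → a ≠ b →
      rc E' (f o a) * rc E' (f a b) - rc E' (f a b) * rc E' (f o a) = (2 : ℂ) • rc E' (f o b) ∧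
      rc E' (f o b) * rc E' (f a b) - rc E' (f a b) * rc E' (f o b) =
        -((2 : ℂ) • rc E' (f o a)) := by
    intro a b hao hbo hab
    constructor
    · rw [rc_br hE' (h2 o a) (h2 a b), ha.br o a b (Ne.symm hao) hab (Ne.symm hbo)]
    · rw [rc_br hE' (h2 o b) (h2 a b), ← smul_neg, ← map_neg]
      congr 2
      have h4 := ha.br o b a (Ne.symm hbo) (Ne.symm hab) (Ne.symm hao)
      rw [ha.anti a b] at h4
      rw [← h4]
      noncomm_ring
  have hsqa : ∀ a, a ≠ o → ∀ w ∈ W, rc E' (f o a) (rc E' (f o a) w) = -w := by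
    intro a hao
    by_cases haa : a = a₁
    · rw [haa]; exact hsq
    · obtain ⟨c1, c2⟩ := hcom a₁ a hoa hao (Ne.symm haa)
      exact (prop c1 c2 (hst' _ _) (hst' _ _) (hst' _ _) hsq).2
  have hanti : ∀ a b, a ≠ o → b ≠ o → a ≠ b → ∀ w ∈ W,
      rc E' (f o a) (rc E' (f o b) w) = -rc E' (f o b) (rc E' (f o a) w) := by
    intro a b hao hbo hab
    obtain ⟨c1, c2⟩ := hcom a b hao hbo hab
    exact (prop c1 c2 (hst' _ _) (hst' _ _) (hst' _ _) (hsqa a hao)).1
  have hEE : ∀ a u, E a (E a u) = u := by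
    intro a u
    exact congrArg (fun F : Module.End ℂ U₁ => F u) (hE.sq a)
  have hEA : ∀ a b, a ≠ b → ∀ u, E a (E b u) = -E b (E a u) := by
    intro a b hab u
    exact congrArg (fun F : Module.End ℂ U₁ => F u) (hE.anti a b hab)
  have : Nontrivial W := Submodule.nontrivial_iff_ne_bot.2 hW
  let Y : Fin r → Module.End ℂ W := fun a => (rc E' (f o a)).restrict (hst' o a)
  have hY : ∀ a (w : W), ((Y a w : W) : U₂) = rc E' (f o a) w := fun a w => rfl
  obtain ⟨T', hT0, hT⟩ := inter (Finset.univ.erase o) (fun a => E o * E a) Y (E o) (hEE o)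
    (fun a ha u => by
      have hao := Finset.ne_of_mem_erase ha
      rw [Module.End.mul_apply, Module.End.mul_apply, hEA a o hao, map_neg, hEE, hEE])
    (fun a ha b hb hab u => by
      have hao := Finset.ne_of_mem_erase ha
      have hbo := Finset.ne_of_mem_erase hb
      simp only [Module.End.mul_apply]
      rw [hEA a o hao, hEA b o hbo, map_neg, map_neg, hEE, hEE, hEA a b hab])
    (fun a ha w => Subtype.ext (hsqa a (Finset.ne_of_mem_erase ha) w w.2))
    (fun a ha b hb hab w => Subtype.ext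
      (hanti a b (Finset.ne_of_mem_erase ha) (Finset.ne_of_mem_erase hb) hab w w.2))
    (fun a ha u => by
      have hao := Finset.ne_of_mem_erase ha
      simp only [Module.End.mul_apply]
      rw [hEA a o hao, map_neg, neg_neg])
  refine ⟨W.subtype ∘ₗ T', fun h4 => hT0 ?_, ?_⟩
  · refine LinearMap.ext fun u => Subtype.ext ?_
    exact congrArg (fun F : U₁ →ₗ[ℂ] U₂ => F u) h4
  have hTW : ∀ u, (W.subtype ∘ₗ T') u ∈ W := fun u => (T' u).2
  generalize hTT : W.subtype ∘ₗ T' = T at *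
  have hTo : ∀ a, a ≠ o → ∀ u, rc E' (f o a) (T u) = T (E o (E a u)) := fun a hao u => by
    rw [← hTT]
    exact congrArg Subtype.val (hT a (Finset.mem_erase.2 ⟨hao, Finset.mem_univ _⟩) u)
  have hgen : ∀ a b, a ≠ b → ∀ u, rc E' (f a b) (T u) = T (E a (E b u)) := by
    intro a b hab u
    by_cases hao : a = o
    · rw [hao]
      exact hTo b (fun h => hab (hao.trans h.symm)) u
    by_cases hbo : b = o
    · rw [hbo, ha.anti o a, map_neg, LinearMap.neg_apply, hTo a hao, hEA a o hao, map_neg]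
    have h4 : rc E' (f a b) (T u) = -(rc E' (f o a) (rc E' (f o b) (T u))) := by
      have h5 := congrArg (fun F : Module.End ℂ U₂ => F (T u)) (rc_br hE' (h2 o a) (h2 o b))
      simp only [LinearMap.sub_apply, Module.End.mul_apply, LinearMap.smul_apply] at h5
      have h6 : f a b = -(f o a * f o b - f o b * f o a) := by
        rw [← ha.br a o b hao (Ne.symm hbo) hab, ha.anti o a]
        noncomm_ring
      rw [hanti b a hbo hao (Ne.symm hab) _ (hTW u), sub_neg_eq_add, ← two_smul ℂ] at h5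
      have h7 := smul_right_injective _ (two_ne_zero (α := ℂ)) h5
      rw [h6, map_neg, LinearMap.neg_apply, ← h7]
    rw [h4, hTo b hbo, hTo a hao, hEA a o hao, map_neg, hEE, map_neg, neg_neg]
  have key : ∀ x ∈ soE E, ∃ y, (x, y) ∈ L ∧ ∀ u, y (T u) = T (x u) := by
    intro x hx
    unfold soE at hx
    induction hx using Submodule.span_induction with
    | mem x hx =>
      obtain ⟨a, b, hab, rfl⟩ := hx
      exact ⟨_, h1 a b hab, hgen a b hab⟩
    | zero => exact ⟨0, L.zero_mem, fun u => by simp⟩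
    | add x y _ _ hx hy =>
      obtain ⟨x', a1, a2⟩ := hx
      obtain ⟨y', b1, b2⟩ := hy
      exact ⟨x' + y', L.add_mem a1 b1, fun u => by
        rw [LinearMap.add_apply, LinearMap.add_apply, map_add, a2, b2]⟩
    | smul c x _ hx =>
      obtain ⟨x', a1, a2⟩ := hx
      exact ⟨c • x', L.smul_mem c a1, fun u => by
        rw [LinearMap.smul_apply, LinearMap.smul_apply, map_smul, a2]⟩
  intro x y hxy u
  obtain ⟨y', h4, h5⟩ := key x (h.l1 _ _ hxy)
  rw [h.uniq hE hE' hxy h4]
  exact h5 u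

end lnk

/-- **Theorem.** An isomorphism between two orthogonal Lie algebras (of size at least five) is
compatible with a nonzero map between the spin representations. -/
theorem exists_inter' [Nontrivial U₁] [Nontrivial U₂] (h : Lnk E E' L) (hE : CE E)
    (hE' : CE E') (hr : 5 ≤ r) (hs : 2 ≤ s) :
    ∃ T : U₁ →ₗ[ℂ] U₂, T ≠ 0 ∧ ∀ x y, (x, y) ∈ L → ∀ u, y (T u) = T (x u) := by
  by_cases hr8 : r ≠ 8
  · exact h.exists_inter hE hE' hr hs hr8
  push Not at hr8
  obtain ⟨f, h1, h2, h3⟩ := h.exists_f hE hE'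
  have ha := h.aut hE hE' h1 h2 h3
  obtain ⟨c0, hc⟩ := ha.exists_const hr
  have hsr := sizes ha hr hs
  rw [const_eq ha hr hs hc] at hc
  subst hr8
  subst hsr
  have h01 : (1 : Fin 8) ≠ 0 := by decide
  have ht : (f 0 1 * f 0 1).trace = -2 := by
    rw [hc, if_pos ⟨rfl, rfl⟩, if_neg (fun h => h01 h.1.symm)]
    ring
  have hx : E 0 * E 1 * (E 0 * E 1) = -1 := by
    calc E 0 * E 1 * (E 0 * E 1) = E 0 * (E 1 * E 0) * E 1 := by simp only [mul_assoc]
      _ = -1 := by
        rw [hE.anti 1 0 h01, mul_neg, neg_mul, ← mul_assoc, hE.sq, one_mul, hE.sq]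
  rcases dich (h2 0 1) (cub h hE hE' hx (h2 0 1) (h1 0 1 (Ne.symm h01))) ht with h7 | h7
  · refine inter_of_W h hE hE' h1 h2 h3 ⊤ ?_ (fun _ _ _ _ => Submodule.mem_top) h01 ?_
    · exact top_ne_bot
    · intro w _
      obtain ⟨u, v, huv⟩ := rank_two (h2 0 1) h7 ht
      have h8 := congrArg (fun F : Module.End ℂ U₂ => F w) (rc_sq hE' huv)
      simp only [Module.End.mul_apply, LinearMap.smul_apply, Module.End.one_apply] at h8
      rw [h8, ht]
      module
  · obtain ⟨ω, w1, w2, w3⟩ := chir hE' (h2 0 1) h7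
    have hω : ∀ u, ω (ω u) = u := fun u => congrArg (fun F : Module.End ℂ U₂ => F u) w1
    have hωE : ∀ i u, ω (E' i u) = -(E' i (ω u)) := fun i u =>
      congrArg (fun F : Module.End ℂ U₂ => F u) (w2 i)
    refine inter_of_W h hE hE' h1 h2 h3 (LinearMap.ker (ω + 1)) ?_ ?_ h01 ?_
    · obtain ⟨u, hu⟩ := exists_ne (0 : U₂)
      intro hbot
      have hz : ∀ u, ω u = -u → u = 0 := by
        intro u hu
        have h8 : u ∈ LinearMap.ker (ω + 1) := by
          rw [LinearMap.mem_ker, LinearMap.add_apply, Module.End.one_apply, hu, neg_add_cancel]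
        rw [hbot] at h8
        exact (Submodule.mem_bot ℂ).1 h8
      have h8 := hz (u - ω u) (by rw [map_sub, hω]; abel)
      have h9 : ω u = u := (sub_eq_zero.1 h8).symm
      have h10 := hz (E' 0 u) (by rw [hωE, h9])
      have h11 : E' 0 (E' 0 u) = u := congrArg (fun F : Module.End ℂ U₂ => F u) (hE'.sq 0)
      rw [h10, map_zero] at h11
      exact hu h11.symm
    · intro y hy w hw
      rw [LinearMap.mem_ker, LinearMap.add_apply, Module.End.one_apply] at hw ⊢
      have hw' : ω w = -w := eq_neg_of_add_eq_zero_left hw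
      have hyc : ω (y w) = y (ω w) := by
        unfold soE at hy
        induction hy using Submodule.span_induction with
        | mem y hy =>
          obtain ⟨a, b, hab, rfl⟩ := hy
          rw [Module.End.mul_apply, Module.End.mul_apply, hωE, hωE, map_neg, neg_neg]
        | zero => simp
        | add y z _ _ hy hz => rw [LinearMap.add_apply, LinearMap.add_apply, map_add, hy, hz]
        | smul c y _ hy => rw [LinearMap.smul_apply, LinearMap.smul_apply, map_smul, hy]
      rw [hyc, hw', map_neg, neg_add_cancel]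
    · intro w hw
      rw [LinearMap.mem_ker, LinearMap.add_apply, Module.End.one_apply] at hw
      exact w3 w (eq_neg_of_add_eq_zero_left hw)

end Pool.Agent.NH25.PK

end
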