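import Pool.Agent.R918.SpG
import Pool.Agent.NH25.PK.Tri4

set_option autoImplicit false
set_option linter.unusedSectionVars false
set_option linter.unusedVariables false

/-!
# Sums of spin representations of different orthogonal Lie algebras, with triality
-/

open Module TensorProduct

noncomputable section

namespace Pool.Agent.NH25.PK

open Pool.Agent.Y102.SP Pool.Agent.R918.Sp

variable {m : ℕ} {H : Type} [AddCommGroup H] [Module ℂ H] {U : Fin m → Type}
  [∀ i, AddCommGroup (U i)] [∀ i, Module ℂ (U i)] {P : ∀ i, H →ₗ[ℂ] U i} {Q : ∀ i, U i →ₗ[ℂ] H}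
  {r : Fin m → ℕ} {E : ∀ i, Fin (r i) → Module.End ℂ (U i)}

variable {𝔥 : Submodule ℂ (Module.End ℂ H)} (h : SpHyp P Q E 𝔥)
  [∀ i, FiniteDimensional ℂ (U i)] [∀ i, Nontrivial (U i)]
include h

theorem not_linked' (hr : ∀ i, 6 ≤ r i) {i j : Fin m} (hij : i ≠ j)
    (h1 : ∀ x ∈ 𝔥, pb P Q i x = 0 → pb P Q j x = 0) : False := by
  let L : Submodule ℂ (Module.End ℂ (U i) × Module.End ℂ (U j)) :=
    𝔥.map ((pb P Q i).prod (pb P Q j))
  have hL : ∀ x y, (x, y) ∈ L ↔ ∃ z ∈ 𝔥, pb P Q i z = x ∧ pb P Q j z = y := by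
    intro x y
    constructor
    · rintro ⟨z, hz, hz'⟩
      exact ⟨z, hz, congrArg Prod.fst hz', congrArg Prod.snd hz'⟩
    · rintro ⟨z, hz, rfl, rfl⟩
      exact ⟨z, hz, rfl⟩
  have hlnk : Lnk (E i) (E j) L :=
    { l1 := fun x y hxy => by
        obtain ⟨z, hz, rfl, -⟩ := (hL x y).1 hxy
        exact h.memE hz i
      l2 := fun x y hxy => by
        obtain ⟨z, hz, -, rfl⟩ := (hL x y).1 hxy
        exact h.memE hz j
      br := fun x y x' y' h2 h3 => by
        obtain ⟨z, hz, rfl, rfl⟩ := (hL x y).1 h2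
        obtain ⟨z', hz', rfl, rfl⟩ := (hL x' y').1 h3
        exact (hL _ _).2 ⟨z * z' - z' * z, h.br z hz z' hz', h.pb_br hz hz' i, h.pb_br hz hz' j⟩
      s1 := fun x hx => by
        obtain ⟨z, hz, rfl⟩ := h.surj hr i x hx
        exact ⟨_, (hL _ _).2 ⟨z, hz, rfl, rfl⟩⟩
      s2 := fun y hy => by
        obtain ⟨z, hz, rfl⟩ := h.surj hr j y hy
        exact ⟨_, (hL _ _).2 ⟨z, hz, rfl, rfl⟩⟩
      i2 := fun y hy => by
        obtain ⟨z, hz, h2, rfl⟩ := (hL _ _).1 hy
        exact h1 z hz h2 }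
  obtain ⟨T, hT0, hT⟩ := exists_inter' hlnk (h.ce i) (h.ce j) (by have := hr i; omega)
    (by have := hr j; omega)
  let T' : Module.End ℂ H := Q j ∘ₗ T ∘ₗ P i
  have hT' : ∀ v, T' v = Q j (T (P i v)) := fun v => rfl
  have hcomm : ∀ x ∈ Algebra.adjoin ℂ (𝔥 : Set (Module.End ℂ H)), ∀ v, x (T' v) = T' (x v) := by
    intro x hx
    induction hx using Algebra.adjoin_induction with
    | mem x hx =>
      intro v
      rw [hT', hT', h.diag hx, diag_P h.dec (h.diag hx)]
      congr 1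
      exact hT _ _ ((hL _ _).2 ⟨x, hx, rfl, rfl⟩) _
    | algebraMap c =>
      intro v
      rw [Algebra.algebraMap_eq_smul_one, LinearMap.smul_apply, LinearMap.smul_apply, map_smul]
      rfl
    | add x y _ _ hx hy =>
      intro v
      rw [LinearMap.add_apply, LinearMap.add_apply, map_add, hx, hy]
    | mul x y _ _ hx hy =>
      intro v
      rw [Module.End.mul_apply, Module.End.mul_apply, hy, hx]
  let a : Fin (r i) := ⟨0, by have := hr i; omega⟩
  let b : Fin (r i) := ⟨1, by have := hr i; omega⟩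
  have hab : a ≠ b := fun h => by
    have := congrArg Fin.val h
    exact absurd this (by norm_num [a, b])
  have hgen := h.gen i a b hab
  have hsq : ib P Q i (E i a * E i b) * ib P Q i (E i a * E i b) = -ib P Q i 1 := by
    rw [ib_mul h.dec]
    have e1 : E i a * E i b * (E i a * E i b) = -1 := by
      calc E i a * E i b * (E i a * E i b) = E i a * (E i b * E i a) * E i b := by
            simp only [mul_assoc]
        _ = -1 := by
          rw [(h.ce i).anti b a (Ne.symm hab), mul_neg, neg_mul, ← mul_assoc, (h.ce i).sq, one_mul,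
            (h.ce i).sq]
    rw [e1, map_neg]
  have he := hcomm _ (Subalgebra.mul_mem _ hgen hgen)
  rw [hsq] at he
  apply hT0
  refine LinearMap.ext fun u => ?_
  have h2 := he (Q i u)
  rw [LinearMap.neg_apply, LinearMap.neg_apply, map_neg, ib_apply, ib_apply, hT', hT',
    Module.End.one_apply, Module.End.one_apply, h.dec.diff i j hij, h.dec.same, h.dec.same,
    map_zero, neg_zero] at h2
  have h3 := congrArg (P j) h2
  rw [map_zero, map_neg, h.dec.same] at h3
  rw [LinearMap.zero_apply]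
  exact neg_eq_zero.1 h3.symm

theorem two' (hr : ∀ i, 6 ≤ r i) {i j : Fin m} (hij : i ≠ j) :
    ∀ y ∈ soE (E i), ∃ x ∈ 𝔥, pb P Q i x = y ∧ pb P Q j x = 0 := by
  rcases h.ideal hr i j with h1 | h1
  swap
  · exact h1
  exact absurd (not_linked' h hr (Ne.symm hij) h1) not_false

theorem ribet' (hr : ∀ i, 6 ≤ r i) {i : Fin m}
    (S : Finset (Fin m)) : i ∉ S → ∀ y ∈ soE (E i), ∃ x ∈ 𝔥, pb P Q i x = y ∧
      ∀ t ∈ S, pb P Q t x = 0 := by
  classical
  induction S using Finset.induction_on with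
  | empty =>
    intro _ x hx
    obtain ⟨y, hy, hyx⟩ := h.surj hr i x hx
    exact ⟨y, hy, hyx, fun t ht => absurd ht (Finset.notMem_empty t)⟩
  | insert t S htS ih =>
    intro hiS x hx
    have hiS' : i ∉ S := fun h => hiS (Finset.mem_insert_of_mem h)
    have hit : i ≠ t := fun h => hiS (h ▸ Finset.mem_insert_self _ _)
    let K : Submodule ℂ (Module.End ℂ H) := 𝔥 ⊓ ⨅ t' ∈ insert t S, LinearMap.ker (pb P Q t')
    have hK : ∀ y, y ∈ K ↔ y ∈ 𝔥 ∧ ∀ t' ∈ insert t S, pb P Q t' y = 0 := by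
      intro y
      simp only [K, Submodule.mem_inf, Submodule.mem_iInf, LinearMap.mem_ker]
    have hle : Submodule.span ℂ {z | ∃ x ∈ soE (E i), ∃ y ∈ soE (E i), z = x * y - y * x} ≤
        K.map (pb P Q i) := by
      refine Submodule.span_le.2 ?_
      rintro _ ⟨x1, hx1, x2, hx2, rfl⟩
      obtain ⟨y1, hy1, h1, h2⟩ := ih hiS' x1 hx1
      obtain ⟨y2, hy2, h3, h4⟩ := two' h hr hit x2 hx2
      refine ⟨y1 * y2 - y2 * y1, (hK _).2 ⟨h.br y1 hy1 y2 hy2, fun t' ht' => ?_⟩, ?_⟩
      · rcases Finset.mem_insert.1 ht' with h5 | h5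
        · rw [h5, h.pb_br hy1 hy2, h4, mul_zero, zero_mul, sub_zero]
        · rw [h.pb_br hy1 hy2, h2 t' h5, mul_zero, zero_mul, sub_zero]
      · rw [h.pb_br hy1 hy2, h1, h3]
    obtain ⟨y, hy, hyx⟩ := Submodule.mem_map.1 (hle (so_perfect (by have := hr i; omega) (h.ce i) hx))
    exact ⟨y, ((hK y).1 hy).1, hyx, ((hK y).1 hy).2⟩

/-- **Theorem.** A Lie subalgebra of a sum of orthogonal Lie algebras, which act on a sum of spin
representations, and which generates the same associative algebra, is everything. -/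
theorem all' (hr : ∀ i, 6 ≤ r i) : soB P Q E ≤ 𝔥 := by
  classical
  refine Submodule.span_le.2 ?_
  rintro _ ⟨i, a, b, hab, rfl⟩
  obtain ⟨x, hx, h1, h2⟩ := ribet' h hr (i := i) (Finset.univ.erase i)
    (Finset.notMem_erase _ _) _ (Submodule.subset_span ⟨a, b, hab, rfl⟩)
  have h3 := sum_ib h.dec (h.diag hx)
  rw [Finset.sum_eq_single i (fun t _ ht => by
    rw [h2 t (Finset.mem_erase.2 ⟨ht, Finset.mem_univ _⟩), map_zero])
    (fun h => absurd (Finset.mem_univ _) h), h1] at h3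
  change ib P Q i (E i a * E i b) ∈ 𝔥
  rw [h3]
  exact hx

end Pool.Agent.NH25.PK

end
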