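import Pool.Agent.NH25.PK.Three

set_option autoImplicit false
set_option linter.unusedSectionVars false
set_option linter.unusedVariables false

/-!
# Sums of spin representations of orthogonal Lie algebras of size three or at least six
-/

open Module TensorProduct Matrix

noncomputable section

namespace Pool.Agent.NH25.PK

open Pool.Agent.Y102.SP Pool.Agent.R918.Sp

section lnk

variable {U₁ U₂ : Type} [AddCommGroup U₁] [Module ℂ U₁] [AddCommGroup U₂] [Module ℂ U₂]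
  [Nontrivial U₁] [Nontrivial U₂]

theorem inter_three {E : Fin 3 → Module.End ℂ U₁} {E' : Fin 3 → Module.End ℂ U₂}
    {L : Submodule ℂ (Module.End ℂ U₁ × Module.End ℂ U₂)} (h : Lnk E E' L) (hE : CE E)
    (hE' : CE E') : ∃ T : U₁ →ₗ[ℂ] U₂, T ≠ 0 ∧ ∀ x y, (x, y) ∈ L → ∀ u, y (T u) = T (x u) := by
  obtain ⟨f, h1, h2, h3⟩ := h.exists_f hE hE'
  have q := quat_of hE
  obtain ⟨X, hX⟩ : ∃ X, X = E 0 * E 1 := ⟨_, rfl⟩
  obtain ⟨Y, hY⟩ : ∃ Y, Y = E 1 * E 2 := ⟨_, rfl⟩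
  obtain ⟨Z, hZ⟩ : ∃ Z, Z = E 0 * E 2 := ⟨_, rfl⟩
  rw [← hX, ← hY, ← hZ] at q
  obtain ⟨x', hx'⟩ : ∃ x', x' = rc E' (f 0 1) := ⟨_, rfl⟩
  obtain ⟨y', hy'⟩ : ∃ y', y' = rc E' (f 1 2) := ⟨_, rfl⟩
  obtain ⟨z', hz'⟩ : ∃ z', z' = rc E' (f 0 2) := ⟨_, rfl⟩
  have mX : (X, x') ∈ L := by rw [hX, hx']; exact h1 0 1 (by decide)
  have mY : (Y, y') ∈ L := by rw [hY, hy']; exact h1 1 2 (by decide)
  have mZ : (Z, z') ∈ L := by rw [hZ, hz']; exact h1 0 2 (by decide)
  have sx := h.l2 _ _ mX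
  have sy := h.l2 _ _ mY
  have sz := h.l2 _ _ mZ
  -- the other injectivity
  have hi1 : ∀ x, (x, (0 : Module.End ℂ U₂)) ∈ L → x = 0 := by
    let J : Submodule ℂ (Module.End ℂ U₁) := L.comap (LinearMap.inl ℂ _ _)
    have hJ : ∀ x, x ∈ J ↔ (x, (0 : Module.End ℂ U₂)) ∈ L := fun x => Iff.rfl
    have hle : J ≤ soE E := fun x hx => h.l1 _ _ ((hJ x).1 hx)
    rcases simple_three hE J hle (fun x hx y hy => by
      obtain ⟨x₂, hx₂⟩ := h.s1 x hx
      have h4 := h.br _ _ _ _ hx₂ ((hJ y).1 hy)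
      rw [mul_zero, zero_mul, sub_zero] at h4
      exact (hJ _).2 h4) with h4 | h4
    · intro x hx
      have h5 : x ∈ J := (hJ x).2 hx
      rw [h4] at h5
      exact (Submodule.mem_bot ℂ).1 h5
    · exfalso
      have h5 : ∀ y ∈ soE E', y = 0 := by
        intro y hy
        obtain ⟨x, hxy⟩ := h.s2 y hy
        have h6 : x ∈ J := by rw [h4]; exact h.l1 _ _ hxy
        exact h.uniq hE hE' hxy ((hJ x).1 h6)
      have h6 := h5 (E' 0 * E' 1) (Submodule.subset_span ⟨0, 1, by decide, rfl⟩)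
      have h7 := (quat_of hE').xx
      rw [h6, mul_zero] at h7
      exact one_ne_zero (neg_eq_zero.1 h7.symm)
  have hs : ∀ (x : Module.End ℂ U₁) (y : Module.End ℂ U₂), (x, y) ∈ L → (2 : ℂ) • x = 2 • x ∧
      ((2 : ℂ) • x, (2 : ℂ) • y) ∈ L := fun x y hxy => ⟨by
    rw [← Nat.cast_smul_eq_nsmul ℂ]; norm_num, L.smul_mem (2 : ℂ) hxy⟩
  have bxy : x' * y' - y' * x' = (2 : ℂ) • z' := by
    have h4 := h.br _ _ _ _ mX mY
    rw [q.xy, q.yx] at h4
    have h5 : Z - -Z = (2 : ℂ) • Z := by module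
    rw [h5] at h4
    exact h.uniq hE hE' h4 (hs _ _ mZ).2
  have byz : y' * z' - z' * y' = (2 : ℂ) • x' := by
    have h4 := h.br _ _ _ _ mY mZ
    rw [q.yz, q.zy] at h4
    have h5 : X - -X = (2 : ℂ) • X := by module
    rw [h5] at h4
    exact h.uniq hE hE' h4 (hs _ _ mX).2
  have bzx : z' * x' - x' * z' = (2 : ℂ) • y' := by
    have h4 := h.br _ _ _ _ mZ mX
    rw [q.zx, q.xz] at h4
    have h5 : Y - -Y = (2 : ℂ) • Y := by module
    rw [h5] at h4
    exact h.uniq hE hE' h4 (hs _ _ mY).2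
  obtain ⟨s1, e1⟩ := anti_three hE' sx sy
  obtain ⟨s2, e2⟩ := anti_three hE' sy sz
  obtain ⟨s3, e3⟩ := anti_three hE' sz sx
  obtain ⟨t1, d1⟩ := anti_three hE' sx sx
  obtain ⟨t2, d2⟩ := anti_three hE' sy sy
  obtain ⟨t3, d3⟩ := anti_three hE' sz sz
  have half : ∀ {a b : Module.End ℂ U₂} {s : ℂ} {c : Module.End ℂ U₂}, a * b - b * a = (2 : ℂ) • c →
      a * b + b * a = s • 1 → a * b = c + (s / 2) • 1 ∧ b * a = -c + (s / 2) • 1 := by
    intro a b s c h4 h5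
    constructor
    · have h6 : a * b = (2⁻¹ : ℂ) • (a * b - b * a) + (2⁻¹ : ℂ) • (a * b + b * a) := by module
      rw [h6, h4, h5]; module
    · have h6 : b * a = -((2⁻¹ : ℂ) • (a * b - b * a)) + (2⁻¹ : ℂ) • (a * b + b * a) := by module
      rw [h6, h4, h5]; module
  obtain ⟨pxy, pyx⟩ := half bxy e1
  obtain ⟨pyz, pzy⟩ := half byz e2
  obtain ⟨pzx, pxz⟩ := half bzx e3
  have px : x' * x' = (t1 / 2) • 1 := by
    have h6 : x' * x' = (2⁻¹ : ℂ) • (x' * x' + x' * x') := by module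
    rw [h6, d1]; module
  have py : y' * y' = (t2 / 2) • 1 := by
    have h6 : y' * y' = (2⁻¹ : ℂ) • (y' * y' + y' * y') := by module
    rw [h6, d2]; module
  have pz : z' * z' = (t3 / 2) • 1 := by
    have h6 : z' * z' = (2⁻¹ : ℂ) • (z' * z' + z' * z') := by module
    rw [h6, d3]; module
  have A1 : ((t1 - t3) / 2) • (1 : Module.End ℂ U₂) + ((s2 / 2) • x' + (-(s1 / 2)) • z') = 0 := by
    have h4 : x' * (y' * z') = x' * y' * z' := (mul_assoc _ _ _).symm
    rw [pyz, pxy, mul_add, add_mul, mul_smul_comm, smul_mul_assoc, mul_one, one_mul, px, pz] at h4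
    have h5 : ((t1 - t3) / 2) • (1 : Module.End ℂ U₂) + ((s2 / 2) • x' + (-(s1 / 2)) • z') =
      ((t1 / 2) • 1 + (s2 / 2) • x') - ((t3 / 2) • 1 + (s1 / 2) • z') := by module
    rw [h5, h4, sub_self]
  have B1 := sc_three hE' (Submodule.add_mem _ (Submodule.smul_mem _ _ sx)
    (Submodule.smul_mem _ _ sz)) A1
  have hlin : ∀ a b c : ℂ, a • x' + b • y' + c • z' = 0 → a = 0 ∧ b = 0 ∧ c = 0 := by
    intro a b c h4
    have h5 : (a • X + b • Y + c • Z, a • x' + b • y' + c • z') ∈ L :=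
      L.add_mem (L.add_mem (L.smul_mem a mX) (L.smul_mem b mY)) (L.smul_mem c mZ)
    rw [h4] at h5
    have h6 := hi1 _ h5
    have h7 : (0 : ℂ) • (1 : Module.End ℂ U₁) + (a • X + b • Y + c • Z) = 0 := by
      rw [zero_smul, zero_add, h6]
    exact (q.indep h7).2
  have hs1 : s1 = 0 := by
    have h4 := hlin (s2 / 2) 0 (-(s1 / 2)) (by rw [zero_smul, add_zero]; exact B1.2)
    have h5 := h4.2.2
    linear_combination -2 * h5
  have hs3 : s3 = 0 := by
    have h4 : y' * (z' * x') = y' * z' * x' := (mul_assoc _ _ _).symm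
    rw [pzx, pyz, mul_add, add_mul, mul_smul_comm, smul_mul_assoc, mul_one, one_mul, px, py] at h4
    have h5 : ((t2 - t1) / 2) • (1 : Module.End ℂ U₂) + ((s3 / 2) • y' + (-(s2 / 2)) • x') = 0 := by
      have h6 : ((t2 - t1) / 2) • (1 : Module.End ℂ U₂) + ((s3 / 2) • y' + (-(s2 / 2)) • x') =
        ((t2 / 2) • 1 + (s3 / 2) • y') - ((t1 / 2) • 1 + (s2 / 2) • x') := by module
      rw [h6, h4, sub_self]
    have B2 := sc_three hE' (Submodule.add_mem _ (Submodule.smul_mem _ _ sy)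
      (Submodule.smul_mem _ _ sx)) h5
    have h7 := hlin (-(s2 / 2)) (s3 / 2) 0 (by
      rw [zero_smul, add_zero, add_comm]; exact B2.2)
    linear_combination 2 * h7.2.1
  rw [hs1, zero_div, zero_smul, add_zero] at pxy
  rw [hs3, zero_div, zero_smul, add_zero] at pxz
  have ht : t1 / 2 = -1 := by
    have h4 : x' * x' * y' = x' * (x' * y') := mul_assoc _ _ _
    rw [px, pxy, pxz, smul_mul_assoc, one_mul] at h4
    have h5 := hlin 0 (t1 / 2 + 1) 0 (by
      rw [zero_smul, zero_smul, add_zero, zero_add, add_smul, h4, one_smul, neg_add_cancel])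
    linear_combination h5.2.1
  refine inter_of_W h hE hE' h1 h2 h3 ⊤ top_ne_bot (fun _ _ _ _ => Submodule.mem_top)
    (o := 0) (a₁ := 1) (by decide) fun w _ => ?_
  rw [← hx', ← Module.End.mul_apply, px, ht, LinearMap.smul_apply, Module.End.one_apply, neg_smul,
    one_smul]

variable {r s : ℕ} {E : Fin r → Module.End ℂ U₁} {E' : Fin s → Module.End ℂ U₂}
    {L : Submodule ℂ (Module.End ℂ U₁ × Module.End ℂ U₂)}

theorem no_link [FiniteDimensional ℂ U₁] [FiniteDimensional ℂ U₂] (h : Lnk E E' L) (hE : CE E)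
    (hE' : CE E') (hr : r = 3) (hs : 6 ≤ s) : False := by
  subst hr
  have h1 : finrank ℂ (soE E) ≤ 3 := dim_three hE
  have h2 := so_dim hs hE'
  let p : L →ₗ[ℂ] soE E := ((LinearMap.fst ℂ _ _) ∘ₗ L.subtype).codRestrict _
    (fun z => h.l1 _ _ z.2)
  let q : L →ₗ[ℂ] soE E' := ((LinearMap.snd ℂ _ _) ∘ₗ L.subtype).codRestrict _
    (fun z => h.l2 _ _ z.2)
  have hp : Function.Injective p := by
    rw [← LinearMap.ker_eq_bot, LinearMap.ker_eq_bot']
    rintro ⟨⟨x, y⟩, hxy⟩ h3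
    have h4 : x = 0 := congrArg Subtype.val h3
    subst h4
    exact Subtype.ext (Prod.ext rfl (h.i2 _ hxy))
  have hq : Function.Surjective q := by
    rintro ⟨y, hy⟩
    obtain ⟨x, hxy⟩ := h.s2 y hy
    exact ⟨⟨(x, y), hxy⟩, rfl⟩
  have h3 := LinearMap.finrank_le_finrank_of_injective hp
  have h4 := LinearMap.finrank_le_finrank_of_surjective hq
  omega

/-- All cases. -/
theorem exists_inter2 [FiniteDimensional ℂ U₁] [FiniteDimensional ℂ U₂] (h : Lnk E E' L)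
    (hE : CE E) (hE' : CE E') (hr : r = 3 ∨ 6 ≤ r) (hs : s = 3 ∨ 6 ≤ s) :
    ∃ T : U₁ →ₗ[ℂ] U₂, T ≠ 0 ∧ ∀ x y, (x, y) ∈ L → ∀ u, y (T u) = T (x u) := by
  rcases hr with hr | hr
  · rcases hs with hs | hs
    · subst hr hs
      exact inter_three h hE hE'
    · exact (no_link h hE hE' hr hs).elim
  · exact exists_inter' h hE hE' (by omega) (by omega)

end lnk

variable {m : ℕ} {H : Type} [AddCommGroup H] [Module ℂ H] {U : Fin m → Type}
  [∀ i, AddCommGroup (U i)] [∀ i, Module ℂ (U i)] {P : ∀ i, H →ₗ[ℂ] U i} {Q : ∀ i, U i →ₗ[ℂ] H}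
  {r : Fin m → ℕ} {E : ∀ i, Fin (r i) → Module.End ℂ (U i)}

theorem simple2 {U : Type} [AddCommGroup U] [Module ℂ U] [FiniteDimensional ℂ U] [Nontrivial U]
    {r : ℕ} (hr : r = 3 ∨ 6 ≤ r) {E : Fin r → Module.End ℂ U}
    (hE : CE E) (J : Submodule ℂ (Module.End ℂ U)) (hJ : J ≤ soE E)
    (hbr : ∀ x ∈ soE E, ∀ y ∈ J, x * y - y * x ∈ J) : J = ⊥ ∨ J = soE E := by
  rcases hr with hr | hr
  · subst hr
    exact simple_three hE J hJ hbr
  · exact so_simple (by omega) hE J hJ hbr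

theorem main2 {U : Type} [AddCommGroup U] [Module ℂ U] [FiniteDimensional ℂ U] [Nontrivial U]
    {r : ℕ} (hr : r = 3 ∨ 6 ≤ r) {E : Fin r → Module.End ℂ U}
    (hE : CE E) (𝔭 : Submodule ℂ (Module.End ℂ U)) (hle : 𝔭 ≤ soE E)
    (hbr : ∀ x ∈ 𝔭, ∀ y ∈ 𝔭, x * y - y * x ∈ 𝔭)
    (hgen : ∀ a b, E a * E b ∈ Algebra.adjoin ℂ (𝔭 : Set (Module.End ℂ U))) :
    soE E ≤ 𝔭 := by
  rcases hr with hr | hr
  · subst hr
    exact main_three hE 𝔭 hle hbr fun a b _ => hgen a b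
  · exact main hr hE 𝔭 hle hbr hgen

variable {𝔥 : Submodule ℂ (Module.End ℂ H)} (h : SpHyp P Q E 𝔥)
  [∀ i, FiniteDimensional ℂ (U i)] [∀ i, Nontrivial (U i)] (hr : ∀ i, r i = 3 ∨ 6 ≤ r i)
include h hr

theorem surj2 (i : Fin m) : ∀ y ∈ soE (E i), ∃ x ∈ 𝔥, pb P Q i x = y := by
  have h1 := main2 (hr i) (h.ce i) (𝔥.map (pb P Q i)) ?_ ?_ ?_
  · intro y hy
    exact Submodule.mem_map.1 (h1 hy)
  · rintro _ ⟨x, hx, rfl⟩
    exact h.memE hx i
  · rintro _ ⟨x, hx, rfl⟩ _ ⟨y, hy, rfl⟩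
    exact ⟨x * y - y * x, h.br x hx y hy, h.pb_br hx hy i⟩
  · intro a b
    by_cases hab : a = b
    · subst hab
      rw [(h.ce i).sq]
      exact Subalgebra.one_mem _
    · have h2 := (h.adj (h.gen i a b hab) i).2
      rwa [pb_ib h.dec] at h2

theorem ideal2 (i j : Fin m) :
    (∀ x ∈ 𝔥, pb P Q j x = 0 → pb P Q i x = 0) ∨
      ∀ y ∈ soE (E i), ∃ x ∈ 𝔥, pb P Q i x = y ∧ pb P Q j x = 0 := by
  have hsurj := surj2 h hr i
  have hle : (𝔥 ⊓ LinearMap.ker (pb P Q j)).map (pb P Q i) ≤ soE (E i) := by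
    rintro _ ⟨y, hy, rfl⟩
    exact h.memE hy.1 i
  have hid : ∀ x ∈ soE (E i), ∀ y ∈ (𝔥 ⊓ LinearMap.ker (pb P Q j)).map (pb P Q i),
      x * y - y * x ∈ (𝔥 ⊓ LinearMap.ker (pb P Q j)).map (pb P Q i) := by
    rintro x hx _ ⟨y, hy, rfl⟩
    obtain ⟨y', hy', rfl⟩ := hsurj x hx
    refine ⟨y' * y - y * y', ⟨h.br y' hy' y hy.1, ?_⟩, h.pb_br hy' hy.1 i⟩
    refine LinearMap.mem_ker.2 ?_
    rw [h.pb_br hy' hy.1, LinearMap.mem_ker.1 hy.2, mul_zero, zero_mul, sub_zero]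
  rcases simple2 (hr i) (h.ce i) _ hle hid with h1 | h1
  · left
    intro y hy hy0
    have h2 : pb P Q i y ∈ (𝔥 ⊓ LinearMap.ker (pb P Q j)).map (pb P Q i) :=
      Submodule.mem_map_of_mem (Submodule.mem_inf.2 ⟨hy, LinearMap.mem_ker.2 hy0⟩)
    rw [h1] at h2
    exact (Submodule.mem_bot ℂ).1 h2
  · right
    intro x hx
    rw [← h1] at hx
    obtain ⟨y, hy, rfl⟩ := Submodule.mem_map.1 hx
    exact ⟨y, hy.1, rfl, LinearMap.mem_ker.1 hy.2⟩

theorem not_linked2 {i j : Fin m} (hij : i ≠ j)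
    (h1 : ∀ x ∈ 𝔥, pb P Q i x = 0 → pb P Q j x = 0) : False := by
  let L : Submodule ℂ (Module.End ℂ (U i) × Module.End ℂ (U j)) :=
    𝔥.map ((pb P Q i).prod (pb P Q j))
  have hL : ∀ x y, (x, y) ∈ L ↔ ∃ z ∈ 𝔥, pb P Q i z = x ∧ pb P Q j z = y := by
    intro x y
    constructor
    · rintro ⟨z, hz, hz'⟩
      exact ⟨z, hz, congrArg Prod.fst hz', congrArg Prod.snd hz'⟩
    · rintro ⟨z, hz, rfl, rfl⟩
      exact ⟨z, hz, rfl⟩
  have hlnk : Lnk (E i) (E j) L :=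
    { l1 := fun x y hxy => by
        obtain ⟨z, hz, rfl, -⟩ := (hL x y).1 hxy
        exact h.memE hz i
      l2 := fun x y hxy => by
        obtain ⟨z, hz, -, rfl⟩ := (hL x y).1 hxy
        exact h.memE hz j
      br := fun x y x' y' h2 h3 => by
        obtain ⟨z, hz, rfl, rfl⟩ := (hL x y).1 h2
        obtain ⟨z', hz', rfl, rfl⟩ := (hL x' y').1 h3
        exact (hL _ _).2 ⟨z * z' - z' * z, h.br z hz z' hz', h.pb_br hz hz' i, h.pb_br hz hz' j⟩
      s1 := fun x hx => by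
        obtain ⟨z, hz, rfl⟩ := surj2 h hr i x hx
        exact ⟨_, (hL _ _).2 ⟨z, hz, rfl, rfl⟩⟩
      s2 := fun y hy => by
        obtain ⟨z, hz, rfl⟩ := surj2 h hr j y hy
        exact ⟨_, (hL _ _).2 ⟨z, hz, rfl, rfl⟩⟩
      i2 := fun y hy => by
        obtain ⟨z, hz, h2, rfl⟩ := (hL _ _).1 hy
        exact h1 z hz h2 }
  obtain ⟨T, hT0, hT⟩ := exists_inter2 hlnk (h.ce i) (h.ce j) (hr i) (hr j)
  let T' : Module.End ℂ H := Q j ∘ₗ T ∘ₗ P i
  have hT' : ∀ v, T' v = Q j (T (P i v)) := fun v => rfl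
  have hcomm : ∀ x ∈ Algebra.adjoin ℂ (𝔥 : Set (Module.End ℂ H)), ∀ v, x (T' v) = T' (x v) := by
    intro x hx
    induction hx using Algebra.adjoin_induction with
    | mem x hx =>
      intro v
      rw [hT', hT', h.diag hx, diag_P h.dec (h.diag hx)]
      congr 1
      exact hT _ _ ((hL _ _).2 ⟨x, hx, rfl, rfl⟩) _
    | algebraMap c =>
      intro v
      rw [Algebra.algebraMap_eq_smul_one, LinearMap.smul_apply, LinearMap.smul_apply, map_smul]
      rfl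
    | add x y _ _ hx hy =>
      intro v
      rw [LinearMap.add_apply, LinearMap.add_apply, map_add, hx, hy]
    | mul x y _ _ hx hy =>
      intro v
      rw [Module.End.mul_apply, Module.End.mul_apply, hy, hx]
  let a : Fin (r i) := ⟨0, by have := hr i; omega⟩
  let b : Fin (r i) := ⟨1, by have := hr i; omega⟩
  have hab : a ≠ b := fun h => by
    have := congrArg Fin.val h
    exact absurd this (by norm_num [a, b])
  have hgen := h.gen i a b hab
  have hsq : ib P Q i (E i a * E i b) * ib P Q i (E i a * E i b) = -ib P Q i 1 := by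
    rw [ib_mul h.dec]
    have e1 : E i a * E i b * (E i a * E i b) = -1 := by
      calc E i a * E i b * (E i a * E i b) = E i a * (E i b * E i a) * E i b := by
            simp only [mul_assoc]
        _ = -1 := by
          rw [(h.ce i).anti b a (Ne.symm hab), mul_neg, neg_mul, ← mul_assoc, (h.ce i).sq, one_mul,
            (h.ce i).sq]
    rw [e1, map_neg]
  have he := hcomm _ (Subalgebra.mul_mem _ hgen hgen)
  rw [hsq] at he
  apply hT0
  refine LinearMap.ext fun u => ?_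
  have h2 := he (Q i u)
  rw [LinearMap.neg_apply, LinearMap.neg_apply, map_neg, ib_apply, ib_apply, hT', hT',
    Module.End.one_apply, Module.End.one_apply, h.dec.diff i j hij, h.dec.same, h.dec.same,
    map_zero, neg_zero] at h2
  have h3 := congrArg (P j) h2
  rw [map_zero, map_neg, h.dec.same] at h3
  rw [LinearMap.zero_apply]
  exact neg_eq_zero.1 h3.symm

theorem ribet2 {i : Fin m}
    (S : Finset (Fin m)) : i ∉ S → ∀ y ∈ soE (E i), ∃ x ∈ 𝔥, pb P Q i x = y ∧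
      ∀ t ∈ S, pb P Q t x = 0 := by
  classical
  induction S using Finset.induction_on with
  | empty =>
    intro _ x hx
    obtain ⟨y, hy, hyx⟩ := surj2 h hr i x hx
    exact ⟨y, hy, hyx, fun t ht => absurd ht (Finset.notMem_empty t)⟩
  | insert t S htS ih =>
    intro hiS x hx
    have hiS' : i ∉ S := fun h => hiS (Finset.mem_insert_of_mem h)
    have hit : i ≠ t := fun h => hiS (h ▸ Finset.mem_insert_self _ _)
    have htwo : ∀ y ∈ soE (E i), ∃ x ∈ 𝔥, pb P Q i x = y ∧ pb P Q t x = 0 := by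
      rcases ideal2 h hr i t with h1 | h1
      · exact (not_linked2 h hr (Ne.symm hit) h1).elim
      · exact h1
    let K : Submodule ℂ (Module.End ℂ H) := 𝔥 ⊓ ⨅ t' ∈ insert t S, LinearMap.ker (pb P Q t')
    have hK : ∀ y, y ∈ K ↔ y ∈ 𝔥 ∧ ∀ t' ∈ insert t S, pb P Q t' y = 0 := by
      intro y
      simp only [K, Submodule.mem_inf, Submodule.mem_iInf, LinearMap.mem_ker]
    have hle : Submodule.span ℂ {z | ∃ x ∈ soE (E i), ∃ y ∈ soE (E i), z = x * y - y * x} ≤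
        K.map (pb P Q i) := by
      refine Submodule.span_le.2 ?_
      rintro _ ⟨x1, hx1, x2, hx2, rfl⟩
      obtain ⟨y1, hy1, h1, h2⟩ := ih hiS' x1 hx1
      obtain ⟨y2, hy2, h3, h4⟩ := htwo x2 hx2
      refine ⟨y1 * y2 - y2 * y1, (hK _).2 ⟨h.br y1 hy1 y2 hy2, fun t' ht' => ?_⟩, ?_⟩
      · rcases Finset.mem_insert.1 ht' with h5 | h5
        · rw [h5, h.pb_br hy1 hy2, h4, mul_zero, zero_mul, sub_zero]
        · rw [h.pb_br hy1 hy2, h2 t' h5, mul_zero, zero_mul, sub_zero]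
      · rw [h.pb_br hy1 hy2, h1, h3]
    obtain ⟨y, hy, hyx⟩ := Submodule.mem_map.1 (hle (so_perfect (by have := hr i; omega) (h.ce i) hx))
    exact ⟨y, ((hK y).1 hy).1, hyx, ((hK y).1 hy).2⟩

/-- **Theorem.** A Lie subalgebra of a sum of orthogonal Lie algebras, which act on a sum of spin
representations, and which generates the same associative algebra, is everything. -/
theorem all2 : soB P Q E ≤ 𝔥 := by
  classical
  refine Submodule.span_le.2 ?_
  rintro _ ⟨i, a, b, hab, rfl⟩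
  obtain ⟨x, hx, h1, h2⟩ := ribet2 h hr (i := i) (Finset.univ.erase i)
    (Finset.notMem_erase _ _) _ (Submodule.subset_span ⟨a, b, hab, rfl⟩)
  have h3 := sum_ib h.dec (h.diag hx)
  rw [Finset.sum_eq_single i (fun t _ ht => by
    rw [h2 t (Finset.mem_erase.2 ⟨ht, Finset.mem_univ _⟩), map_zero])
    (fun h => absurd (Finset.mem_univ _) h), h1] at h3
  change ib P Q i (E i a * E i b) ∈ 𝔥
  rw [h3]
  exact hx

end Pool.Agent.NH25.PK

end
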