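import Pool.Agent.NH25.PK.Big

set_option autoImplicit false
set_option linter.unusedSectionVars false
set_option linter.unusedVariables false

/-!
# The orthogonal Lie algebra of size three
-/

open Module TensorProduct Matrix

noncomputable section

namespace Pool.Agent.NH25.PK

open Pool.Agent.Y102.SP Pool.Agent.R918.Sp

variable {U : Type} [AddCommGroup U] [Module ℂ U]

/-- the relations of the quaternions -/
structure Quat (X Y Z : Module.End ℂ U) : Prop where
  xx : X * X = -1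
  yy : Y * Y = -1
  zz : Z * Z = -1
  xy : X * Y = Z
  yx : Y * X = -Z
  yz : Y * Z = X
  zy : Z * Y = -X
  zx : Z * X = Y
  xz : X * Z = -Y

variable {E : Fin 3 → Module.End ℂ U}

theorem quat_of (hE : CE E) : Quat (E 0 * E 1) (E 1 * E 2) (E 0 * E 2) := by
  have h10 : E 1 * E 0 = -(E 0 * E 1) := hE.anti 1 0 (by decide)
  have h21 : E 2 * E 1 = -(E 1 * E 2) := hE.anti 2 1 (by decide)
  have h20 : E 2 * E 0 = -(E 0 * E 2) := hE.anti 2 0 (by decide)
  have s0 := hE.sq 0
  have s1 := hE.sq 1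
  have s2 := hE.sq 2
  have l0 : ∀ u, E 0 * (E 0 * u) = u := fun u => by rw [← mul_assoc, s0, one_mul]
  have l1 : ∀ u, E 1 * (E 1 * u) = u := fun u => by rw [← mul_assoc, s1, one_mul]
  have l2 : ∀ u, E 2 * (E 2 * u) = u := fun u => by rw [← mul_assoc, s2, one_mul]
  have c10 : ∀ u, E 1 * (E 0 * u) = -(E 0 * (E 1 * u)) := fun u => by
    rw [← mul_assoc, h10, neg_mul, mul_assoc]
  have c21 : ∀ u, E 2 * (E 1 * u) = -(E 1 * (E 2 * u)) := fun u => by
    rw [← mul_assoc, h21, neg_mul, mul_assoc]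
  have c20 : ∀ u, E 2 * (E 0 * u) = -(E 0 * (E 2 * u)) := fun u => by
    rw [← mul_assoc, h20, neg_mul, mul_assoc]
  constructor <;> simp only [mul_assoc, h10, h21, h20, c10, c21, c20, l0, l1, l2, s0, s1, s2,
    mul_neg, neg_neg, mul_one]

theorem mem_three (hE : CE E) {w : Module.End ℂ U} (hw : w ∈ soE E) :
    ∃ a b c : ℂ, w = a • (E 0 * E 1) + b • (E 1 * E 2) + c • (E 0 * E 2) := by
  have h10 : E 1 * E 0 = -(E 0 * E 1) := hE.anti 1 0 (by decide)
  have h21 : E 2 * E 1 = -(E 1 * E 2) := hE.anti 2 1 (by decide)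
  have h20 : E 2 * E 0 = -(E 0 * E 2) := hE.anti 2 0 (by decide)
  unfold soE at hw
  induction hw using Submodule.span_induction with
  | mem w hw =>
    obtain ⟨i, j, hij, rfl⟩ := hw
    fin_cases i <;> fin_cases j
    · exact absurd rfl hij
    · exact ⟨1, 0, 0, by simp⟩
    · exact ⟨0, 0, 1, by simp⟩
    · exact ⟨-1, 0, 0, by simp [h10]⟩
    · exact absurd rfl hij
    · exact ⟨0, 1, 0, by simp⟩
    · exact ⟨0, 0, -1, by simp [h20]⟩
    · exact ⟨0, -1, 0, by simp [h21]⟩
    · exact absurd rfl hij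
  | zero => exact ⟨0, 0, 0, by simp⟩
  | add x y _ _ hx hy =>
    obtain ⟨a, b, c, rfl⟩ := hx
    obtain ⟨a', b', c', rfl⟩ := hy
    exact ⟨a + a', b + b', c + c', by module⟩
  | smul t x _ hx =>
    obtain ⟨a, b, c, rfl⟩ := hx
    exact ⟨t * a, t * b, t * c, by module⟩

theorem three_mem (a b c : ℂ) :
    a • (E 0 * E 1) + b • (E 1 * E 2) + c • (E 0 * E 2) ∈ soE E := by
  refine Submodule.add_mem _ (Submodule.add_mem _ ?_ ?_) ?_
  · exact Submodule.smul_mem _ _ (Submodule.subset_span ⟨0, 1, by decide, rfl⟩)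
  · exact Submodule.smul_mem _ _ (Submodule.subset_span ⟨1, 2, by decide, rfl⟩)
  · exact Submodule.smul_mem _ _ (Submodule.subset_span ⟨0, 2, by decide, rfl⟩)

section quat

variable {X Y Z : Module.End ℂ U} (q : Quat X Y Z)
include q

theorem Quat.mul (a b c a' b' c' : ℂ) :
    (a • X + b • Y + c • Z) * (a' • X + b' • Y + c' • Z) =
      -(a * a' + b * b' + c * c') • (1 : Module.End ℂ U) + ((b * c' - c * b') • X +
        (c * a' - a * c') • Y + (a * b' - b * a') • Z) := by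
  simp only [add_mul, mul_add, smul_mul_assoc, mul_smul_comm, q.xx, q.yy, q.zz, q.xy, q.yx, q.yz,
    q.zy, q.zx, q.xz]
  module

theorem Quat.indep [Nontrivial U] {t a b c : ℂ}
    (h : t • (1 : Module.End ℂ U) + (a • X + b • Y + c • Z) = 0) : t = 0 ∧ a = 0 ∧ b = 0 ∧ c = 0 := by
  have h1 : (1 : Module.End ℂ U) ≠ 0 := one_ne_zero
  have key : ∀ {V : Module.End ℂ U} {s : ℂ}, V * V = -1 → s • V = 0 → s = 0 := by
    intro V s hV hs
    by_contra h2
    have h3 : V = 0 := (smul_eq_zero.1 hs).resolve_left h2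
    rw [h3, mul_zero] at hV
    exact h1 (neg_eq_zero.1 hV.symm)
  have hc : ∀ V : Module.End ℂ U, V * (a • X + b • Y + c • Z) - (a • X + b • Y + c • Z) * V = 0 := by
    intro V
    have h2 : a • X + b • Y + c • Z = -(t • (1 : Module.End ℂ U)) := eq_neg_of_add_eq_zero_right h
    rw [h2, mul_neg, neg_mul, mul_smul_comm, smul_mul_assoc, mul_one, one_mul, sub_self]
  have e1 : c • Y = b • Z := by
    have h2 := hc X
    have h3 := q.mul 1 0 0 a b c
    have h4 := q.mul a b c 1 0 0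
    simp only [one_smul, zero_smul, add_zero] at h3 h4
    rw [h3, h4] at h2
    have h5 : (2 : ℂ) • (b • Z - c • Y) = 0 := by
      rw [← h2]; module
    have h6 := (smul_eq_zero.1 h5).resolve_left two_ne_zero
    exact (sub_eq_zero.1 h6).symm
  have e2 : a • Z = c • X := by
    have h2 := hc Y
    have h3 := q.mul 0 1 0 a b c
    have h4 := q.mul a b c 0 1 0
    simp only [one_smul, zero_smul, add_zero, zero_add] at h3 h4
    rw [h3, h4] at h2
    have h5 : (2 : ℂ) • (c • X - a • Z) = 0 := by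
      rw [← h2]; module
    have h6 := (smul_eq_zero.1 h5).resolve_left two_ne_zero
    exact (sub_eq_zero.1 h6).symm
  -- multiply the relations
  have e3 : c = 0 := by
    have h2 := congrArg (fun T => X * T - T * X) e1
    simp only [mul_smul_comm, smul_mul_assoc, q.xy, q.yx, q.xz, q.zx] at h2
    have h3 : (2 : ℂ) • (c • Z + b • Y) = 0 := by
      have h4 : (2 : ℂ) • (c • Z + b • Y) = (c • Z - c • -Z) - (b • -Y - b • Y) := by module
      rw [h4, h2, sub_self]
    have h4 := (smul_eq_zero.1 h3).resolve_left two_ne_zero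
    have h5 := congrArg (fun T => Y * T - T * Y) h4
    simp only [mul_add, add_mul, mul_smul_comm, smul_mul_assoc, q.yz, q.zy, mul_zero, zero_mul,
      sub_self] at h5
    refine key q.xx (s := c) ?_
    have h6 : (2 : ℂ) • (c • X) = 0 := by rw [← h5]; module
    exact (smul_eq_zero.1 h6).resolve_left two_ne_zero
  have e4 : b = 0 := by
    rw [e3, zero_smul] at e1
    exact key q.zz e1.symm
  have e5 : a = 0 := by
    rw [e3, zero_smul] at e2
    exact key q.zz e2
  refine ⟨?_, e5, e4, e3⟩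
  rw [e3, e4, e5, zero_smul, zero_smul, zero_smul, add_zero, add_zero, add_zero] at h
  exact (smul_eq_zero.1 h).resolve_right h1

end quat

theorem sc_three [Nontrivial U] (hE : CE E) {t : ℂ} {w : Module.End ℂ U} (hw : w ∈ soE E)
    (h : t • (1 : Module.End ℂ U) + w = 0) : t = 0 ∧ w = 0 := by
  obtain ⟨a, b, c, rfl⟩ := mem_three hE hw
  obtain ⟨h1, h2, h3, h4⟩ := (quat_of hE).indep h
  refine ⟨h1, ?_⟩
  rw [h2, h3, h4]
  simp

/-- The anticommutators are scalars. -/
theorem anti_three (hE : CE E) {u v : Module.End ℂ U} (hu : u ∈ soE E) (hv : v ∈ soE E) :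
    ∃ s : ℂ, u * v + v * u = s • 1 := by
  obtain ⟨a, b, c, rfl⟩ := mem_three hE hu
  obtain ⟨a', b', c', rfl⟩ := mem_three hE hv
  refine ⟨-2 * (a * a' + b * b' + c * c'), ?_⟩
  rw [(quat_of hE).mul, (quat_of hE).mul]
  module

/-- Ideals. -/
theorem simple_three (hE : CE E) (J : Submodule ℂ (Module.End ℂ U)) (hJ : J ≤ soE E)
    (hbr : ∀ x ∈ soE E, ∀ y ∈ J, x * y - y * x ∈ J) : J = ⊥ ∨ J = soE E := by
  have q := quat_of hE
  obtain ⟨X, hX⟩ : ∃ X, X = E 0 * E 1 := ⟨_, rfl⟩
  obtain ⟨Y, hY⟩ : ∃ Y, Y = E 1 * E 2 := ⟨_, rfl⟩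
  obtain ⟨Z, hZ⟩ : ∃ Z, Z = E 0 * E 2 := ⟨_, rfl⟩
  have hw : ∀ w ∈ soE E, ∃ a b c : ℂ, w = a • X + b • Y + c • Z := by
    intro w hw
    rw [hX, hY, hZ]
    exact mem_three hE hw
  have hm : ∀ a b c : ℂ, a • X + b • Y + c • Z ∈ soE E := by
    intro a b c
    rw [hX, hY, hZ]
    exact three_mem a b c
  rw [← hX, ← hY, ← hZ] at q
  have hXm : X ∈ soE E := by have := hm 1 0 0; simpa using this
  have hYm : Y ∈ soE E := by have := hm 0 1 0; simpa using this
  have hZm : Z ∈ soE E := by have := hm 0 0 1; simpa using this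
  by_cases h0 : J = ⊥
  · exact Or.inl h0
  right
  obtain ⟨w, hwJ, hw0⟩ := (Submodule.ne_bot_iff J).1 h0
  obtain ⟨a, b, c, rfl⟩ := hw w (hJ hwJ)
  have all_of : X ∈ J → Y ∈ J → Z ∈ J → J = soE E := by
    intro h1 h2 h3
    refine le_antisymm hJ fun v hv => ?_
    obtain ⟨a', b', c', rfl⟩ := hw v hv
    exact J.add_mem (J.add_mem (J.smul_mem _ h1) (J.smul_mem _ h2)) (J.smul_mem _ h3)
  have half : ∀ {T : Module.End ℂ U}, (2 : ℂ) • T ∈ J → T ∈ J := by
    intro T hT
    have h1 := J.smul_mem (2⁻¹ : ℂ) hT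
    rwa [smul_smul, inv_mul_cancel₀ two_ne_zero, one_smul] at h1
  have fromX : X ∈ J → J = soE E := by
    intro h1
    have h2 := hbr Y hYm X h1
    rw [q.yx, q.xy] at h2
    have h3 : Z ∈ J := by
      refine half ?_
      have h4 := J.neg_mem h2
      have h5 : -(-Z - Z) = (2 : ℂ) • Z := by module
      rwa [h5] at h4
    have h6 := hbr Z hZm X h1
    rw [q.zx, q.xz] at h6
    have h7 : Y ∈ J := by
      refine half ?_
      have h5 : Y - -Y = (2 : ℂ) • Y := by module
      rwa [h5] at h6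
    exact all_of h1 h7 h3
  have fromY : Y ∈ J → J = soE E := by
    intro h1
    have h2 := hbr Z hZm Y h1
    rw [q.zy, q.yz] at h2
    refine fromX (half ?_)
    have h4 := J.neg_mem h2
    have h5 : -(-X - X) = (2 : ℂ) • X := by module
    rwa [h5] at h4
  have fromZ : Z ∈ J → J = soE E := by
    intro h1
    have h2 := hbr Y hYm Z h1
    rw [q.yz, q.zy] at h2
    refine fromX (half ?_)
    have h5 : X - -X = (2 : ℂ) • X := by module
    rwa [h5] at h2
  have b2 : ∀ V ∈ soE E, V * (V * (a • X + b • Y + c • Z) - (a • X + b • Y + c • Z) * V) -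
      (V * (a • X + b • Y + c • Z) - (a • X + b • Y + c • Z) * V) * V ∈ J := fun V hV =>
    hbr V hV _ (hbr V hV _ hwJ)
  by_cases ha : a = 0
  swap
  · refine fromX ?_
    have h1 := J.add_mem hwJ (J.smul_mem (4⁻¹ : ℂ) (b2 X hXm))
    have h2 : a • X + b • Y + c • Z + (4⁻¹ : ℂ) • (X * (X * (a • X + b • Y + c • Z) -
        (a • X + b • Y + c • Z) * X) - (X * (a • X + b • Y + c • Z) -
        (a • X + b • Y + c • Z) * X) * X) = a • X := by
      simp only [mul_add, add_mul, mul_sub, sub_mul, mul_smul_comm, smul_mul_assoc, q.xx, q.xy,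
        q.xz, q.yx, q.zx, mul_neg, neg_mul, mul_one, one_mul, smul_neg]
      module
    rw [h2] at h1
    have h3 := J.smul_mem a⁻¹ h1
    rwa [smul_smul, inv_mul_cancel₀ ha, one_smul] at h3
  by_cases hb : b = 0
  swap
  · refine fromY ?_
    have h1 := J.add_mem hwJ (J.smul_mem (4⁻¹ : ℂ) (b2 Y hYm))
    have h2 : a • X + b • Y + c • Z + (4⁻¹ : ℂ) • (Y * (Y * (a • X + b • Y + c • Z) -
        (a • X + b • Y + c • Z) * Y) - (Y * (a • X + b • Y + c • Z) -
        (a • X + b • Y + c • Z) * Y) * Y) = b • Y := by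
      simp only [mul_add, add_mul, mul_sub, sub_mul, mul_smul_comm, smul_mul_assoc, q.yy, q.xy,
        q.yz, q.yx, q.zy, mul_neg, neg_mul, mul_one, one_mul, smul_neg]
      module
    rw [h2] at h1
    have h3 := J.smul_mem b⁻¹ h1
    rwa [smul_smul, inv_mul_cancel₀ hb, one_smul] at h3
  · refine fromZ ?_
    rw [ha, hb, zero_smul, zero_smul, zero_add, zero_add] at hwJ hw0
    have hc : c ≠ 0 := fun h => hw0 (by rw [h, zero_smul])
    have h3 := J.smul_mem c⁻¹ hwJ
    rwa [smul_smul, inv_mul_cancel₀ hc, one_smul] at h3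

/-- A subalgebra which generates the same associative algebra is everything. -/
theorem main_three [Nontrivial U] (hE : CE E) (𝔭 : Submodule ℂ (Module.End ℂ U)) (hle : 𝔭 ≤ soE E)
    (hbr : ∀ x ∈ 𝔭, ∀ y ∈ 𝔭, x * y - y * x ∈ 𝔭)
    (hgen : ∀ a b, a ≠ b → E a * E b ∈ Algebra.adjoin ℂ (𝔭 : Set (Module.End ℂ U))) :
    soE E ≤ 𝔭 := by
  have key : ∀ x ∈ Algebra.adjoin ℂ (𝔭 : Set (Module.End ℂ U)), ∃ (c : ℂ), ∃ p ∈ 𝔭,
      x = c • (1 : Module.End ℂ U) + p := by
    intro x hx
    induction hx using Algebra.adjoin_induction with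
    | mem x hx => exact ⟨0, x, hx, by rw [zero_smul, zero_add]⟩
    | algebraMap c => exact ⟨c, 0, 𝔭.zero_mem, by rw [Algebra.algebraMap_eq_smul_one, add_zero]⟩
    | add x y _ _ hx hy =>
      obtain ⟨c, p, hp, rfl⟩ := hx
      obtain ⟨c', p', hp', rfl⟩ := hy
      exact ⟨c + c', p + p', 𝔭.add_mem hp hp', by module⟩
    | mul x y _ _ hx hy =>
      obtain ⟨c, p, hp, rfl⟩ := hx
      obtain ⟨c', p', hp', rfl⟩ := hy
      obtain ⟨s, hs⟩ := anti_three hE (hle hp) (hle hp')
      refine ⟨c * c' + s / 2, c • p' + c' • p + (2⁻¹ : ℂ) • (p * p' - p' * p),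
        𝔭.add_mem (𝔭.add_mem (𝔭.smul_mem _ hp') (𝔭.smul_mem _ hp)) (𝔭.smul_mem _ (hbr p hp p' hp')),
        ?_⟩
      have h1 : p * p' = (2⁻¹ : ℂ) • (p * p' + p' * p) + (2⁻¹ : ℂ) • (p * p' - p' * p) := by module
      rw [hs] at h1
      have h2 : (c • (1 : Module.End ℂ U) + p) * (c' • (1 : Module.End ℂ U) + p') =
          (c * c') • (1 : Module.End ℂ U) + c • p' + c' • p + p * p' := by
        simp only [add_mul, mul_add, smul_mul_assoc, mul_smul_comm, one_mul, mul_one]
        module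
      rw [h2]
      conv_lhs => rw [h1]
      module
  refine Submodule.span_le.2 ?_
  rintro _ ⟨a, b, hab, rfl⟩
  obtain ⟨c, p, hp, h1⟩ := key _ (hgen a b hab)
  have h2 : c • (1 : Module.End ℂ U) + (p - E a * E b) = 0 := by rw [h1]; abel
  have h3 := sc_three hE (Submodule.sub_mem _ (hle hp) (Submodule.subset_span ⟨a, b, hab, rfl⟩)) h2
  change E a * E b ∈ 𝔭
  rw [← sub_eq_zero.1 h3.2]
  exact hp

/-- the dimension -/
theorem dim_three (hE : CE E) : finrank ℂ (soE E) ≤ 3 := by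
  let F : (Fin 3 → ℂ) →ₗ[ℂ] Module.End ℂ U :=
    { toFun := fun v => v 0 • (E 0 * E 1) + v 1 • (E 1 * E 2) + v 2 • (E 0 * E 2)
      map_add' := fun v w => by simp only [Pi.add_apply]; module
      map_smul' := fun c v => by simp only [Pi.smul_apply, smul_eq_mul, RingHom.id_apply]; module }
  have h1 : soE E ≤ LinearMap.range F := by
    intro w hw
    obtain ⟨a, b, c, rfl⟩ := mem_three hE hw
    exact ⟨![a, b, c], rfl⟩
  have h2 := Submodule.finrank_mono h1
  have h3 := LinearMap.finrank_range_le F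
  rw [Module.finrank_fin_fun] at h3
  exact h2.trans h3

end Pool.Agent.NH25.PK

end
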