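import Pool.Agent.R918.SpE

set_option autoImplicit false
set_option linter.unusedSectionVars false
set_option linter.unusedVariables false

/-!
# Triality: the images of decomposable elements under an automorphism of `so(8)`
-/

open Module Matrix

noncomputable section

namespace Pool.Agent.NH25.PK

open Pool.Agent.Y102.SP Pool.Agent.R918.Sp

/-- The trace identity for skew matrices, with a weight. -/
theorem contrW {s : ℕ} {f : Matrix (Fin s) (Fin s) ℂ}
    (h : ∀ A : Matrix (Fin s) (Fin s) ℂ, Aᵀ = -A →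
      f * f * f * A - (3 : ℂ) • (f * f * A * f) + (3 : ℂ) • (f * A * (f * f)) - A * (f * f * f) =
        -(f * A - A * f)) (W : Matrix (Fin s) (Fin s) ℂ) (p u : Fin s) :
    ((f * f * f) p u * W.trace - (f * f * f * Wᵀ) p u) -
      3 * ((f * f) p u * (f * W).trace - (f * f * (f * W)ᵀ) p u) +
      3 * (f p u * (f * f * W).trace - (f * (f * f * W)ᵀ) p u) -
      ((1 : Matrix (Fin s) (Fin s) ℂ) p u * (f * f * f * W).trace - ((f * f * f * W)ᵀ) p u) +
      (f p u * W.trace - (f * Wᵀ) p u) -
      ((1 : Matrix (Fin s) (Fin s) ℂ) p u * (f * W).trace - ((f * W)ᵀ) p u) = 0 := by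
  have h1 : ∀ i, (f * f * f * gg u i * W) p i - 3 * (f * f * gg u i * (f * W)) p i +
      3 * (f * gg u i * (f * f * W)) p i -
      ((1 : Matrix (Fin s) (Fin s) ℂ) * gg u i * (f * f * f * W)) p i +
      (f * gg u i * W) p i - ((1 : Matrix (Fin s) (Fin s) ℂ) * gg u i * (f * W)) p i = 0 := by
    intro i
    have h2 := congrArg (fun M : Matrix (Fin s) (Fin s) ℂ => (M * W) p i) (h _ (gg_skew u i))
    simp only [Matrix.sub_mul, Matrix.add_mul, Matrix.neg_mul, Matrix.smul_mul] at h2
    simp only [Matrix.sub_apply, Matrix.add_apply, Matrix.neg_apply, Matrix.smul_apply,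
      smul_eq_mul, Matrix.mul_assoc] at h2
    simp only [Matrix.one_mul, Matrix.mul_assoc]
    linear_combination h2
  have h3 := Finset.sum_congr (rfl : (Finset.univ : Finset (Fin s)) = Finset.univ)
    fun i _ => h1 i
  simp only [Finset.sum_sub_distrib, Finset.sum_add_distrib, ← Finset.mul_sum, contr,
    Finset.sum_const_zero] at h3
  simp only [Matrix.one_mul] at h3
  exact h3

/-- **Dichotomy** -/
theorem dich {f : Matrix (Fin 8) (Fin 8) ℂ} (hf : fᵀ = -f)
    (h : ∀ A : Matrix (Fin 8) (Fin 8) ℂ, Aᵀ = -A →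
      f * f * f * A - (3 : ℂ) • (f * f * A * f) + (3 : ℂ) • (f * A * (f * f)) - A * (f * f * f) =
        -(f * A - A * f)) (ht : (f * f).trace = -2) :
    f * f * f = -f ∨ (4 : ℂ) • (f * f) = -1 := by
  have e2 : (f * f)ᵀ = f * f := by
    rw [Matrix.transpose_mul, hf]
    simp
  have e3 : (f * f * f)ᵀ = -(f * f * f) := by
    rw [Matrix.transpose_mul, e2, hf, Matrix.neg_mul, Matrix.mul_assoc]
  have e4 : (f * f * f * f)ᵀ = f * f * f * f := by
    rw [Matrix.transpose_mul, e3, hf, neg_mul_neg, ← Matrix.mul_assoc, ← Matrix.mul_assoc]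
  have e5 : (f * f * f * f * f)ᵀ = -(f * f * f * f * f) := by
    rw [Matrix.transpose_mul, e4, hf, Matrix.neg_mul]
    simp only [Matrix.mul_assoc]
  have t1 := trace_skew hf
  have t3 := trace_skew e3
  have t5 := trace_skew e5
  set t4 : ℂ := (f * f * f * f).trace with ht4
  have hA : (8 : ℂ) • (f * f * f * f) + (8 : ℂ) • (f * f) = (t4 - 2) • 1 := by
    ext p u
    have h1 := contrW h f p u
    have a1 : f * f * f * fᵀ = -(f * f * f * f) := by rw [hf, Matrix.mul_neg]
    have a2 : f * f * (f * f)ᵀ = f * f * f * f := by rw [e2]; simp only [Matrix.mul_assoc]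
    have a3 : f * (f * f * f)ᵀ = -(f * f * f * f) := by
      rw [e3, Matrix.mul_neg]; simp only [Matrix.mul_assoc]
    have a4 : f * fᵀ = -(f * f) := by rw [hf, Matrix.mul_neg]
    rw [a1, a2, a3, a4, e4, e2, t1, t3, ht, ← ht4] at h1
    simp only [Matrix.neg_apply] at h1
    simp only [Matrix.add_apply, Matrix.smul_apply, smul_eq_mul]
    linear_combination h1
  have hB : (8 : ℂ) • (f * f * f * f * f) + (4 : ℂ) • (f * f * f) = (3 * t4 - 2) • f := by
    ext p u
    have h1 := contrW h (f * f) p u
    have b1 : f * (f * f) = f * f * f := (Matrix.mul_assoc _ _ _).symm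
    have b2 : f * f * (f * f) = f * f * f * f := by simp only [Matrix.mul_assoc]
    have b3 : f * f * f * (f * f) = f * f * f * f * f := by simp only [Matrix.mul_assoc]
    have b4 : f * f * (f * f * f) = f * f * f * f * f := by simp only [Matrix.mul_assoc]
    have b5 : f * (f * f * f * f) = f * f * f * f * f := by simp only [Matrix.mul_assoc]
    rw [b1, b2, b3, e2, e3, e5, e4, Matrix.mul_neg, b3, b4, b5, b1, t3, t5, ht, ← ht4] at h1
    simp only [Matrix.neg_apply] at h1
    simp only [Matrix.add_apply, Matrix.smul_apply, smul_eq_mul]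
    linear_combination -h1
  have hC : f * f * f = -(t4 / 2) • f := by
    have h1 : (8 : ℂ) • (f * f * f * f * f) + (8 : ℂ) • (f * f * f) = (t4 - 2) • f := by
      have h2 := congrArg (fun M => M * f) hA
      simp only [Matrix.add_mul, Matrix.smul_mul, Matrix.one_mul] at h2
      exact h2
    have h3 : (4 : ℂ) • (f * f * f) = (4 : ℂ) • (-(t4 / 2) • f) := by
      have h4 : (4 : ℂ) • (f * f * f) = ((8 : ℂ) • (f * f * f * f * f) + (8 : ℂ) • (f * f * f)) -
          ((8 : ℂ) • (f * f * f * f * f) + (4 : ℂ) • (f * f * f)) := by module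
      rw [h4, h1, hB]
      module
    exact smul_right_injective _ (by norm_num : (4 : ℂ) ≠ 0) h3
  have hD : (2 - t4) • ((4 : ℂ) • (f * f) + 1) = 0 := by
    have h1 : f * f * f * f = -(t4 / 2) • (f * f) := by
      have h2 := congrArg (fun M => M * f) hC
      simp only [Matrix.smul_mul] at h2
      exact h2
    rw [h1] at hA
    have h3 : (2 - t4) • ((4 : ℂ) • (f * f) + 1) =
        ((8 : ℂ) • (-(t4 / 2) • (f * f)) + (8 : ℂ) • (f * f)) - (t4 - 2) • 1 := by module
    rw [h3, hA, sub_self]
  rcases smul_eq_zero.1 hD with h1 | h1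
  · left
    have h2 : t4 = 2 := by linear_combination -h1
    rw [hC, h2]
    module
  · right
    exact eq_neg_of_add_eq_zero_left h1

end Pool.Agent.NH25.PK

end
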