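import Pool.Agent.R918.SpE

set_option autoImplicit false
set_option linter.unusedSectionVars false
set_option linter.unusedVariables false

/-!
# Triality: complex structures and half-spin representations
-/

open Module Matrix

noncomputable section

namespace Pool.Agent.NH25.PK

open Pool.Agent.Y102.SP Pool.Agent.R918.Sp

section frames

variable {G : Matrix (Fin 8) (Fin 8) ℂ}

theorem dot_G (hG : Gᵀ = -G) (x y : Fin 8 → ℂ) : x ⬝ᵥ (G *ᵥ y) = -((G *ᵥ x) ⬝ᵥ y) := by
  rw [Matrix.dotProduct_mulVec, ← Matrix.mulVec_transpose, hG, Matrix.neg_mulVec,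
    neg_dotProduct]

theorem dot_G_self (hG : Gᵀ = -G) (x : Fin 8 → ℂ) : x ⬝ᵥ (G *ᵥ x) = 0 := by
  have h1 := dot_G hG x x
  rw [dotProduct_comm (G *ᵥ x) x] at h1
  have h2 : (2 : ℂ) * (x ⬝ᵥ (G *ᵥ x)) = 0 := by linear_combination h1
  exact (mul_eq_zero.1 h2).resolve_left two_ne_zero

theorem dot_GG (hG : Gᵀ = -G) (hGG : G * G = -1) (x y : Fin 8 → ℂ) :
    (G *ᵥ x) ⬝ᵥ (G *ᵥ y) = x ⬝ᵥ y := by
  have h1 := dot_G hG x (G *ᵥ y)
  rw [Matrix.mulVec_mulVec, hGG, Matrix.neg_mulVec, Matrix.one_mulVec, dotProduct_neg] at h1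
  linear_combination h1

/-- a partial adapted frame -/
def Fr (G : Matrix (Fin 8) (Fin 8) ℂ) {k : ℕ} (v : Fin k → Fin 8 → ℂ) : Prop :=
  (∀ i j, v i ⬝ᵥ v j = if i = j then 1 else 0) ∧ ∀ i j, v i ⬝ᵥ (G *ᵥ v j) = 0

theorem fr_step (hG : Gᵀ = -G) (hGG : G * G = -1) {k : ℕ} (hk : k < 4) {v : Fin k → Fin 8 → ℂ}
    (hv : Fr G v) : ∃ x : Fin 8 → ℂ, x ⬝ᵥ x = 1 ∧ (∀ i, x ⬝ᵥ v i = 0) ∧
      ∀ i, x ⬝ᵥ (G *ᵥ v i) = 0 := by
  obtain ⟨h1, h2⟩ := hv
  -- the orthogonal space
  let L : (Fin 8 → ℂ) →ₗ[ℂ] (Fin k ⊕ Fin k → ℂ) :=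
    { toFun := fun x => Sum.elim (fun i => x ⬝ᵥ v i) (fun i => x ⬝ᵥ (G *ᵥ v i))
      map_add' := fun x y => by
        funext i
        rcases i with i | i <;> simp [add_dotProduct]
      map_smul' := fun c x => by
        funext i
        rcases i with i | i <;> simp [smul_dotProduct] }
  have hL : ∀ x, L x = 0 ↔ (∀ i, x ⬝ᵥ v i = 0) ∧ ∀ i, x ⬝ᵥ (G *ᵥ v i) = 0 := by
    intro x
    constructor
    · intro h
      exact ⟨fun i => congrFun h (Sum.inl i), fun i => congrFun h (Sum.inr i)⟩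
    · rintro ⟨h3, h4⟩
      funext i
      rcases i with i | i
      · exact h3 i
      · exact h4 i
  have hker : LinearMap.ker L ≠ ⊥ := by
    refine LinearMap.ker_ne_bot_of_finrank_lt ?_
    rw [Module.finrank_fintype_fun_eq_card, Module.finrank_fintype_fun_eq_card, Fintype.card_sum,
      Fintype.card_fin, Fintype.card_fin]
    omega
  obtain ⟨x, hx, hx0⟩ := Submodule.exists_mem_ne_zero_of_ne_bot hker
  -- a vector which is not isotropic
  obtain ⟨y, hy, hyy⟩ : ∃ y, L y = 0 ∧ y ⬝ᵥ y ≠ 0 := by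
    by_contra hcon
    push Not at hcon
    have hiso : ∀ y z, L y = 0 → L z = 0 → y ⬝ᵥ z = 0 := by
      intro y z hy hz
      have e1 := hcon (y + z) (by rw [map_add, hy, hz, add_zero])
      rw [add_dotProduct, dotProduct_add, dotProduct_add, hcon y hy, hcon z hz,
        dotProduct_comm z y] at e1
      have e2 : (2 : ℂ) * (y ⬝ᵥ z) = 0 := by linear_combination e1
      exact (mul_eq_zero.1 e2).resolve_left two_ne_zero
    apply hx0
    have hxk := (hL x).1 (LinearMap.mem_ker.1 hx)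
    have hall : ∀ z : Fin 8 → ℂ, x ⬝ᵥ z = 0 := by
      intro z
      let z' : Fin 8 → ℂ := z - ∑ i, (z ⬝ᵥ v i) • v i - ∑ i, (z ⬝ᵥ (G *ᵥ v i)) • (G *ᵥ v i)
      have hz' : L z' = 0 := by
        refine (hL _).2 ⟨fun j => ?_, fun j => ?_⟩
        · rw [sub_dotProduct, sub_dotProduct, sum_dotProduct, sum_dotProduct,
            Finset.sum_eq_single j, Finset.sum_eq_zero, smul_dotProduct, h1, if_pos rfl,
            smul_eq_mul, mul_one, sub_self, sub_zero]
          · intro i _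
            rw [smul_dotProduct, dotProduct_comm (G *ᵥ v i) (v j), h2, smul_zero]
          · intro i _ hij
            rw [smul_dotProduct, h1, if_neg hij, smul_zero]
          · intro h; exact absurd (Finset.mem_univ _) h
        · rw [sub_dotProduct, sub_dotProduct, sum_dotProduct, sum_dotProduct,
            Finset.sum_eq_zero, Finset.sum_eq_single j, smul_dotProduct, dot_GG hG hGG, h1,
            if_pos rfl, smul_eq_mul, mul_one, sub_zero, sub_self]
          · intro i _ hij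
            rw [smul_dotProduct, dot_GG hG hGG, h1, if_neg hij, smul_zero]
          · intro h; exact absurd (Finset.mem_univ _) h
          · intro i _
            rw [smul_dotProduct, h2, smul_zero]
      have e1 := hiso x z' (LinearMap.mem_ker.1 hx) hz'
      have e2 : x ⬝ᵥ z' = x ⬝ᵥ z := by
        change x ⬝ᵥ (z - ∑ i, (z ⬝ᵥ v i) • v i - ∑ i, (z ⬝ᵥ (G *ᵥ v i)) • (G *ᵥ v i)) = _
        rw [dotProduct_sub, dotProduct_sub, dotProduct_sum, dotProduct_sum,
          Finset.sum_eq_zero, Finset.sum_eq_zero, sub_zero, sub_zero]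
        · intro i _
          rw [dotProduct_smul, hxk.2, smul_zero]
        · intro i _
          rw [dotProduct_smul, hxk.1, smul_zero]
      rw [← e2]
      exact e1
    funext j
    have := hall (Pi.single j 1)
    rwa [dotProduct_single, mul_one] at this
  obtain ⟨c, hc⟩ := IsAlgClosed.exists_pow_nat_eq ((y ⬝ᵥ y)⁻¹) (n := 2) (by norm_num)
  obtain ⟨h3, h4⟩ := (hL y).1 hy
  refine ⟨c • y, ?_, fun i => ?_, fun i => ?_⟩
  · rw [smul_dotProduct, dotProduct_smul, smul_smul, ← pow_two, hc, smul_eq_mul,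
      inv_mul_cancel₀ hyy]
  · rw [smul_dotProduct, h3, smul_zero]
  · rw [smul_dotProduct, h4, smul_zero]

theorem exists_fr (hG : Gᵀ = -G) (hGG : G * G = -1) : ∀ k ≤ 4, ∃ v : Fin k → Fin 8 → ℂ, Fr G v := by
  intro k
  induction k with
  | zero => exact fun _ => ⟨fun i => i.elim0, fun i => i.elim0, fun i => i.elim0⟩
  | succ k ih =>
    intro hk
    obtain ⟨v, hv⟩ := ih (by omega)
    obtain ⟨x, hx, h1, h2⟩ := fr_step hG hGG (by omega) hv
    refine ⟨Fin.cons x v, fun i j => ?_, fun i j => ?_⟩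
    · refine Fin.cases ?_ (fun i => ?_) i <;> refine Fin.cases ?_ (fun j => ?_) j
      · rw [Fin.cons_zero, hx, if_pos rfl]
      · rw [Fin.cons_zero, Fin.cons_succ, h1, if_neg (Fin.succ_ne_zero j).symm]
      · rw [Fin.cons_zero, Fin.cons_succ, dotProduct_comm, h1, if_neg (Fin.succ_ne_zero i)]
      · rw [Fin.cons_succ, Fin.cons_succ, hv.1]
        by_cases hij : i = j
        · rw [if_pos hij, if_pos (by rw [hij])]
        · rw [if_neg hij, if_neg (fun h => hij (Fin.succ_injective _ h))]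
    · refine Fin.cases ?_ (fun i => ?_) i <;> refine Fin.cases ?_ (fun j => ?_) j
      · rw [Fin.cons_zero]
        exact dot_G_self hG x
      · rw [Fin.cons_zero, Fin.cons_succ, h2]
      · rw [Fin.cons_zero, Fin.cons_succ, dot_G hG, dotProduct_comm, h2, neg_zero]
      · rw [Fin.cons_succ, Fin.cons_succ, hv.2]

end frames

section cliff

variable {U : Type} [AddCommGroup U] [Module ℂ U] {E : Fin 8 → Module.End ℂ U}

/-- vectors in the Clifford algebra -/
def cv (E : Fin 8 → Module.End ℂ U) (u : Fin 8 → ℂ) : Module.End ℂ U := ∑ i, u i • E i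

theorem cv_mul (u v : Fin 8 → ℂ) : cv E u * cv E v = ∑ i, ∑ j, (u i * v j) • (E i * E j) := by
  unfold cv
  rw [Finset.sum_mul]
  refine Finset.sum_congr rfl fun i _ => ?_
  rw [Finset.mul_sum]
  refine Finset.sum_congr rfl fun j _ => ?_
  rw [smul_mul_smul_comm]

theorem cv_anti (hE : CE E) (u v : Fin 8 → ℂ) :
    cv E u * cv E v + cv E v * cv E u = (2 * (u ⬝ᵥ v)) • (1 : Module.End ℂ U) := by
  have e2 : cv E v * cv E u = ∑ i, ∑ j, (u i * v j) • (E j * E i) := by
    rw [cv_mul, Finset.sum_comm]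
    refine Finset.sum_congr rfl fun i _ => Finset.sum_congr rfl fun j _ => ?_
    rw [mul_comm (v j)]
  rw [cv_mul, e2, ← Finset.sum_add_distrib, dotProduct, Finset.mul_sum, Finset.sum_smul]
  refine Finset.sum_congr rfl fun i _ => ?_
  rw [← Finset.sum_add_distrib, Finset.sum_eq_single i]
  · rw [← smul_add, anti_all hE, if_pos rfl, smul_smul]
    congr 1
    ring
  · intro j _ hj
    rw [← smul_add, anti_all hE, if_neg (Ne.symm hj), zero_smul, smul_zero]
  · intro h; exact absurd (Finset.mem_univ _) h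

theorem cv_sq (hE : CE E) {u : Fin 8 → ℂ} (hu : u ⬝ᵥ u = 1) : cv E u * cv E u = 1 := by
  have h1 := cv_anti hE u u
  rw [hu, mul_one, ← two_smul ℂ (cv E u * cv E u)] at h1
  exact smul_right_injective _ (two_ne_zero (α := ℂ)) h1

theorem cv_perp (hE : CE E) {u v : Fin 8 → ℂ} (huv : u ⬝ᵥ v = 0) :
    cv E u * cv E v = -(cv E v * cv E u) := by
  have h1 := cv_anti hE u v
  rw [huv, mul_zero, zero_smul] at h1
  exact eq_neg_of_add_eq_zero_left h1

end cliff

end Pool.Agent.NH25.PK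

end
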