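import Pool.Agent.NH25.PK.Big
import Pool.Agent.R917.DT.Rig

set_option autoImplicit false
set_option linter.unusedSectionVars false
set_option linter.unusedVariables false

/-!
# Products of an abelian variety with small blocks and an abelian variety of spin type
-/

open Module Function TensorProduct Matrix

noncomputable section

namespace Pool.Agent.NH25.PK

open Pool.Agent.Y102 Pool.Agent.W516.DR Pool.Agent.H204R3.GP Pool.Agent.W516.KC
  Pool.Agent.H204R3.SP Pool.Agent.TH119.MX Pool.Agent.R917.OM Pool.Agent.Y102.AbVar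
  Pool.Agent.R917.EC Pool.Agent.R917.DT Pool.Agent.R918.Sp

open Pool.Agent.Y102.SP (CE soE)

variable {g g₁ g₂ : ℕ} {A : AbVar g} {B : AbVar g₁} {C : AbVar g₂}
  {𝔥 : Submodule ℚ (Module.End ℚ A.H1)}

section fac

variable {f : B.H1 →ₗ[ℚ] A.H1} {p : A.H1 →ₗ[ℚ] B.H1}

/-- The image of a full algebra is full. -/
theorem im_full (h : Fac B A f p) (hF : A.Full 𝔥) : B.Full (𝔥.map (rs f p)) where
  le := by
    rintro _ ⟨X, hX, rfl⟩
    exact h.rs_NA (hF.le hX)
  br := by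
    rintro _ ⟨X, hX, rfl⟩ _ ⟨Y, hY, rfl⟩
    refine ⟨X * Y - Y * X, hF.br X hX Y hY, ?_⟩
    rw [map_sub, h.rs_mul (hF.le hY), h.rs_mul (hF.le hX)]
  semi := by
    intro U hU
    obtain ⟨U', h1, h2⟩ := hF.semi (U.map f) (by
      rintro X hX _ ⟨u, hu, rfl⟩
      refine ⟨rs f p X u, hU _ (Submodule.mem_map_of_mem hX) u hu, ?_⟩
      exact h.fix (hF.le hX) u)
    refine ⟨U'.comap f, ?_, ?_⟩
    · rintro _ ⟨X, hX, rfl⟩ u hu
      change f (rs f p X u) ∈ U'
      rw [rs_apply, h.fix (hF.le hX)]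
      exact h1 X hX _ hu
    · rw [isCompl_iff]
      constructor
      · rw [Submodule.disjoint_def]
        intro u hu hu'
        have h3 := (Submodule.disjoint_def.1 h2.disjoint) (f u) (Submodule.mem_map_of_mem hu) hu'
        rw [← h.pf u, h3, map_zero]
      · rw [codisjoint_iff, eq_top_iff]
        intro w _
        have h3 : f w ∈ U.map f ⊔ U' := by
          rw [h2.sup_eq_top]
          exact Submodule.mem_top
        obtain ⟨_, ⟨u, hu, rfl⟩, u', hu', h4⟩ := Submodule.mem_sup.1 h3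
        refine Submodule.mem_sup.2 ⟨u, hu, w - u, ?_, by abel⟩
        change f (w - u) ∈ U'
        rw [map_sub, ← h4, add_sub_cancel_left]
        exact hu'
  comm := by
    intro P hP
    have h1 : ∀ X ∈ A.NA, X * (f.comp (P.comp p)) = (f.comp (P.comp p)) * X := by
      refine hF.comm _ fun X hX => ?_
      have h2 := hP _ (Submodule.mem_map_of_mem (f := rs f p) hX)
      have h3 : ∀ w, p (X w) = rs f p X (p w) := by
        intro w
        have h4 := congrArg (fun T : Module.End ℚ A.H1 => p (T w)) (A.NA_comm (hF.le hX) h.mem_EA)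
        change p (X (f (p w))) = p (f (p (X w))) at h4
        rw [h.pf] at h4
        exact h4.symm
      refine LinearMap.ext fun w => ?_
      change X (f (P (p w))) = f (P (p (X w)))
      rw [h3, ← h.fix (hF.le hX)]
      congr 1
      exact congrArg (fun T : Module.End ℚ B.H1 => T (p w)) h2
    have h2 : B.Full (A.NA.map (rs f p)) := by
      refine Pool.Agent.R917.full_of_X0 B ?_ ?_ fun D lam => ?_
      · rintro _ ⟨X, hX, rfl⟩
        exact h.rs_NA hX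
      · rintro _ ⟨X, hX, rfl⟩ _ ⟨Y, hY, rfl⟩
        refine ⟨X * Y - Y * X, A.NA_bracket hX hY, ?_⟩
        rw [map_sub, h.rs_mul hY, h.rs_mul hX]
      · refine ⟨X0 A.basis tau D lam, A.LA_le_NA ?_, h.rs_X0 D lam⟩
        rw [AbVar.LA_eq]
        exact X0_mem A.basis AbVar.tau_ne D lam
    refine h2.comm P ?_
    rintro _ ⟨X, hX, rfl⟩
    refine LinearMap.ext fun u => ?_
    have h3 := congrArg (fun T : Module.End ℚ A.H1 => p (T (f u))) (h1 X hX)
    change p (X (f (P (p (f u))))) = p (f (P (p (X (f u))))) at h3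
    rw [h.pf, h.pf] at h3
    exact h3

/-- the restriction, over the complex numbers -/
def rsC (f : B.H1 →ₗ[ℚ] A.H1) (p : A.H1 →ₗ[ℚ] B.H1) :
    Module.End ℂ (ℂ ⊗[ℚ] A.H1) →ₗ[ℂ] Module.End ℂ (ℂ ⊗[ℚ] B.H1) where
  toFun x := p.baseChange ℂ ∘ₗ x ∘ₗ f.baseChange ℂ
  map_add' x y := by rw [LinearMap.add_comp, LinearMap.comp_add]
  map_smul' c x := by rw [LinearMap.smul_comp, LinearMap.comp_smul]; rfl

theorem rsC_apply (x : Module.End ℂ (ℂ ⊗[ℚ] A.H1)) (u : ℂ ⊗[ℚ] B.H1) :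
    rsC f p x u = p.baseChange ℂ (x (f.baseChange ℂ u)) := rfl

theorem rsC_bc (X : Module.End ℚ A.H1) : rsC f p (X.baseChange ℂ) = (rs f p X).baseChange ℂ := by
  change p.baseChange ℂ ∘ₗ X.baseChange ℂ ∘ₗ f.baseChange ℂ = (p.comp (X.comp f)).baseChange ℂ
  rw [LinearMap.baseChange_comp, LinearMap.baseChange_comp]

theorem pfC (h : Fac B A f p) (u : ℂ ⊗[ℚ] B.H1) : p.baseChange ℂ (f.baseChange ℂ u) = u := by
  have h1 : (p.comp f) = LinearMap.id := LinearMap.ext h.pf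
  have h2 : (p.comp f).baseChange ℂ = (LinearMap.id : (ℂ ⊗[ℚ] B.H1) →ₗ[ℂ] _) := by
    rw [h1, LinearMap.baseChange_id]
  rw [LinearMap.baseChange_comp] at h2
  exact congrArg (fun T : (ℂ ⊗[ℚ] B.H1) →ₗ[ℂ] (ℂ ⊗[ℚ] B.H1) => T u) h2

theorem fixC (h : Fac B A f p) {x : Module.End ℂ (ℂ ⊗[ℚ] A.H1)} (hx : x ∈ cx A.NA)
    (u : ℂ ⊗[ℚ] B.H1) : f.baseChange ℂ (rsC f p x u) = x (f.baseChange ℂ u) := by
  induction hx using Submodule.span_induction with
  | mem x hx =>
    obtain ⟨X, hX, rfl⟩ := hx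
    rw [rsC_bc]
    have h1 : f.comp (rs f p X) = X.comp f := LinearMap.ext fun w => h.fix hX w
    have h2 := congrArg (fun T : B.H1 →ₗ[ℚ] A.H1 => T.baseChange ℂ u) h1
    simp only [LinearMap.baseChange_comp] at h2
    exact h2
  | zero => rw [map_zero, LinearMap.zero_apply, LinearMap.zero_apply, map_zero]
  | add x y _ _ hx hy => rw [map_add, LinearMap.add_apply, LinearMap.add_apply, map_add, hx, hy]
  | smul c x _ hx => rw [map_smul, LinearMap.smul_apply, LinearMap.smul_apply, map_smul, hx]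

theorem pxC (h : Fac B A f p) {x : Module.End ℂ (ℂ ⊗[ℚ] A.H1)} (hx : x ∈ cx A.NA)
    (v : ℂ ⊗[ℚ] A.H1) : p.baseChange ℂ (x v) = rsC f p x (p.baseChange ℂ v) := by
  induction hx using Submodule.span_induction with
  | mem x hx =>
    obtain ⟨X, hX, rfl⟩ := hx
    rw [rsC_bc]
    have h1 : p.comp X = (rs f p X).comp p := by
      refine LinearMap.ext fun w => ?_
      have h4 := congrArg (fun T : Module.End ℚ A.H1 => p (T w)) (A.NA_comm hX h.mem_EA)
      change p (X (f (p w))) = p (f (p (X w))) at h4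
      rw [h.pf] at h4
      exact h4.symm
    have h2 := congrArg (fun T : A.H1 →ₗ[ℚ] B.H1 => T.baseChange ℂ v) h1
    simp only [LinearMap.baseChange_comp] at h2
    exact h2
  | zero => rw [LinearMap.zero_apply, map_zero, map_zero, LinearMap.zero_apply]
  | add x y _ _ hx hy => rw [LinearMap.add_apply, map_add, map_add, LinearMap.add_apply, hx, hy]
  | smul c x _ hx => rw [LinearMap.smul_apply, map_smul, map_smul, LinearMap.smul_apply, hx]

theorem rsC_mul (h : Fac B A f p) {x y : Module.End ℂ (ℂ ⊗[ℚ] A.H1)} (hy : y ∈ cx A.NA) :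
    rsC f p (x * y) = rsC f p x * rsC f p y := by
  refine LinearMap.ext fun u => ?_
  change p.baseChange ℂ (x (y (f.baseChange ℂ u))) =
    p.baseChange ℂ (x (f.baseChange ℂ (rsC f p y u)))
  rw [fixC h hy]

theorem rsC_mem {x : Module.End ℂ (ℂ ⊗[ℚ] A.H1)} {𝔥 : Submodule ℚ (Module.End ℚ A.H1)}
    (hx : x ∈ cx 𝔥) : rsC f p x ∈ cx (𝔥.map (rs f p)) := by
  induction hx using Submodule.span_induction with
  | mem x hx =>
    obtain ⟨X, hX, rfl⟩ := hx
    rw [rsC_bc]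
    exact bc_mem (Submodule.mem_map_of_mem hX)
  | zero => rw [map_zero]; exact Submodule.zero_mem _
  | add x y _ _ hx hy => rw [map_add]; exact Submodule.add_mem _ hx hy
  | smul c x _ hx => rw [map_smul]; exact Submodule.smul_mem _ _ hx

theorem rsC_surj {𝔥 : Submodule ℚ (Module.End ℚ A.H1)} {y : Module.End ℂ (ℂ ⊗[ℚ] B.H1)}
    (hy : y ∈ cx (𝔥.map (rs f p))) : ∃ x ∈ cx 𝔥, rsC f p x = y := by
  induction hy using Submodule.span_induction with
  | mem y hy =>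
    obtain ⟨_, ⟨X, hX, rfl⟩, rfl⟩ := hy
    exact ⟨_, bc_mem hX, rsC_bc X⟩
  | zero => exact ⟨0, Submodule.zero_mem _, map_zero _⟩
  | add x y _ _ hx hy =>
    obtain ⟨a, ha, rfl⟩ := hx
    obtain ⟨b, hb, rfl⟩ := hy
    exact ⟨a + b, Submodule.add_mem _ ha hb, map_add _ _ _⟩
  | smul c x _ hx =>
    obtain ⟨a, ha, rfl⟩ := hx
    exact ⟨c • a, Submodule.smul_mem _ c ha, map_smul _ _ _⟩

end fac

/-- `A` is isogenous to the product of `B` and `C`. -/
structure Prd (A : AbVar g) (B : AbVar g₁) (C : AbVar g₂) (f : B.H1 →ₗ[ℚ] A.H1)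
    (p : A.H1 →ₗ[ℚ] B.H1) (f' : C.H1 →ₗ[ℚ] A.H1) (p' : A.H1 →ₗ[ℚ] C.H1) : Prop where
  b : Fac B A f p
  c : Fac C A f' p'
  sum : ∀ w, f (p w) + f' (p' w) = w

/-- The homology is a sum of small blocks. -/
def Small (B : AbVar g₁) : Prop := ∃ (n : ℕ) (V : Fin n → Submodule ℂ (ℂ ⊗[ℚ] B.H1)),
  (∀ k, finrank ℂ (V k) ≤ 3) ∧ ⨆ k, V k = ⊤ ∧
    ∀ X ∈ B.NA, ∀ k, ∀ v ∈ V k, (X.baseChange ℂ : Module.End ℂ (ℂ ⊗[ℚ] B.H1)) v ∈ V k

section spin

variable {m : ℕ} {d r : Fin m → ℕ} {P : ∀ i, Matrix (Fin (d i)) (Fin (2 * g₂)) ℂ}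
    {Q : ∀ i, Matrix (Fin (2 * g₂)) (Fin (d i)) ℂ}
    {E : ∀ i, Fin (r i) → Matrix (Fin (d i)) (Fin (d i)) ℂ}

/-- full subalgebras -/
theorem full_sum' {𝔨 : Submodule ℚ (Module.End ℚ C.H1)} (h : C.Full 𝔨) (hB : Blk P Q E)
    (hr : ∀ i, 6 ≤ r i) (hl : cx C.NA = soB (Pm P) (Qm Q) (Em E)) : C.NA ≤ 𝔨 := by
  have : ∀ i, Nontrivial (Fin (d i) → ℂ) := fun i => by
    have : Nonempty (Fin (d i)) := ⟨⟨0, hB.pos i⟩⟩
    infer_instance
  have hhyp : SpHyp (Pm P) (Qm Q) (Em E) (cx 𝔨) :=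
    { dec := dec_of hB
      ce := ce_of hB
      le := by
        intro x hx
        have h1 := cx_mono h.le hx
        rw [hl] at h1
        exact h1
      br := h.cx_br'
      gen := by
        intro i a b hab
        refine h.cx_adjoin _ ?_
        rw [hl]
        exact Submodule.subset_span ⟨i, a, b, hab, rfl⟩ }
  intro X hX
  refine mem_of_bc ?_
  have h1 := bc_mem hX
  rw [hl] at h1
  exact all' hhyp hr h1

variable {f : B.H1 →ₗ[ℚ] A.H1} {p : A.H1 →ₗ[ℚ] B.H1} {f' : C.H1 →ₗ[ℚ] A.H1}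
  {p' : A.H1 →ₗ[ℚ] C.H1}

/-- **The factor of spin type.** -/
theorem mem_spin (h : Prd A B C f p f' p') (hF : A.Full 𝔥) (hS : Small B) (hB : Blk P Q E)
    (hr : ∀ i, 6 ≤ r i) (hl : cx C.NA = soB (Pm P) (Qm Q) (Em E)) {Y : Module.End ℚ C.H1}
    (hY : Y ∈ C.NA) : f'.comp (Y.comp p') ∈ 𝔥 := by
  have : ∀ i, Nontrivial (Fin (d i) → ℂ) := fun i => by
    have : Nonempty (Fin (d i)) := ⟨⟨0, hB.pos i⟩⟩
    infer_instance
  obtain ⟨n, V, hdim, htop, hst⟩ := hS
  have hC := full_sum' (im_full h.c hF) hB hr hl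
  have hle : cx 𝔥 ≤ cx A.NA := cx_mono hF.le
  let 𝔐 : Submodule ℂ (Module.End ℂ (ℂ ⊗[ℚ] B.H1) × Module.End ℂ (ℂ ⊗[ℚ] C.H1)) :=
    (cx 𝔥).map ((rsC f p).prod (rsC f' p'))
  have hM : ∀ z, z ∈ 𝔐 ↔ ∃ x ∈ cx 𝔥, rsC f p x = z.1 ∧ rsC f' p' x = z.2 := by
    intro z
    constructor
    · rintro ⟨x, hx, rfl⟩
      exact ⟨x, hx, rfl, rfl⟩
    · rintro ⟨x, hx, h1, h2⟩
      exact ⟨x, hx, Prod.ext h1 h2⟩
  have hNB : ∀ x ∈ cx 𝔥, ∀ k, ∀ v ∈ V k, rsC f p x v ∈ V k := by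
    intro x hx k v hv
    have h1 := rsC_mem (f := f) (p := p) hx
    have h2 : ∀ y ∈ cx (𝔥.map (rs f p)), y v ∈ V k := by
      intro y hy
      induction hy using Submodule.span_induction with
      | mem y hy =>
        obtain ⟨_, ⟨X, hX, rfl⟩, rfl⟩ := hy
        exact hst _ (h.b.rs_NA (hF.le hX)) k v hv
      | zero => exact Submodule.zero_mem _
      | add a b _ _ ha hb => exact Submodule.add_mem _ ha hb
      | smul c a _ ha => exact Submodule.smul_mem _ c ha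
    exact h2 _ h1
  have key := big (dec_of hB) (ce_of hB) hr hdim htop (𝔐 := 𝔐) (fun z hz w hw => ?_)
    (fun z hz k v hv => ?_) (fun z hz => ?_) (fun y hy => ?_) (Y.baseChange ℂ)
    (by rw [← hl]; exact bc_mem hY)
  · obtain ⟨x, hx, h1, h2⟩ := (hM _).1 key
    have h1 : rsC f p x = 0 := h1
    have h2 : rsC f' p' x = Y.baseChange ℂ := h2
    refine mem_of_bc ?_
    have h3 : (f'.comp (Y.comp p')).baseChange ℂ = x := by
      refine LinearMap.ext fun v => ?_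
      have hsum : ∀ v : ℂ ⊗[ℚ] A.H1, f.baseChange ℂ (p.baseChange ℂ v) +
          f'.baseChange ℂ (p'.baseChange ℂ v) = v := by
        intro v
        have e1 : f.comp p + f'.comp p' = LinearMap.id := LinearMap.ext h.sum
        have e2 := congrArg (fun T : A.H1 →ₗ[ℚ] A.H1 => T.baseChange ℂ v) e1
        simp only [LinearMap.baseChange_add, LinearMap.baseChange_comp,
          LinearMap.baseChange_id] at e2
        exact e2
      have e3 := hsum (x v)
      rw [pxC h.b (hle hx), pxC h.c (hle hx), h1, h2, LinearMap.zero_apply, map_zero,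
        zero_add] at e3
      rw [LinearMap.baseChange_comp, LinearMap.baseChange_comp]
      exact e3
    rw [h3]
    exact hx
  · obtain ⟨x, hx, h1, h2⟩ := (hM _).1 hz
    obtain ⟨y, hy, h3, h4⟩ := (hM _).1 hw
    refine (hM _).2 ⟨x * y - y * x, hF.cx_br' x hx y hy, ?_, ?_⟩
    · rw [map_sub, rsC_mul h.b (hle hy), rsC_mul h.b (hle hx), h1, h3]
    · rw [map_sub, rsC_mul h.c (hle hy), rsC_mul h.c (hle hx), h2, h4]
  · obtain ⟨x, hx, h1, h2⟩ := (hM _).1 hz
    rw [← h1]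
    exact hNB x hx k v hv
  · obtain ⟨x, hx, h1, h2⟩ := (hM _).1 hz
    rw [← h2, ← hl]
    have h3 := rsC_mem (f := f') (p := p') hx
    refine cx_mono ?_ h3
    rintro _ ⟨X, hX, rfl⟩
    exact h.c.rs_NA (hF.le hX)
  · rw [← hl] at hy
    obtain ⟨x, hx, hxy⟩ := rsC_surj (f := f') (p := p') (cx_mono hC hy)
    exact ⟨rsC f p x, (hM _).2 ⟨x, hx, rfl, hxy⟩⟩

end spin

end Pool.Agent.NH25.PK

end
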